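import Pool.Agent.helper43.NE.GrModel

/-!
# MP_5c1f29_al: property (N) for `BS(m, ±m)`, `m ≥ 2`
-/

set_option autoImplicit false

namespace Pool.Agent.NE

section

variable {M : ℕ} {e : ℤ}

/-- the generator `t` -/
abbrev bt (M : ℕ) (e : ℤ) : BS M (e * M) := PresentedGroup.of 0
/-- the generator `a` -/
abbrev ba (M : ℕ) (e : ℤ) : BS M (e * M) := PresentedGroup.of 1

theorem b_rel : bt M e * ba M e ^ (M : ℤ) * (bt M e)⁻¹ = ba M e ^ (e * M) := bs_rel

/-- the projection to `BS(0, M)` -/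
def prj (M : ℕ) (e : ℤ) : BS M (e * M) →* BS 0 M :=
  bsLift (qt M) (qa M) (by
    rw [mul_comm e, zpow_mul, zpow_natCast, qa_pow_M, one_zpow, mul_one, mul_inv_cancel])

theorem prj_t : prj M e (bt M e) = qt M := bsLift_t _ _ _
theorem prj_a : prj M e (ba M e) = qa M := bsLift_a _ _ _

/-- the subgroup generated by `a^M` -/
def Cs (M : ℕ) (e : ℤ) : Subgroup (BS M (e * M)) := Subgroup.zpowers (ba M e ^ (M : ℤ))

theorem mem_Cs {x : BS M (e * M)} : x ∈ Cs M e ↔ ∃ j : ℤ, x = ba M e ^ ((M : ℤ) * j) := by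
  unfold Cs
  rw [Subgroup.mem_zpowers_iff]
  constructor
  · rintro ⟨j, rfl⟩; exact ⟨j, by rw [zpow_mul]⟩
  · rintro ⟨j, rfl⟩; exact ⟨j, by rw [zpow_mul]⟩

theorem conj_t (j : ℤ) : bt M e * ba M e ^ ((M : ℤ) * j) * (bt M e)⁻¹ =
    ba M e ^ ((M : ℤ) * (e * j)) := by
  rw [zpow_mul, ← conj_zpow, b_rel, ← zpow_mul]
  congr 1; ring

theorem conj_t_inv (he : e = 1 ∨ e = -1) (j : ℤ) :
    (bt M e)⁻¹ * ba M e ^ ((M : ℤ) * j) * bt M e = ba M e ^ ((M : ℤ) * (e * j)) := by
  have h1 := conj_t (M := M) (e := e) (e * j)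
  have h2 : e * (e * j) = j := by rcases he with rfl | rfl <;> ring
  rw [h2] at h1
  rw [← h1]; group

theorem Cs_normal (he : e = 1 ∨ e = -1) : (Cs M e).Normal := by
  constructor
  intro c hc x
  have hx : x ∈ Subgroup.closure (Set.range (PresentedGroup.of : Fin 2 → BS M (e * M))) := by
    rw [PresentedGroup.closure_range_of]; trivial
  induction hx using Subgroup.closure_induction_left with
  | one => simpa using hc
  | mul_left x hx y hy ih =>
    have e1 : x * y * c * (x * y)⁻¹ = x * (y * c * y⁻¹) * x⁻¹ := by group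
    rw [e1]
    obtain ⟨j, hj⟩ := mem_Cs.1 ih
    rw [hj]
    obtain ⟨l, rfl⟩ := hx
    fin_cases l
    · exact mem_Cs.2 ⟨_, conj_t j⟩
    · refine mem_Cs.2 ⟨j, ?_⟩
      show ba M e * ba M e ^ ((M : ℤ) * j) * (ba M e)⁻¹ = _
      rw [← zpow_one_add, ← zpow_sub_one]
      congr 1; ring
  | inv_mul_cancel x hx y hy ih =>
    have e1 : x⁻¹ * y * c * (x⁻¹ * y)⁻¹ = x⁻¹ * (y * c * y⁻¹) * x := by group
    rw [e1]
    obtain ⟨j, hj⟩ := mem_Cs.1 ih
    rw [hj]
    obtain ⟨l, rfl⟩ := hx
    fin_cases l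
    · exact mem_Cs.2 ⟨_, conj_t_inv he j⟩
    · refine mem_Cs.2 ⟨j, ?_⟩
      show (ba M e)⁻¹ * ba M e ^ ((M : ℤ) * j) * ba M e = _
      rw [mul_assoc, ← zpow_add_one, ← zpow_neg_one, ← zpow_add]
      congr 1; ring

theorem ker_prj (he : e = 1 ∨ e = -1) (x : BS M (e * M)) (hx : prj M e x = 1) :
    ∃ j : ℤ, x = ba M e ^ ((M : ℤ) * j) := by
  have hN := Cs_normal (M := M) he
  let mk := QuotientGroup.mk' (Cs M e)
  let σ : BS 0 M →* BS M (e * M) ⧸ Cs M e := bsLift (mk (bt M e)) (mk (ba M e)) (by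
    rw [zpow_zero, mul_one, mul_inv_cancel, ← map_zpow]
    symm
    exact (QuotientGroup.eq_one_iff _).2 (Subgroup.mem_zpowers _))
  have h1 : σ.comp (prj M e) = mk := by
    apply bs_hom_ext
    · rw [MonoidHom.comp_apply]
      rw [show prj M e (PresentedGroup.of 0) = qt M from prj_t]
      exact bsLift_t _ _ _
    · rw [MonoidHom.comp_apply]
      rw [show prj M e (PresentedGroup.of 1) = qa M from prj_a]
      exact bsLift_a _ _ _
  have h2 : mk x = 1 := by
    rw [← h1, MonoidHom.comp_apply, hx, map_one]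
  exact mem_Cs.1 ((QuotientGroup.eq_one_iff x).1 h2)

/-! ### lifting Nielsen moves -/

theorem step_lift {G H : Type} [Group G] [Group H] (f : G →* H) {k : ℕ} (g : Fin k → G)
    (u v : Fin k → H) (hu : u = fun i => f (g i)) (hs : Step u v) :
    ∃ g' : Fin k → G, Step g g' ∧ v = fun i => f (g' i) := by
  subst hu
  cases hs with
  | perm σ => exact ⟨_, Step.perm g σ, rfl⟩
  | inv i =>
    refine ⟨_, Step.inv g i, ?_⟩
    funext j
    by_cases hj : j = i
    · subst hj; simp
    · simp [Function.update_of_ne hj]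
  | mul i j hij =>
    refine ⟨_, Step.mul g i j hij, ?_⟩
    funext l
    by_cases hl : l = i
    · subst hl; simp
    · simp [Function.update_of_ne hl]

theorem equiv_lift {G H : Type} [Group G] [Group H] (f : G →* H) {k : ℕ} (g : Fin k → G)
    (v : Fin k → H) (hs : NielsenEquiv (fun i => f (g i)) v) :
    ∃ g' : Fin k → G, NielsenEquiv g g' ∧ v = fun i => f (g' i) := by
  induction hs with
  | refl => exact ⟨g, NielsenEquiv.refl _, rfl⟩
  | tail _ h1 ih =>
    obtain ⟨g1, h2, h3⟩ := ih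
    obtain ⟨g2, h4, h5⟩ := step_lift f g1 _ _ h3 h1
    exact ⟨g2, h2.trans (NielsenEquiv.of_step h4), h5⟩

theorem gen_hom {G H : Type} [Group G] [Group H] (Ψ : G →* H) (τ : G →* Multiplicative ℤ)
    (g h : G) (hgen : Generates ![g, h]) (hΨ : Ψ h = 1) (hτ : τ h = 1)
    (hg : τ g = Multiplicative.ofAdd 1) (x : G) (hx : τ x = 1) : Ψ x = 1 := by
  have key : ∀ x : G, ∃ k : ℤ, Ψ x = Ψ g ^ k ∧ τ x = Multiplicative.ofAdd k := by
    intro x
    have hx : x ∈ Subgroup.closure (Set.range ![g, h]) := by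
      rw [show Subgroup.closure (Set.range ![g, h]) = ⊤ from hgen]; trivial
    induction hx using Subgroup.closure_induction with
    | mem x hx =>
      obtain ⟨l, rfl⟩ := hx
      fin_cases l
      · exact ⟨1, by simp, hg⟩
      · exact ⟨0, by simpa using hΨ, by simpa using hτ⟩
    | one => exact ⟨0, by simp, by simp⟩
    | mul x y _ _ ihx ihy =>
      obtain ⟨k, h1, h2⟩ := ihx
      obtain ⟨k', h1', h2'⟩ := ihy
      exact ⟨k + k', by rw [map_mul, h1, h1', zpow_add], by rw [map_mul, h2, h2', ofAdd_add]⟩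
    | inv x _ ih =>
      obtain ⟨k, h1, h2⟩ := ih
      exact ⟨-k, by rw [map_inv, h1, zpow_neg], by rw [map_inv, h2, ofAdd_neg]⟩
  obtain ⟨k, h1, h2⟩ := key x
  rw [hx] at h2
  have hk : k = 0 := by
    have := congrArg Multiplicative.toAdd h2
    simpa using this.symm
  rw [h1, hk, zpow_zero]

/-- the representation modulo `q` -/
noncomputable def modE (M : ℕ) (e : ℤ) (he : e = 1 ∨ e = -1) (q : ℕ) [Fact q.Prime] :
    BS M (e * M) →* Aff (ZMod q) (ZMod q) :=
  bsLift ⟨Units.mk0 ((e : ℤ) : ZMod q) (by rcases he with rfl | rfl <;> simp), 0⟩ ⟨1, 1⟩ (by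
    have hz : ∀ k : ℤ, (⟨1, 1⟩ : Aff (ZMod q) (ZMod q)) ^ k = ⟨1, (k : ZMod q)⟩ := by
      intro k
      let f : Multiplicative ℤ →* Aff (ZMod q) (ZMod q) :=
        { toFun := fun j => ⟨1, ((Multiplicative.toAdd j : ℤ) : ZMod q)⟩
          map_one' := Aff.ext rfl (by simp)
          map_mul' := by
            intro x y
            refine Aff.ext (by simp) ?_
            simp }
      have h1 : (⟨1, 1⟩ : Aff (ZMod q) (ZMod q)) = f (Multiplicative.ofAdd 1) :=
        Aff.ext rfl (by simp [f])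
      rw [h1, ← map_zpow, ← ofAdd_zsmul]
      refine Aff.ext rfl ?_
      simp [f]
    rw [hz, hz]
    refine Aff.ext (by simp) ?_
    simp)

theorem modE_a (M : ℕ) (e : ℤ) (he : e = 1 ∨ e = -1) (q : ℕ) [Fact q.Prime] (k : ℤ) :
    modE M e he q (ba M e ^ k) = ⟨1, (k : ZMod q)⟩ := by
  have hz : ∀ k : ℤ, (⟨1, 1⟩ : Aff (ZMod q) (ZMod q)) ^ k = ⟨1, (k : ZMod q)⟩ := by
    intro k
    let f : Multiplicative ℤ →* Aff (ZMod q) (ZMod q) :=
      { toFun := fun j => ⟨1, ((Multiplicative.toAdd j : ℤ) : ZMod q)⟩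
        map_one' := Aff.ext rfl (by simp)
        map_mul' := by
          intro x y
          refine Aff.ext (by simp) ?_
          simp }
    have h1 : (⟨1, 1⟩ : Aff (ZMod q) (ZMod q)) = f (Multiplicative.ofAdd 1) :=
      Aff.ext rfl (by simp [f])
    rw [h1, ← map_zpow, ← ofAdd_zsmul]
    refine Aff.ext rfl ?_
    simp [f]
  rw [map_zpow]
  have : modE M e he q (ba M e) = ⟨1, 1⟩ := bsLift_a _ _ _
  rw [this, hz]

/-- the exponent sum of `t` -/
def btau (M : ℕ) (e : ℤ) : BS M (e * M) →* Multiplicative ℤ :=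
  bsLift (Multiplicative.ofAdd 1) 1 (by simp)

theorem btau_t : btau M e (bt M e) = Multiplicative.ofAdd 1 := bsLift_t _ _ _
theorem btau_a : btau M e (ba M e) = 1 := bsLift_a _ _ _

theorem bs_eq_pos (he : e = 1 ∨ e = -1) (hM : 2 ≤ M) : PropertyN (BS M (e * M)) := by
  have hM0 : (M : ℤ) ≠ 0 := by positivity
  have heM0 : e * (M : ℤ) ≠ 0 := by
    rcases he with rfl | rfl
    · simpa using hM0
    · simpa using hM0
  have hmin := ta_isMinGen (M : ℤ) (e * M) hM0 heM0
  have key : ∀ g : Fin 2 → BS M (e * M), Generates g → NielsenEquiv g ![bt M e, ba M e] := by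
    intro g hg
    have hsurj : Generates (fun i => prj M e (g i)) := by
      have h1 : Subgroup.closure (Set.range fun i => prj M e (g i)) =
          (Subgroup.closure (Set.range g)).map (prj M e) := by
        rw [MonoidHom.map_closure, ← Set.range_comp]; rfl
      unfold Generates
      rw [h1, show Subgroup.closure (Set.range g) = ⊤ from hg, ← MonoidHom.range_eq_map,
        MonoidHom.range_eq_top]
      have h2 : (prj M e).range = ⊤ := by
        rw [← top_le_iff, ← PresentedGroup.closure_range_of, Subgroup.closure_le]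
        rintro _ ⟨i, rfl⟩
        fin_cases i
        · exact ⟨_, prj_t⟩
        · exact ⟨_, prj_a⟩
      exact MonoidHom.range_eq_top.1 h2
    have eta : ∀ {G : Type} (f : Fin 2 → G), f = ![f 0, f 1] := by
      intro G f; funext i; fin_cases i <;> rfl
    obtain ⟨k, l, hkl, hk⟩ := q_pair (M := M) (by omega) (prj M e (g 0)) (prj M e (g 1)) (by
      have := hsurj
      rw [eta (fun i => prj M e (g i))] at this
      exact this)
    have hk' : NielsenEquiv (fun i => prj M e (g i)) ![qt M, qa M ^ k] := by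
      rw [eta (fun i => prj M e (g i))]
      exact hk
    obtain ⟨g', hgg', hg'⟩ := equiv_lift (prj M e) g _ hk'
    have h0 : prj M e (g' 0) = qt M := by
      have := congrFun hg' 0
      simpa using this.symm
    have h1 : prj M e (g' 1) = qa M ^ k := by
      have := congrFun hg' 1
      simpa using this.symm
    have hgen' : Generates g' := hgg'.symm.generates hg
    -- the entries of `g'`
    obtain ⟨i, hi⟩ := ker_prj he ((bt M e)⁻¹ * g' 0) (by rw [map_mul, map_inv, prj_t, h0,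
      inv_mul_cancel])
    obtain ⟨j, hj⟩ := ker_prj he ((ba M e ^ k)⁻¹ * g' 1) (by rw [map_mul, map_inv, map_zpow,
      prj_a, h1, inv_mul_cancel])
    have hg0 : g' 0 = bt M e * ba M e ^ ((M : ℤ) * i) := by rw [← hi]; group
    have hg1 : g' 1 = ba M e ^ (k + M * j) := by
      rw [zpow_add, ← hj]; group
    set r := k + M * j with hr
    have hgen2 : Generates ![g' 0, g' 1] := by rw [← eta]; exact hgen'
    -- no prime divides `r`
    have hdiv : ∀ q : ℕ, q.Prime → ¬ (q : ℤ) ∣ r := by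
      intro q hq hqr
      have : Fact q.Prime := ⟨hq⟩
      have h2 := gen_hom (modE M e he q) (btau M e) (g' 0) (g' 1) hgen2 ?_ ?_ ?_ (ba M e) btau_a
      · have h3 := modE_a M e he q 1
        rw [zpow_one, h2] at h3
        have h4 := congrArg Aff.v h3
        simp at h4
      · rw [hg1, modE_a, (ZMod.intCast_zmod_eq_zero_iff_dvd _ _).2 hqr]
        rfl
      · rw [hg1, map_zpow, btau_a, one_zpow]
      · rw [hg0, map_mul, map_zpow, btau_a, one_zpow, mul_one, btau_t]
    have hr1 : r.natAbs = 1 := by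
      rw [Nat.eq_one_iff_not_exists_prime_dvd]
      intro q hq hd
      exact hdiv q hq (Int.natCast_dvd.2 hd)
    have hr2 : r = 1 ∨ r = -1 := Int.natAbs_eq_iff.1 hr1
    have ha : NielsenEquiv ![g' 0, g' 1] ![g' 0, ba M e] := by
      rw [hg1]
      rcases hr2 with h | h
      · rw [h, zpow_one]; exact NielsenEquiv.refl _
      · rw [h]
        have := mv_inv1 (g' 0) (ba M e ^ (-1 : ℤ))
        rw [zpow_neg, zpow_one, inv_inv] at this
        rw [zpow_neg, zpow_one]
        exact this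
    have hb : NielsenEquiv ![g' 0, ba M e] ![bt M e, ba M e] := by
      have := mv_mul0 (g' 0) (ba M e) (ba M e ^ ((M : ℤ) * i))⁻¹ (inv_mem ⟨_, rfl⟩)
      have e2 : g' 0 * (ba M e ^ ((M : ℤ) * i))⁻¹ = bt M e := by rw [hg0]; group
      rw [e2] at this
      exact this
    rw [eta g'] at hgg'
    exact (hgg'.trans ha).trans hb
  intro n g h hg hh
  have hn : n = 2 := le_antisymm (hg.2 2 _ hmin.1) (hmin.2 n g hg.1)
  subst hn
  exact (key g hg.1).trans (key h hh.1).symm

end

end Pool.Agent.NE
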