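import Pool.Agent.helper43.NE.BS

/-!
# MP_5c1f29_al: (N) for the Baumslag-Solitar groups `BS(1, n)`, `|n|` prime or `1`
-/

set_option autoImplicit false

namespace Pool.Agent.NE

/-! ### moves of pairs -/

section moves

variable {G : Type} [Group G]

omit [Group G] in
theorem upd1 (g h a : G) : Function.update ![g, h] 1 a = ![g, a] := by
  funext i; fin_cases i <;> rfl

omit [Group G] in
theorem upd0 (g h a : G) : Function.update ![g, h] 0 a = ![a, h] := by
  funext i; fin_cases i <;> rfl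

theorem mv_swap (g h : G) : NielsenEquiv ![g, h] ![h, g] := by
  have h1 := Step.perm ![g, h] (Equiv.swap 0 1)
  have h2 : ![g, h] ∘ (Equiv.swap (0 : Fin 2) 1) = ![h, g] := by
    funext i; fin_cases i <;> rfl
  rw [h2] at h1
  exact NielsenEquiv.of_step h1

theorem mv_mul (g h x : G) (hx : x ∈ Subgroup.zpowers g) :
    NielsenEquiv ![g, h] ![g, h * x] := by
  have h0 : g ∈ Subgroup.closure (![g, h] '' {j : Fin 2 | j ≠ 1}) :=
    Subgroup.subset_closure ⟨0, by decide, rfl⟩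
  have hx' : x ∈ Subgroup.closure (![g, h] '' {j : Fin 2 | j ≠ 1}) := by
    obtain ⟨k, rfl⟩ := hx
    exact Subgroup.zpow_mem _ h0 k
  have h1 := equiv_update_mul ![g, h] 1 x hx' h
  rw [upd1, upd1] at h1
  exact h1

theorem mv_inv1 (g h : G) : NielsenEquiv ![g, h] ![g, h⁻¹] := by
  have h1 := Step.inv ![g, h] 1
  rw [upd1] at h1
  exact NielsenEquiv.of_step h1

theorem mv_inv0 (g h : G) : NielsenEquiv ![g, h] ![g⁻¹, h] := by
  have h1 := Step.inv ![g, h] 0
  rw [upd0] at h1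
  exact NielsenEquiv.of_step h1

theorem mv_mul_left (g h x : G) (hx : x ∈ Subgroup.zpowers g) :
    NielsenEquiv ![g, h] ![g, x * h] := by
  have h1 := mv_inv1 g h
  have h2 := mv_mul g h⁻¹ x⁻¹ (inv_mem hx)
  have h3 := mv_inv1 g (h⁻¹ * x⁻¹)
  have e : (h⁻¹ * x⁻¹)⁻¹ = x * h := by group
  rw [e] at h3
  exact (h1.trans h2).trans h3

theorem mv_conj (g h : G) (k : ℤ) : NielsenEquiv ![g, h] ![g, g ^ k * h * (g ^ k)⁻¹] := by
  have h1 := mv_mul_left g h (g ^ k) ⟨k, rfl⟩
  have h2 := mv_mul g (g ^ k * h) (g ^ k)⁻¹ (inv_mem ⟨k, rfl⟩)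
  exact h1.trans h2

theorem mv_mul0 (g h x : G) (hx : x ∈ Subgroup.zpowers h) :
    NielsenEquiv ![g, h] ![g * x, h] :=
  ((mv_swap g h).trans (mv_mul h g x hx)).trans (mv_swap h (g * x))

/-- the Euclidean algorithm -/
theorem euclid (τ : G →* Multiplicative ℤ) (N : ℕ) : ∀ g h : G,
    (Multiplicative.toAdd (τ g)).natAbs + (Multiplicative.toAdd (τ h)).natAbs ≤ N →
    ∃ g' h' : G, NielsenEquiv ![g, h] ![g', h'] ∧ τ h' = 1 := by
  induction N with
  | zero =>
    intro g h hN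
    refine ⟨g, h, NielsenEquiv.refl _, ?_⟩
    apply Multiplicative.toAdd.injective
    rw [toAdd_one]
    omega
  | succ N ih =>
    intro g h hN
    by_cases hh : Multiplicative.toAdd (τ h) = 0
    · exact ⟨g, h, NielsenEquiv.refl _, Multiplicative.toAdd.injective hh⟩
    by_cases hg : Multiplicative.toAdd (τ g) = 0
    · exact ⟨h, g, mv_swap g h, Multiplicative.toAdd.injective hg⟩
    -- reduce
    have key : ∀ g h : G, (Multiplicative.toAdd (τ g)).natAbs +
        (Multiplicative.toAdd (τ h)).natAbs ≤ N + 1 → Multiplicative.toAdd (τ h) ≠ 0 →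
        Multiplicative.toAdd (τ g) ≠ 0 →
        (Multiplicative.toAdd (τ h)).natAbs ≤ (Multiplicative.toAdd (τ g)).natAbs →
        ∃ g' h' : G, NielsenEquiv ![g, h] ![g', h'] ∧ τ h' = 1 := by
      intro g h hN hh hg hle
      have h1 : ∃ x ∈ Subgroup.zpowers h, (Multiplicative.toAdd (τ (g * x))).natAbs <
          (Multiplicative.toAdd (τ g)).natAbs := by
        by_cases hs : (Multiplicative.toAdd (τ g) + Multiplicative.toAdd (τ h)).natAbs <
            (Multiplicative.toAdd (τ g)).natAbs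
        · exact ⟨h, Subgroup.mem_zpowers h, by rw [map_mul, toAdd_mul]; exact hs⟩
        · refine ⟨h⁻¹, inv_mem (Subgroup.mem_zpowers h), ?_⟩
          rw [map_mul, map_inv, toAdd_mul, toAdd_inv]
          omega
      obtain ⟨x, hx, hlt⟩ := h1
      obtain ⟨g', h', he, ht⟩ := ih (g * x) h (by omega)
      exact ⟨g', h', (mv_mul0 g h x hx).trans he, ht⟩
    rcases le_total (Multiplicative.toAdd (τ h)).natAbs (Multiplicative.toAdd (τ g)).natAbs with hle | hle
    · exact key g h hN hh hg hle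
    · obtain ⟨g', h', he, ht⟩ := key h g (by omega) hg hh hle
      exact ⟨g', h', (mv_swap g h).trans he, ht⟩

end moves

/-! ### the group `BS(1, n)` -/

section one

variable {n : ℤ}

/-- the generator `t` -/
abbrev tT (n : ℤ) : BS 1 n := PresentedGroup.of 0
/-- the generator `a` -/
abbrev aA (n : ℤ) : BS 1 n := PresentedGroup.of 1

theorem one_rel : tT n * aA n * (tT n)⁻¹ = aA n ^ n := by
  have h := bs_rel (m := 1) (n := n)
  rwa [zpow_one] at h

theorem one_rel_z (j : ℤ) : tT n * aA n ^ j * (tT n)⁻¹ = aA n ^ (n * j) := by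
  rw [← conj_zpow, one_rel, ← zpow_mul]

theorem one_rel_pow (i : ℕ) (j : ℤ) : tT n ^ i * aA n ^ j * (tT n ^ i)⁻¹ = aA n ^ (n ^ i * j) := by
  induction i with
  | zero => simp
  | succ i ih =>
    rw [pow_succ']
    calc tT n * tT n ^ i * aA n ^ j * (tT n * tT n ^ i)⁻¹
        = tT n * (tT n ^ i * aA n ^ j * (tT n ^ i)⁻¹) * (tT n)⁻¹ := by group
      _ = _ := by
        rw [ih, one_rel_z, pow_succ', mul_assoc]

/-- the normal form -/
theorem one_nf (x : BS 1 n) : ∃ (i k : ℕ) (j : ℤ), x = (tT n ^ i)⁻¹ * aA n ^ j * tT n ^ k := by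
  have hx : x ∈ Subgroup.closure (Set.range (PresentedGroup.of : Fin 2 → BS 1 n)) := by
    rw [PresentedGroup.closure_range_of]; trivial
  have hT : ∀ (i k : ℕ) (j : ℤ), ∃ (i' k' : ℕ) (j' : ℤ),
      tT n * ((tT n ^ i)⁻¹ * aA n ^ j * tT n ^ k) = (tT n ^ i')⁻¹ * aA n ^ j' * tT n ^ k' := by
    intro i k j
    cases i with
    | zero =>
      refine ⟨0, k + 1, n * j, ?_⟩
      rw [← one_rel_z, pow_succ']
      group
    | succ i =>
      refine ⟨i, k, j, ?_⟩
      rw [pow_succ]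
      group
  have hTi : ∀ (i k : ℕ) (j : ℤ), ∃ (i' k' : ℕ) (j' : ℤ),
      (tT n)⁻¹ * ((tT n ^ i)⁻¹ * aA n ^ j * tT n ^ k) = (tT n ^ i')⁻¹ * aA n ^ j' * tT n ^ k' := by
    intro i k j
    refine ⟨i + 1, k, j, ?_⟩
    rw [pow_succ]
    group
  have hA : ∀ (i k : ℕ) (j l : ℤ), ∃ (i' k' : ℕ) (j' : ℤ),
      aA n ^ l * ((tT n ^ i)⁻¹ * aA n ^ j * tT n ^ k) = (tT n ^ i')⁻¹ * aA n ^ j' * tT n ^ k' := by
    intro i k j l
    refine ⟨i, k, n ^ i * l + j, ?_⟩
    rw [zpow_add, ← one_rel_pow]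
    group
  induction hx using Subgroup.closure_induction_left with
  | one => exact ⟨0, 0, 0, by simp⟩
  | mul_left x hx y hy ih =>
    obtain ⟨i, k, j, rfl⟩ := ih
    obtain ⟨l, rfl⟩ := hx
    fin_cases l
    · exact hT i k j
    · have := hA i k j 1
      rw [zpow_one] at this
      exact this
  | inv_mul_cancel x hx y hy ih =>
    obtain ⟨i, k, j, rfl⟩ := ih
    obtain ⟨l, rfl⟩ := hx
    fin_cases l
    · exact hTi i k j
    · have := hA i k j (-1)
      rw [zpow_neg, zpow_one] at this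
      exact this

/-- the exponent sum of `t` -/
def tau (n : ℤ) : BS 1 n →* Multiplicative ℤ := bsLift (Multiplicative.ofAdd 1) 1 (by simp)

theorem tau_t : tau n (tT n) = Multiplicative.ofAdd 1 := bsLift_t _ _ _
theorem tau_a : tau n (aA n) = 1 := bsLift_a _ _ _

theorem ker_nf (x : BS 1 n) (hx : tau n x = 1) :
    ∃ (i : ℕ) (j : ℤ), x = (tT n ^ i)⁻¹ * aA n ^ j * tT n ^ i := by
  obtain ⟨i, k, j, rfl⟩ := one_nf x
  rw [map_mul, map_mul, map_inv, map_pow, map_zpow, map_pow, tau_t, tau_a, one_zpow, mul_one] at hx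
  have h1 := congrArg Multiplicative.toAdd hx
  simp only [toAdd_mul, toAdd_inv, toAdd_pow, toAdd_ofAdd, toAdd_one, mul_one,
    nsmul_eq_mul] at h1
  have : i = k := by omega
  subst this
  exact ⟨i, j, rfl⟩

theorem ker_nf' (x : BS 1 n) (i : ℕ) (j : ℤ) (hx : x = (tT n ^ i)⁻¹ * aA n ^ j * tT n ^ i) (r : ℕ) :
    x = (tT n ^ (i + r))⁻¹ * aA n ^ (n ^ r * j) * tT n ^ (i + r) := by
  rw [hx, ← one_rel_pow, add_comm i r, pow_add]
  group

/-- the kernel is abelian -/
theorem ker_comm (x y : BS 1 n) (hx : tau n x = 1) (hy : tau n y = 1) : x * y = y * x := by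
  obtain ⟨i, j, hx'⟩ := ker_nf x hx
  obtain ⟨i', j', hy'⟩ := ker_nf y hy
  have h1 := ker_nf' x i j hx' i'
  have h2 := ker_nf' y i' j' hy' i
  rw [add_comm i' i] at h2
  rw [h1, h2]
  generalize n ^ i' * j = u
  generalize n ^ i * j' = v
  calc (tT n ^ (i + i'))⁻¹ * aA n ^ u * tT n ^ (i + i') *
      ((tT n ^ (i + i'))⁻¹ * aA n ^ v * tT n ^ (i + i'))
      = (tT n ^ (i + i'))⁻¹ * (aA n ^ u * aA n ^ v) * tT n ^ (i + i') := by group
    _ = (tT n ^ (i + i'))⁻¹ * (aA n ^ v * aA n ^ u) * tT n ^ (i + i') := by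
        rw [← zpow_add, ← zpow_add, add_comm u v]
    _ = _ := by group

/-- the representation modulo `q` -/
noncomputable def modq (n : ℤ) (q : ℕ) [Fact q.Prime] (hq : ((n : ℤ) : ZMod q) ≠ 0) :
    BS 1 n →* Aff (ZMod q) (ZMod q) :=
  bsLift ⟨Units.mk0 ((n : ℤ) : ZMod q) hq, 0⟩ ⟨1, 1⟩ (by
    have hz : ∀ k : ℤ, (⟨1, 1⟩ : Aff (ZMod q) (ZMod q)) ^ k = ⟨1, (k : ZMod q)⟩ := by
      intro k
      let f : Multiplicative ℤ →* Aff (ZMod q) (ZMod q) :=
        { toFun := fun j => ⟨1, ((Multiplicative.toAdd j : ℤ) : ZMod q)⟩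
          map_one' := Aff.ext rfl (by simp)
          map_mul' := by
            intro x y
            refine Aff.ext (by simp) ?_
            simp }
      have h1 : (⟨1, 1⟩ : Aff (ZMod q) (ZMod q)) = f (Multiplicative.ofAdd 1) :=
        Aff.ext rfl (by simp [f])
      rw [h1, ← map_zpow, ← ofAdd_zsmul]
      refine Aff.ext rfl ?_
      simp [f]
    rw [hz, hz]
    refine Aff.ext (by simp) ?_
    simp)

theorem modq_a (n : ℤ) (q : ℕ) [Fact q.Prime] (hq : ((n : ℤ) : ZMod q) ≠ 0) (k : ℤ) :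
    modq n q hq (aA n ^ k) = ⟨1, (k : ZMod q)⟩ := by
  have hz : ∀ k : ℤ, (⟨1, 1⟩ : Aff (ZMod q) (ZMod q)) ^ k = ⟨1, (k : ZMod q)⟩ := by
    intro k
    let f : Multiplicative ℤ →* Aff (ZMod q) (ZMod q) :=
      { toFun := fun j => ⟨1, ((Multiplicative.toAdd j : ℤ) : ZMod q)⟩
        map_one' := Aff.ext rfl (by simp)
        map_mul' := by
          intro x y
          refine Aff.ext (by simp) ?_
          simp }
    have h1 : (⟨1, 1⟩ : Aff (ZMod q) (ZMod q)) = f (Multiplicative.ofAdd 1) :=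
      Aff.ext rfl (by simp [f])
    rw [h1, ← map_zpow, ← ofAdd_zsmul]
    refine Aff.ext rfl ?_
    simp [f]
  rw [map_zpow]
  have : modq n q hq (aA n) = ⟨1, 1⟩ := bsLift_a _ _ _
  rw [this, hz]

/-- the divisor property of generating pairs -/
theorem gen_dvd (g h : BS 1 n) (hgen : Generates ![g, h]) (hg : tau n g = Multiplicative.ofAdd 1)
    (i : ℕ) (j : ℤ) (hh : h = (tT n ^ i)⁻¹ * aA n ^ j * tT n ^ i) (q : ℕ) (hq : q.Prime)
    (hqn : ¬ (q : ℤ) ∣ n) : ¬ (q : ℤ) ∣ j := by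
  intro hqj
  have : Fact q.Prime := ⟨hq⟩
  have hn : ((n : ℤ) : ZMod q) ≠ 0 := by
    intro h0
    exact hqn ((ZMod.intCast_zmod_eq_zero_iff_dvd _ _).1 h0)
  have hj : ((j : ℤ) : ZMod q) = 0 := (ZMod.intCast_zmod_eq_zero_iff_dvd _ _).2 hqj
  set Ψ := modq n q hn with hΨ
  have hΨh : Ψ h = 1 := by
    rw [hh, map_mul, map_mul, map_inv, hΨ, modq_a, hj]
    have : (⟨1, 0⟩ : Aff (ZMod q) (ZMod q)) = 1 := rfl
    rw [this, mul_one, inv_mul_cancel]
  have hτh : tau n h = 1 := by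
    rw [hh, map_mul, map_mul, map_inv, map_zpow, tau_a, one_zpow, mul_one, inv_mul_cancel]
  have key : ∀ x : BS 1 n, ∃ k : ℤ, Ψ x = Ψ g ^ k ∧ tau n x = Multiplicative.ofAdd k := by
    intro x
    have hx : x ∈ Subgroup.closure (Set.range ![g, h]) := by
      rw [show Subgroup.closure (Set.range ![g, h]) = ⊤ from hgen]; trivial
    induction hx using Subgroup.closure_induction with
    | mem x hx =>
      obtain ⟨l, rfl⟩ := hx
      fin_cases l
      · exact ⟨1, by simp, hg⟩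
      · exact ⟨0, by simpa using hΨh, by simpa using hτh⟩
    | one => exact ⟨0, by simp, by simp⟩
    | mul x y _ _ ihx ihy =>
      obtain ⟨k, h1, h2⟩ := ihx
      obtain ⟨k', h1', h2'⟩ := ihy
      exact ⟨k + k', by rw [map_mul, h1, h1', zpow_add], by rw [map_mul, h2, h2', ofAdd_add]⟩
    | inv x _ ih =>
      obtain ⟨k, h1, h2⟩ := ih
      exact ⟨-k, by rw [map_inv, h1, zpow_neg], by rw [map_inv, h2, ofAdd_neg]⟩
  obtain ⟨k, h1, h2⟩ := key (aA n)
  rw [tau_a] at h2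
  have hk : k = 0 := by
    have := congrArg Multiplicative.toAdd h2
    simpa using this.symm
  rw [hk, zpow_zero] at h1
  have h3 := modq_a n q hn 1
  rw [zpow_one] at h3
  rw [← hΨ, h1] at h3
  have h4 := congrArg Aff.v h3
  simp at h4

theorem exists_pow (g h : BS 1 n) (hn : n.natAbs.Prime ∨ n.natAbs = 1) (hgen : Generates ![g, h])
    (hg : tau n g = Multiplicative.ofAdd 1) (i : ℕ) (j : ℤ)
    (hh : h = (tT n ^ i)⁻¹ * aA n ^ j * tT n ^ i) : ∃ l : ℕ, j = n ^ l ∨ j = -n ^ l := by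
  have hj0 : j ≠ 0 := by
    rintro rfl
    obtain ⟨q, hq, hqp⟩ := Nat.exists_infinite_primes (n.natAbs + 2)
    refine gen_dvd g h hgen hg i 0 hh q hqp ?_ (dvd_zero _)
    intro hd
    have h1 := Int.natAbs_dvd_natAbs.2 hd
    rw [Int.natAbs_natCast] at h1
    have h2 : n.natAbs ≠ 0 := by
      rcases hn with h | h
      · exact h.ne_zero
      · omega
    have := Nat.le_of_dvd (Nat.pos_of_ne_zero h2) h1
    omega
  have key : ∃ l : ℕ, j.natAbs = n.natAbs ^ l := by
    rcases hn with hp | h1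
    · refine ⟨_, Nat.eq_prime_pow_of_unique_prime_dvd (Int.natAbs_ne_zero.2 hj0) ?_⟩
      intro q hq hqj
      by_contra hne
      refine gen_dvd g h hgen hg i j hh q hq ?_ (Int.natCast_dvd.2 hqj)
      intro hd
      have h2 := Int.natCast_dvd.1 hd
      rcases (Nat.dvd_prime hp).1 h2 with h3 | h3
      · exact hq.one_lt.ne' h3
      · exact hne h3
    · refine ⟨0, ?_⟩
      rw [pow_zero, Nat.eq_one_iff_not_exists_prime_dvd]
      intro q hq hqj
      refine gen_dvd g h hgen hg i j hh q hq ?_ (Int.natCast_dvd.2 hqj)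
      intro hd
      have h2 := Int.natCast_dvd.1 hd
      rw [h1, Nat.dvd_one] at h2
      exact hq.one_lt.ne' h2
  obtain ⟨l, hl⟩ := key
  refine ⟨l, ?_⟩
  rw [← Int.natAbs_pow] at hl
  exact Int.natAbs_eq_natAbs_iff.1 hl

theorem conj_ker (g x : BS 1 n) (hg : tau n g = Multiplicative.ofAdd 1) (hx : tau n x = 1)
    (k : ℤ) : g ^ k * x * (g ^ k)⁻¹ = tT n ^ k * x * (tT n ^ k)⁻¹ := by
  -- `t^(-k) g^k` is in the kernel
  have h1 : tau n ((tT n ^ k)⁻¹ * g ^ k) = 1 := by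
    rw [map_mul, map_inv, map_zpow, map_zpow, tau_t, hg, inv_mul_cancel]
  have h2 := ker_comm _ _ h1 hx
  calc g ^ k * x * (g ^ k)⁻¹ = tT n ^ k * (((tT n ^ k)⁻¹ * g ^ k) * x) * (g ^ k)⁻¹ := by group
    _ = tT n ^ k * (x * ((tT n ^ k)⁻¹ * g ^ k)) * (g ^ k)⁻¹ := by rw [h2]
    _ = _ := by group

theorem one_pair (hn : n.natAbs.Prime ∨ n.natAbs = 1) (g h : BS 1 n)
    (hgen : Generates ![g, h]) : NielsenEquiv ![g, h] ![tT n, aA n] := by
  obtain ⟨g1, h1, he1, ht1⟩ := euclid (tau n) _ g h le_rfl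
  have hgen1 : Generates ![g1, h1] := he1.symm.generates hgen
  -- the exponent of `g1` is `± 1`
  have hpm : tau n g1 = Multiplicative.ofAdd 1 ∨ tau n g1⁻¹ = Multiplicative.ofAdd 1 := by
    have hz : ∀ x : BS 1 n, tau n x ∈ Subgroup.zpowers (tau n g1) := by
      intro x
      have hx : x ∈ Subgroup.closure (Set.range ![g1, h1]) := by
        rw [show Subgroup.closure (Set.range ![g1, h1]) = ⊤ from hgen1]; trivial
      induction hx using Subgroup.closure_induction with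
      | mem x hx =>
        obtain ⟨l, rfl⟩ := hx
        fin_cases l
        · exact Subgroup.mem_zpowers _
        · show tau n h1 ∈ _
          rw [ht1]; exact one_mem _
      | one => rw [map_one]; exact one_mem _
      | mul x y _ _ ihx ihy => rw [map_mul]; exact mul_mem ihx ihy
      | inv x _ ih => rw [map_inv]; exact inv_mem ih
    obtain ⟨k, hk⟩ := hz (tT n)
    have h2 : (tau n g1) ^ k = tau n (tT n) := hk
    rw [tau_t] at h2
    have h3 := congrArg Multiplicative.toAdd h2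
    rw [toAdd_zpow, toAdd_ofAdd, smul_eq_mul] at h3
    rcases Int.isUnit_iff.1 (IsUnit.of_mul_eq_one k (by rw [mul_comm]; exact h3)) with h4 | h4
    · left
      exact Multiplicative.toAdd.injective h4
    · right
      apply Multiplicative.toAdd.injective
      rw [map_inv, toAdd_inv, h4]
      rfl
  obtain ⟨g2, he2, ht2⟩ : ∃ g2, NielsenEquiv ![g1, h1] ![g2, h1] ∧
      tau n g2 = Multiplicative.ofAdd 1 := by
    rcases hpm with h | h
    · exact ⟨g1, NielsenEquiv.refl _, h⟩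
    · exact ⟨g1⁻¹, mv_inv0 g1 h1, h⟩
  have hgen2 : Generates ![g2, h1] := he2.symm.generates hgen1
  obtain ⟨i, j, hh1⟩ := ker_nf h1 ht1
  obtain ⟨l, hl⟩ := exists_pow g2 h1 hn hgen2 ht2 i j hh1
  -- conjugate `h1` to `a^(±1)`
  have hta : ∀ e : ℤ, tau n (aA n ^ e) = 1 := by intro e; rw [map_zpow, tau_a, one_zpow]
  have hconj : ∃ e : ℤ, (e = 1 ∨ e = -1) ∧
      tT n ^ ((i : ℤ) - l) * h1 * (tT n ^ ((i : ℤ) - l))⁻¹ = aA n ^ e := by
    have h5 : ∀ e : ℤ, aA n ^ (n ^ l * e) = tT n ^ l * aA n ^ e * (tT n ^ l)⁻¹ :=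
      fun e => (one_rel_pow l e).symm
    rcases hl with hl | hl
    · refine ⟨1, Or.inl rfl, ?_⟩
      rw [hh1, hl, ← mul_one (n ^ l), h5 1, zpow_sub, zpow_natCast, zpow_natCast]
      group
    · refine ⟨-1, Or.inr rfl, ?_⟩
      have e1 : -n ^ l = n ^ l * (-1) := by ring
      rw [hh1, hl, e1, h5 (-1), zpow_sub, zpow_natCast, zpow_natCast]
      group
  obtain ⟨e, he, hc⟩ := hconj
  have he3 : NielsenEquiv ![g2, h1] ![g2, aA n ^ e] := by
    have := mv_conj g2 h1 ((i : ℤ) - l)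
    rw [conj_ker g2 h1 ht2 ht1, hc] at this
    exact this
  have he4 : NielsenEquiv ![g2, aA n ^ e] ![g2, aA n] := by
    rcases he with rfl | rfl
    · rw [zpow_one]; exact NielsenEquiv.refl _
    · have := mv_inv1 g2 (aA n ^ (-1 : ℤ))
      rw [zpow_neg, zpow_one, inv_inv] at this
      rw [zpow_neg, zpow_one]
      exact this
  -- `g2 = t y`
  have hy : tau n ((tT n)⁻¹ * g2) = 1 := by rw [map_mul, map_inv, tau_t, ht2, inv_mul_cancel]
  obtain ⟨i', j', hy'⟩ := ker_nf _ hy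
  set b : BS 1 n := (tT n ^ i')⁻¹ * aA n * tT n ^ i' with hb
  have hyb : (tT n)⁻¹ * g2 = b ^ j' := by
    rw [hy', hb]
    have : (tT n ^ i')⁻¹ * aA n * tT n ^ i' = (tT n ^ i')⁻¹ * aA n * ((tT n ^ i')⁻¹)⁻¹ := by
      rw [inv_inv]
    rw [this, conj_zpow, inv_inv]
  have hg2 : g2 = tT n * b ^ j' := by rw [← hyb]; group
  have he5 : NielsenEquiv ![g2, aA n] ![g2, b] := by
    have := mv_conj g2 (aA n) (-(i' : ℤ))
    rw [conj_ker g2 (aA n) ht2 tau_a, zpow_neg, zpow_natCast, inv_inv] at this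
    exact this
  have he6 : NielsenEquiv ![g2, b] ![tT n, b] := by
    have := mv_mul0 g2 b (b ^ j')⁻¹ (inv_mem ⟨j', rfl⟩)
    have e2 : g2 * (b ^ j')⁻¹ = tT n := by rw [hg2]; group
    rw [e2] at this
    exact this
  have he7 : NielsenEquiv ![tT n, b] ![tT n, aA n] := by
    have := mv_conj (tT n) b (i' : ℤ)
    have e3 : tT n ^ (i' : ℤ) * b * (tT n ^ (i' : ℤ))⁻¹ = aA n := by
      rw [zpow_natCast, hb]; group
    rw [e3] at this
    exact this
  exact (((((he1.trans he2).trans he3).trans he4).trans he5).trans he6).trans he7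

theorem bs_one_pos (hn : n.natAbs.Prime ∨ n.natAbs = 1) : PropertyN (BS 1 n) := by
  have hn0 : n ≠ 0 := by
    rintro rfl
    rcases hn with h | h
    · exact absurd h (by decide)
    · simp at h
  have hmin := ta_isMinGen 1 n one_ne_zero hn0
  intro k g h hg hh
  have hk : k = 2 := le_antisymm (hg.2 2 _ hmin.1) (hmin.2 k g hg.1)
  subst hk
  have e : ∀ f : Fin 2 → BS 1 n, f = ![f 0, f 1] := by
    intro f; funext i; fin_cases i <;> rfl
  have h1 : NielsenEquiv g ![tT n, aA n] := by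
    rw [e g]
    exact one_pair hn _ _ (by rw [← e g]; exact hg.1)
  have h2 : NielsenEquiv h ![tT n, aA n] := by
    rw [e h]
    exact one_pair hn _ _ (by rw [← e h]; exact hh.1)
  exact h1.trans h2.symm

end one

end Pool.Agent.NE
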