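import Pool.Agent.helper43.NE.Cls

/-!
# MP_5c1f29_al: generation, equivalence and failure of (N)
-/

set_option autoImplicit false

open Finset

namespace Pool.Agent.NE

variable {n : ℕ}

/-- The relator `v(x_1, …, x_n, c^s) c⁻¹`, a word in `n + 1` letters; `c` is the last letter. -/
def powWord (v : FreeGroup (Fin (n + 1))) (s : ℤ) : FreeGroup (Fin (n + 1)) :=
  FreeGroup.lift (Fin.snoc (α := fun _ => FreeGroup (Fin (n + 1)))
    (fun i => FreeGroup.of (Fin.castSucc i)) (FreeGroup.of (Fin.last n) ^ s)) v *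
      (FreeGroup.of (Fin.last n))⁻¹

/-- The relator `u(x_1, …, x_n) c⁻¹`, a word in `n + 1` letters; `c` is the last letter. -/
def rootWord (u : FreeGroup (Fin n)) : FreeGroup (Fin (n + 1)) :=
  FreeGroup.map Fin.castSucc u * (FreeGroup.of (Fin.last n))⁻¹

theorem map_eq_lift' {α β : Type} (f : α → β) (u : FreeGroup α) :
    FreeGroup.map f u = FreeGroup.lift (fun a => FreeGroup.of (f a)) u := by
  have h : FreeGroup.map f = FreeGroup.lift (fun a => FreeGroup.of (f a)) := by
    ext a; simp
  rw [h]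

theorem lift_mem {α H : Type} [Group H] (f : α → H) (K : Subgroup H) (hf : ∀ a, f a ∈ K)
    (v : FreeGroup α) : FreeGroup.lift f v ∈ K := by
  have h : (FreeGroup.lift f).range ≤ K := by
    rw [FreeGroup.range_lift_eq_closure, Subgroup.closure_le]
    rintro _ ⟨a, rfl⟩
    exact hf a
  exact h ⟨v, rfl⟩

theorem mem_of_coprime {H : Type} [Group H] (K : Subgroup H) (b : H) (s : ℤ) (q : ℕ)
    (hs : IsCoprime s (q : ℤ)) (h1 : b ^ s ∈ K) (h2 : b ^ q ∈ K) : b ∈ K := by
  obtain ⟨x, y, hxy⟩ := hs
  have h3 : b = (b ^ s) ^ x * (b ^ q) ^ y := by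
    rw [← zpow_natCast, ← zpow_mul, ← zpow_mul, ← zpow_add]
    have : s * x + (q : ℤ) * y = 1 := by linarith
    rw [this, zpow_one]
  rw [h3]
  exact K.mul_mem (K.zpow_mem h1 x) (K.zpow_mem h2 y)

theorem gen_of (w : FreeGroup (Fin (n + 1))) (q : ℕ) (s : ℤ) (hs : IsCoprime s (q : ℤ))
    (h2 : (PresentedGroup.of (Fin.last n) : RootGroup w q) ^ q ∈
      Subgroup.closure (Set.range (tup w q s))) : Generates (tup w q s) := by
  have hx : ∀ i : Fin n, (PresentedGroup.of (Fin.castSucc i) : RootGroup w q) ∈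
      Subgroup.closure (Set.range (tup w q s)) := fun i =>
    Subgroup.subset_closure ⟨Fin.castSucc i, tup_castSucc w q s i⟩
  have hb : (PresentedGroup.of (Fin.last n) : RootGroup w q) ^ s ∈
      Subgroup.closure (Set.range (tup w q s)) :=
    Subgroup.subset_closure ⟨Fin.last n, tup_last w q s⟩
  unfold Generates
  rw [← top_le_iff, ← PresentedGroup.closure_range_of, Subgroup.closure_le]
  rintro _ ⟨i, rfl⟩
  refine Fin.lastCases ?_ (fun i => ?_) i
  · exact mem_of_coprime _ _ s q hs hb h2
  · exact hx i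

/-- Generation. -/
theorem gen_powWord (v : FreeGroup (Fin (n + 1))) (q : ℕ) (s : ℤ) (hs : IsCoprime s (q : ℤ)) :
    Generates (tup (powWord v s) q s) := by
  apply gen_of (powWord v s) q s hs
  have h := rel_eq (powWord v s) q
  conv at h => lhs; arg 2; rw [powWord]
  rw [map_mul, lift_comp_lift, map_inv, FreeGroup.lift_apply_of, Fin.snoc_last,
    mul_inv_eq_one] at h
  rw [← h]
  apply lift_mem
  intro i
  refine Fin.lastCases ?_ (fun i => ?_) i
  · rw [Fin.snoc_last, map_zpow, FreeGroup.lift_apply_of, Fin.snoc_last, ← zpow_natCast,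
      ← zpow_mul, mul_comm, zpow_mul, zpow_natCast]
    have hb : (PresentedGroup.of (Fin.last n) : RootGroup (powWord v s) q) ^ s ∈
        Subgroup.closure (Set.range (tup (powWord v s) q s)) :=
      Subgroup.subset_closure ⟨Fin.last n, tup_last _ q s⟩
    exact Subgroup.pow_mem _ hb q
  · rw [Fin.snoc_castSucc, FreeGroup.lift_apply_of, Fin.snoc_castSucc]
    exact Subgroup.subset_closure ⟨Fin.castSucc i, tup_castSucc _ q s i⟩

theorem rootWord_eq (u : FreeGroup (Fin n)) (s : ℤ) :
    rootWord u = powWord (FreeGroup.map Fin.castSucc u) s := by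
  unfold rootWord powWord
  congr 1
  rw [map_eq_lift', lift_comp_lift]
  congr 1
  apply congrArg
  funext i
  simp

theorem killLast_rootWord (u : FreeGroup (Fin n)) : killLast (rootWord u) = u := by
  unfold killLast rootWord
  rw [map_mul, map_inv, FreeGroup.lift_apply_of, Fin.snoc_last, inv_one, mul_one,
    map_eq_lift', lift_comp_lift]
  have : (fun a : Fin n => FreeGroup.lift (Fin.snoc (α := fun _ => FreeGroup (Fin n))
      FreeGroup.of 1) (FreeGroup.of (Fin.castSucc a))) = FreeGroup.of := by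
    funext i; simp
  rw [this]
  have h2 : FreeGroup.lift (FreeGroup.of : Fin n → FreeGroup (Fin n)) = MonoidHom.id _ := by
    ext i; simp
  rw [h2]
  rfl

/-- The relation `b^q = u(x_1, …, x_n)`. -/
theorem root_rel (u : FreeGroup (Fin n)) (q : ℕ) :
    (PresentedGroup.of (Fin.last n) : RootGroup (rootWord u) q) ^ q =
      FreeGroup.lift (fun i => PresentedGroup.of (Fin.castSucc i)) u := by
  have h := rel_eq (rootWord u) q
  conv at h => lhs; arg 2; rw [rootWord]
  rw [map_mul, map_inv, FreeGroup.lift_apply_of, Fin.snoc_last, mul_inv_eq_one,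
    map_eq_lift', lift_comp_lift] at h
  rw [← h]
  congr 1
  apply congrArg
  funext i
  simp

theorem tup_update (w : FreeGroup (Fin (n + 1))) (q : ℕ) (s : ℤ) (a : RootGroup w q) :
    Function.update (tup w q s) (Fin.last n) a =
      Fin.snoc (α := fun _ => RootGroup w q) (fun i => PresentedGroup.of (Fin.castSucc i)) a := by
  funext i
  refine Fin.lastCases ?_ (fun i => ?_) i
  · simp
  · rw [Function.update_of_ne (Fin.castSucc_lt_last i).ne, tup_castSucc]
    simp

/-- Equivalence, first part. -/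
theorem equiv_add (u : FreeGroup (Fin n)) (q : ℕ) (s k : ℤ) :
    NielsenEquiv (tup (rootWord u) q s) (tup (rootWord u) q (s + q * k)) := by
  set w := rootWord u with hw
  have h1 := equiv_update_mul (tup w q s) (Fin.last n)
    ((FreeGroup.lift (fun i => PresentedGroup.of (Fin.castSucc i)) u : RootGroup w q) ^ k) ?_
    ((PresentedGroup.of (Fin.last n) : RootGroup w q) ^ s)
  · rw [tup_update, tup_update, ← root_rel u q, ← zpow_natCast, ← zpow_mul, ← zpow_add] at h1
    exact h1
  · apply Subgroup.zpow_mem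
    apply lift_mem
    intro i
    refine Subgroup.subset_closure ⟨Fin.castSucc i, (Fin.castSucc_lt_last i).ne, ?_⟩
    exact tup_castSucc w q s i

/-- Equivalence, second part. -/
theorem equiv_neg (w : FreeGroup (Fin (n + 1))) (q : ℕ) (s : ℤ) :
    NielsenEquiv (tup w q s) (tup w q (-s)) := by
  have h1 := Step.inv (tup w q s) (Fin.last n)
  rw [tup_update, tup_last, ← zpow_neg] at h1
  exact NielsenEquiv.of_step h1

theorem equiv_of_modEq (u : FreeGroup (Fin n)) (q : ℕ) (s s' : ℤ)
    (h : s' ≡ s [ZMOD q] ∨ s' ≡ -s [ZMOD q]) :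
    NielsenEquiv (tup (rootWord u) q s) (tup (rootWord u) q s') := by
  rcases h with h | h
  · obtain ⟨k, hk⟩ := h.symm.dvd
    have : s' = s + q * k := by linarith
    rw [this]
    exact equiv_add u q s k
  · obtain ⟨k, hk⟩ := h.symm.dvd
    have : s' = -s + q * k := by linarith
    rw [this]
    exact (equiv_neg _ q s).trans (equiv_add u q (-s) k)

theorem exists_unit (q : ℕ) (hq : q = 5 ∨ 7 ≤ q) :
    ∃ s : ℤ, IsCoprime s (q : ℤ) ∧ ¬ (s ≡ 1 [ZMOD q] ∨ s ≡ -1 [ZMOD q]) := by
  have key : ∀ s : ℕ, 2 ≤ s → s + 1 < q → Nat.Coprime s q →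
      ∃ s : ℤ, IsCoprime s (q : ℤ) ∧ ¬ (s ≡ 1 [ZMOD q] ∨ s ≡ -1 [ZMOD q]) := by
    intro s h1 h2 h3
    refine ⟨s, Nat.isCoprime_iff_coprime.2 h3, ?_⟩
    rintro (h | h)
    · obtain ⟨k, hk⟩ := h.symm.dvd
      have hk0 : 0 < (q : ℤ) * k := by rw [← hk]; omega
      have hk1 : 0 < k := by
        by_contra hc
        push Not at hc
        nlinarith
      nlinarith
    · obtain ⟨k, hk⟩ := h.symm.dvd
      have hk0 : 0 < (q : ℤ) * k := by rw [← hk]; omega
      have hk1 : 0 < k := by
        by_contra hc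
        push Not at hc
        nlinarith
      nlinarith
  rcases Nat.even_or_odd q with he | ho
  · obtain ⟨r, hr⟩ := he
    have hq2 : q = 2 * r := by omega
    have hr4 : 4 ≤ r := by omega
    rcases Nat.even_or_odd r with hre | hro
    · refine key (r + 1) (by omega) (by omega) ?_
      rw [hq2]
      refine Nat.Coprime.mul_right ?_ ?_
      · rw [Nat.coprime_comm, Nat.coprime_two_left]
        exact hre.add_one
      · simp
    · refine key (r + 2) (by omega) ?_ ?_
      · have : r ≠ 4 := by rintro rfl; exact absurd hro (by decide)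
        omega
      · rw [hq2]
        refine Nat.Coprime.mul_right ?_ ?_
        · rw [Nat.coprime_comm, Nat.coprime_two_left]
          rcases hro with ⟨t, ht⟩
          exact ⟨t + 1, by omega⟩
        · rw [Nat.coprime_comm]
          have : Nat.Coprime r (r + 2) ↔ Nat.Coprime r 2 := by simp
          rw [this, Nat.coprime_comm, Nat.coprime_two_left]
          exact hro
  · refine key 2 le_rfl (by omega) ?_
    rw [Nat.coprime_two_left]
    exact ho

end Pool.Agent.NE
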