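import Pool.Agent.helper43.NE.GrModel
import Pool.Agent.helper43.NE.RootMain

/-!
# MP_5c1f29_al: property (N) for `BS(0, M) = ℤ * ℤ/M`
-/

set_option autoImplicit false

namespace Pool.Agent.NE

/-! ### rank -/

theorem q_rank (M : ℕ) (hM : M ≠ 1) (k : ℕ) (g : Fin k → BS 0 M) (hg : Generates g) : 2 ≤ k := by
  have hp : Fact (Nat.minFac M).Prime := ⟨Nat.minFac_prime hM⟩
  set p := Nat.minFac M with hpdef
  have hpM : p ∣ M := Nat.minFac_dvd M
  let f : Multiplicative ℤ →* Aff (ZMod p) (Fin 2 → ZMod p) :=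
    { toFun := fun j => ⟨1, ((Multiplicative.toAdd j : ℤ) : ZMod p) • Pi.single 1 1⟩
      map_one' := Aff.ext rfl (by simp)
      map_mul' := by
        intro x y
        refine Aff.ext (by simp) ?_
        simp [add_smul] }
  have h1 : (⟨1, Pi.single 1 1⟩ : Aff (ZMod p) (Fin 2 → ZMod p)) = f (Multiplicative.ofAdd 1) :=
    Aff.ext rfl (by simp [f])
  let σ : BS 0 M →* Aff (ZMod p) (Fin 2 → ZMod p) :=
    bsLift ⟨1, Pi.single 0 1⟩ ⟨1, Pi.single 1 1⟩ (by
      rw [zpow_zero, mul_one, mul_inv_cancel, h1, ← map_zpow, ← ofAdd_zsmul]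
      refine Aff.ext rfl ?_
      have : ((M : ℕ) : ZMod p) = 0 := (ZMod.natCast_eq_zero_iff M p).2 hpM
      simp [f, this])
  refine rank_le σ (ta 0 M) ?_ g hg
  intro i
  fin_cases i
  · show (σ (PresentedGroup.of 0)).v = _
    rw [show σ (PresentedGroup.of 0) = _ from bsLift_t _ _ _]
    rfl
  · show (σ (PresentedGroup.of 1)).v = _
    rw [show σ (PresentedGroup.of 1) = _ from bsLift_a _ _ _]
    rfl

/-! ### positive cases -/

theorem eta2 {G : Type} (f : Fin 2 → G) : f = ![f 0, f 1] := by
  funext i; fin_cases i <;> rfl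

theorem q_pos (M : ℕ) (hM : M ≠ 1)
    (hu : ∀ k l : ZMod M, k * l = 1 → k = 1 ∨ k = -1) : PropertyN (BS 0 M) := by
  have key : ∀ g : Fin 2 → BS 0 M, Generates g → NielsenEquiv g ![qt M, qa M] := by
    intro g hg
    obtain ⟨k, l, hkl, he⟩ := q_pair hM (g 0) (g 1) (by rw [← eta2]; exact hg)
    rw [← eta2] at he
    rcases hu k l (by rw [← Int.cast_mul]; exact hkl) with h | h
    · have h1 : qa M ^ k = qa M := by
        have := qa_zpow_eq (M := M) (i := k) (j := 1) (by rw [h, Int.cast_one])
        rwa [zpow_one] at this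
      rwa [h1] at he
    · have h1 : qa M ^ k = (qa M)⁻¹ := by
        have := qa_zpow_eq (M := M) (i := k) (j := -1) (by rw [h, Int.cast_neg, Int.cast_one])
        rwa [zpow_neg, zpow_one] at this
      rw [h1] at he
      have h2 := mv_inv1 (qt M) (qa M)⁻¹
      rw [inv_inv] at h2
      exact he.trans h2
  have hgen : Generates (ta 0 (M : ℤ)) := ta_generates
  intro n g h hg hh
  have hn : n = 2 := le_antisymm (hg.2 2 _ hgen) (q_rank M hM n g hg.1)
  subst hn
  exact (key g hg.1).trans (key h hh.1).symm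

theorem q_one : PropertyN (BS 0 1) := by
  have ha : (PresentedGroup.of 1 : BS 0 1) = 1 := by
    have h := bs_rel (m := 0) (n := 1)
    rw [zpow_zero, mul_one, mul_inv_cancel, zpow_one] at h
    exact h.symm
  let τ : BS 0 1 →* Multiplicative ℤ := bsLift (Multiplicative.ofAdd 1) 1 (by simp)
  have ht : τ (PresentedGroup.of 0) = Multiplicative.ofAdd 1 := bsLift_t _ _ _
  have hcyc : ∀ x : BS 0 1, x = PresentedGroup.of 0 ^ Multiplicative.toAdd (τ x) := by
    intro x
    have hx : x ∈ Subgroup.closure (Set.range (PresentedGroup.of : Fin 2 → BS 0 1)) := by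
      rw [PresentedGroup.closure_range_of]; trivial
    induction hx using Subgroup.closure_induction with
    | mem x hx =>
      obtain ⟨l, rfl⟩ := hx
      fin_cases l
      · show (PresentedGroup.of 0 : BS 0 1) = PresentedGroup.of 0 ^ Multiplicative.toAdd (τ (PresentedGroup.of 0))
        rw [ht, toAdd_ofAdd, zpow_one]
      · show (PresentedGroup.of 1 : BS 0 1) = PresentedGroup.of 0 ^ Multiplicative.toAdd (τ (PresentedGroup.of 1))
        rw [ha, map_one, toAdd_one, zpow_zero]
    | one => rw [map_one, toAdd_one, zpow_zero]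
    | mul x y _ _ ihx ihy => rw [map_mul, toAdd_mul, zpow_add, ← ihx, ← ihy]
    | inv x _ ih => rw [map_inv, toAdd_inv, zpow_neg, ← ih]
  have hgen1 : Generates (fun _ : Fin 1 => (PresentedGroup.of 0 : BS 0 1)) := by
    unfold Generates
    rw [← top_le_iff]
    intro x _
    rw [hcyc x]
    have h0 : (PresentedGroup.of 0 : BS 0 1) ∈
        Subgroup.closure (Set.range fun _ : Fin 1 => (PresentedGroup.of 0 : BS 0 1)) :=
      Subgroup.subset_closure ⟨0, rfl⟩
    exact Subgroup.zpow_mem _ h0 _
  have hpm : ∀ g : Fin 1 → BS 0 1, Generates g →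
      g 0 = PresentedGroup.of 0 ∨ g 0 = (PresentedGroup.of 0)⁻¹ := by
    intro g hg
    have hmem : (PresentedGroup.of 0 : BS 0 1) ∈ Subgroup.closure (Set.range g) := by
      rw [show Subgroup.closure (Set.range g) = ⊤ from hg]; trivial
    have hr : Set.range g = {g 0} := by
      ext x; constructor
      · rintro ⟨i, rfl⟩; fin_cases i; rfl
      · rintro rfl; exact ⟨0, rfl⟩
    rw [hr, Subgroup.mem_closure_singleton] at hmem
    obtain ⟨k, hk⟩ := hmem
    have h1 := congrArg (fun x => Multiplicative.toAdd (τ x)) hk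
    simp only [map_zpow, toAdd_zpow, ht, toAdd_ofAdd, smul_eq_mul] at h1
    rcases Int.isUnit_iff.1 (IsUnit.of_mul_eq_one k (by rw [mul_comm]; exact h1)) with h4 | h4
    · left; rw [hcyc (g 0), h4, zpow_one]
    · right; rw [hcyc (g 0), h4, zpow_neg, zpow_one]
  intro n g h hg hh
  have hn1 : n ≤ 1 := hg.2 1 _ hgen1
  have hn0 : n ≠ 0 := by
    rintro rfl
    have h1 : (PresentedGroup.of 0 : BS 0 1) ∈ Subgroup.closure (Set.range g) := by
      rw [show Subgroup.closure (Set.range g) = ⊤ from hg.1]; trivial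
    rw [Set.range_eq_empty, Subgroup.closure_empty, Subgroup.mem_bot] at h1
    rw [h1, map_one] at ht
    have := congrArg Multiplicative.toAdd ht
    simp at this
  have hn : n = 1 := by omega
  subst hn
  have e : ∀ f : Fin 1 → BS 0 1, NielsenEquiv f (fun _ => (f 0)⁻¹) := by
    intro f
    have h1 := Step.inv f 0
    have h2 : Function.update f 0 (f 0)⁻¹ = fun _ => (f 0)⁻¹ := by
      funext i; fin_cases i; rfl
    rw [h2] at h1
    exact NielsenEquiv.of_step h1
  have e0 : ∀ f : Fin 1 → BS 0 1, Generates f →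
      NielsenEquiv f (fun _ => PresentedGroup.of 0) := by
    intro f hf
    rcases hpm f hf with h1 | h1
    · have : f = fun _ => PresentedGroup.of 0 := by funext i; fin_cases i; exact h1
      rw [← this]; exact NielsenEquiv.refl _
    · have := e f
      rw [h1, inv_inv] at this
      exact this
  exact (e0 g hg.1).trans (e0 h hh.1).symm

/-! ### negative cases -/

theorem rel_eq_root (M : ℕ) :
    bsRel 0 M = rootRel (rootWord (1 : FreeGroup (Fin 1))) M := by
  unfold rootRel rootWord bsRel
  rw [map_one, one_mul, map_inv, FreeGroup.lift_apply_of, Fin.snoc_last, zpow_zero, mul_one,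
    mul_inv_cancel, one_mul, zpow_natCast]
  rfl

theorem q_neg (M : ℕ) (hM : M = 5 ∨ 7 ≤ M) : ¬ PropertyN (BS 0 M) := by
  have hw : FoxZero (killLast (rootWord (1 : FreeGroup (Fin 1)))) := by
    rw [killLast_rootWord]
    refine foxZero_of_dvd 1 0 (by norm_num) ?_
    intro i
    simp [expSum]
  have h2 : ¬ PropertyN (RootGroup (rootWord (1 : FreeGroup (Fin 1))) M) := by
    intro hN
    obtain ⟨s, hs, hs2⟩ := exists_unit M hM
    have hq : 2 ≤ M := by omega
    have hg : ∀ s : ℤ, IsCoprime s (M : ℤ) →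
        Generates (tup (rootWord (1 : FreeGroup (Fin 1))) M s) := by
      intro s hs
      rw [rootWord_eq 1 s]
      exact gen_powWord _ M s hs
    have h := hN 2 (tup _ M 1) (tup _ M s) ⟨hg 1 isCoprime_one_left, root_rank _ M hq hw⟩
      ⟨hg s hs, root_rank _ M hq hw⟩
    exact hs2 (cls_ne _ M hw 1 s h)
  have h3 : PropertyN (BS 0 M) = PropertyN (RootGroup (rootWord (1 : FreeGroup (Fin 1))) M) :=
    congrArg (fun r : FreeGroup (Fin 2) =>
      PropertyN (PresentedGroup ({r} : Set (FreeGroup (Fin 2))))) (rel_eq_root M)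
  rw [h3]
  exact h2

theorem q_iff (M : ℕ) : PropertyN (BS 0 M) ↔ M ∈ ({0, 1, 2, 3, 4, 6} : Set ℕ) := by
  constructor
  · intro h
    by_contra hc
    simp only [Set.mem_insert_iff, Set.mem_singleton_iff] at hc
    exact q_neg M (by omega) h
  · intro h
    simp only [Set.mem_insert_iff, Set.mem_singleton_iff] at h
    rcases h with rfl | rfl | rfl | rfl | rfl | rfl
    · refine q_pos 0 (by norm_num) ?_
      intro k l hkl
      exact Int.isUnit_iff.1 (IsUnit.of_mul_eq_one l hkl)
    · exact q_one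
    · exact q_pos 2 (by norm_num) (by decide)
    · exact q_pos 3 (by norm_num) (by decide)
    · exact q_pos 4 (by norm_num) (by decide)
    · exact q_pos 6 (by norm_num) (by decide)

end Pool.Agent.NE
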