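import Mathlib

/-!
# MP_5c1f29_al: divisibility by `k α - 1` in the ring of Laurent polynomials
-/

set_option autoImplicit false

open LaurentPolynomial

namespace Pool.Agent.NE

theorem T_coeff (j i : ℤ) : (T j : ℤ[T;T⁻¹]).coeff i = if j = i then 1 else 0 := by
  show (AddMonoidAlgebra.single j (1 : ℤ)).coeff i = _
  rw [AddMonoidAlgebra.coeff_single, Finsupp.single_apply]

theorem one_coeff' (i : ℤ) : (1 : ℤ[T;T⁻¹]).coeff i = if 0 = i then 1 else 0 := by
  have h : (1 : ℤ[T;T⁻¹]) = T 0 := T_zero.symm
  rw [h, T_coeff]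

theorem smul_coeff' (k : ℤ) (f : ℤ[T;T⁻¹]) (i : ℤ) : (k • f).coeff i = k * f.coeff i := by
  rw [AddMonoidAlgebra.coeff_smul]; rfl

theorem sub_coeff' (f g : ℤ[T;T⁻¹]) (i : ℤ) : (f - g).coeff i = f.coeff i - g.coeff i := by
  rw [AddMonoidAlgebra.coeff_sub]; rfl

theorem add_coeff' (f g : ℤ[T;T⁻¹]) (i : ℤ) : (f + g).coeff i = f.coeff i + g.coeff i := by
  rw [AddMonoidAlgebra.coeff_add]; rfl

theorem neg_coeff' (f : ℤ[T;T⁻¹]) (i : ℤ) : (-f).coeff i = -f.coeff i := by
  rw [AddMonoidAlgebra.coeff_neg]; rfl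

theorem zero_coeff' (i : ℤ) : (0 : ℤ[T;T⁻¹]).coeff i = 0 := rfl

/-- the top coefficients -/
theorem ext_top (f g : ℤ[T;T⁻¹]) (hf : ∃ i, f.coeff i ≠ 0) (hg : ∃ i, g.coeff i ≠ 0) :
    ∃ a b, f.coeff a ≠ 0 ∧ g.coeff b ≠ 0 ∧ (∀ j, f.coeff j ≠ 0 → j ≤ a) ∧
      (∀ j, g.coeff j ≠ 0 → j ≤ b) ∧ (f * g).coeff (a + b) = f.coeff a * g.coeff b := by
  obtain ⟨i, hi⟩ := hf
  obtain ⟨j, hj⟩ := hg
  have h1 : f.coeff.support.Nonempty := ⟨i, Finsupp.mem_support_iff.2 hi⟩
  have h2 : g.coeff.support.Nonempty := ⟨j, Finsupp.mem_support_iff.2 hj⟩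
  have ha := Finset.max'_mem _ h1
  have hb := Finset.max'_mem _ h2
  have ha' : ∀ x ∈ f.coeff.support, x ≤ f.coeff.support.max' h1 := fun x hx => Finset.le_max' _ x hx
  have hb' : ∀ x ∈ g.coeff.support, x ≤ g.coeff.support.max' h2 := fun x hx => Finset.le_max' _ x hx
  refine ⟨_, _, Finsupp.mem_support_iff.1 ha, Finsupp.mem_support_iff.1 hb,
    fun x hx => ha' x (Finsupp.mem_support_iff.2 hx),
    fun x hx => hb' x (Finsupp.mem_support_iff.2 hx), ?_⟩
  apply AddMonoidAlgebra.coeff_mul_add_of_uniqueAdd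
  intro x y hx hy hxy
  have := ha' x hx
  have := hb' y hy
  omega

/-- the bottom coefficients -/
theorem ext_bot (f g : ℤ[T;T⁻¹]) (hf : ∃ i, f.coeff i ≠ 0) (hg : ∃ i, g.coeff i ≠ 0) :
    ∃ a b, f.coeff a ≠ 0 ∧ g.coeff b ≠ 0 ∧ (∀ j, f.coeff j ≠ 0 → a ≤ j) ∧
      (∀ j, g.coeff j ≠ 0 → b ≤ j) ∧ (f * g).coeff (a + b) = f.coeff a * g.coeff b := by
  obtain ⟨i, hi⟩ := hf
  obtain ⟨j, hj⟩ := hg
  have h1 : f.coeff.support.Nonempty := ⟨i, Finsupp.mem_support_iff.2 hi⟩
  have h2 : g.coeff.support.Nonempty := ⟨j, Finsupp.mem_support_iff.2 hj⟩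
  have ha := Finset.min'_mem _ h1
  have hb := Finset.min'_mem _ h2
  have ha' : ∀ x ∈ f.coeff.support, f.coeff.support.min' h1 ≤ x := fun x hx => Finset.min'_le _ x hx
  have hb' : ∀ x ∈ g.coeff.support, g.coeff.support.min' h2 ≤ x := fun x hx => Finset.min'_le _ x hx
  refine ⟨_, _, Finsupp.mem_support_iff.1 ha, Finsupp.mem_support_iff.1 hb,
    fun x hx => ha' x (Finsupp.mem_support_iff.2 hx),
    fun x hx => hb' x (Finsupp.mem_support_iff.2 hx), ?_⟩
  apply AddMonoidAlgebra.coeff_mul_add_of_uniqueAdd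
  intro x y hx hy hxy
  have := ha' x hx
  have := hb' y hy
  omega

theorem single_mul_coeff (c q : ℤ) (f : ℤ[T;T⁻¹]) (g : ℤ[T;T⁻¹])
    (hg : ∀ j, g.coeff j = if c = j then q else 0) (j : ℤ) :
    (f * g).coeff (j + c) = f.coeff j * q := by
  have h1 : g = AddMonoidAlgebra.single c q := by
    ext j
    rw [hg, AddMonoidAlgebra.coeff_single, Finsupp.single_apply]
  rw [h1]
  exact AddMonoidAlgebra.coeff_mul_single_add _ _ _ _

/-- the case `c > 0` -/
theorem key_pos (k : ℤ) (hk : 2 ≤ |k|) (α Q : ℤ[T;T⁻¹]) (c e : ℤ) (he : e = 1 ∨ e = -1)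
    (hc : 0 < c) (h : (k • α - 1) * Q = T c - (e * k) • 1) :
    α = 0 ∨ (∃ j, α = T j ∨ α = -T j) ∨
      (∃ j, k • α = 2 • 1 + (2 : ℤ) • T j ∨ k • α = 2 • 1 - (2 : ℤ) • T j) := by
  have hk0 : k ≠ 0 := by rintro rfl; simp at hk
  have hek : e * k ≠ 0 := by rcases he with rfl | rfl <;> simpa using hk0
  have hk1 : ∀ x : ℤ, k * x ≠ 1 ∧ k * x ≠ -1 := by
    intro x
    have hu : ∀ y : ℤ, k * x = y → |y| = 1 → False := by
      intro y hy hy1
      have h1 : |k| * |x| = 1 := by rw [← abs_mul, hy, hy1]
      have h2 : 0 ≤ |x| := abs_nonneg x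
      rcases h2.lt_or_eq with h3 | h3
      · nlinarith
      · rw [← h3, mul_zero] at h1; exact absurd h1 (by norm_num)
    exact ⟨fun hx => hu 1 hx (by norm_num), fun hx => hu (-1) hx (by norm_num)⟩
  set P := k • α - 1 with hP
  have hPc : ∀ j, P.coeff j = k * α.coeff j - if 0 = j then 1 else 0 := by
    intro j; rw [hP, sub_coeff', smul_coeff', one_coeff']
  have hR : ∀ j, (P * Q).coeff j = (if c = j then 1 else 0) - e * k * if 0 = j then 1 else 0 := by
    intro j; rw [h, sub_coeff', T_coeff, smul_coeff', one_coeff']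
  have hP0 : P.coeff 0 ≠ 0 := by
    rw [hPc, if_pos rfl]
    have := (hk1 (α.coeff 0)).1
    omega
  have hQ0 : ∃ i, Q.coeff i ≠ 0 := by
    by_contra hcon
    push Not at hcon
    have hQ : Q = 0 := by ext i; rw [hcon i]; rfl
    have h1 := hR c
    rw [hQ, mul_zero, zero_coeff', if_pos rfl, if_neg hc.ne] at h1
    omega
  obtain ⟨a, b, ha, hb, hamax, hbmax, hab⟩ := ext_top P Q ⟨0, hP0⟩ hQ0
  obtain ⟨a', b', ha', hb', hamin, hbmin, hab'⟩ := ext_bot P Q ⟨0, hP0⟩ hQ0
  have h1 : a + b = c ∨ a + b = 0 := by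
    by_contra hcon
    push Not at hcon
    have := hR (a + b)
    rw [hab, if_neg (Ne.symm hcon.1), if_neg (Ne.symm hcon.2), mul_zero, sub_zero] at this
    rcases mul_eq_zero.1 this with h2 | h2
    · exact ha h2
    · exact hb h2
  have h1' : a' + b' = c ∨ a' + b' = 0 := by
    by_contra hcon
    push Not at hcon
    have := hR (a' + b')
    rw [hab', if_neg (Ne.symm hcon.1), if_neg (Ne.symm hcon.2), mul_zero, sub_zero] at this
    rcases mul_eq_zero.1 this with h2 | h2
    · exact ha' h2
    · exact hb' h2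
  have haa : a' ≤ a := hamin a ha
  have hbb : b' ≤ b := hbmin b hb
  have hne : a' + b' ≠ a + b := by
    intro heq
    have h2 : a' = a := by omega
    have h3 : b' = b := by omega
    have hQs : ∀ j, Q.coeff j = if b = j then Q.coeff b else 0 := by
      intro j
      by_cases hj : b = j
      · rw [if_pos hj, hj]
      · rw [if_neg hj]
        by_contra hcon
        have := hbmax j hcon
        have := hbmin j hcon
        omega
    have hPs : ∀ j, j ≠ a → P.coeff j = 0 := by
      intro j hj
      by_contra hcon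
      have := hamax j hcon
      have := hamin j hcon
      omega
    have h4 : ∀ j, j ≠ a → (P * Q).coeff (j + b) = 0 := by
      intro j hj
      rw [single_mul_coeff b _ P Q hQs, hPs j hj, zero_mul]
    rcases h1 with h5 | h5
    · have h6 := h4 (-b) (by omega)
      rw [neg_add_cancel, hR, if_neg hc.ne', if_pos rfl, mul_one, zero_sub, neg_eq_zero] at h6
      exact hek h6
    · have h6 := h4 (c - b) (by omega)
      rw [sub_add_cancel, hR, if_pos rfl, if_neg hc.ne, mul_zero, sub_zero] at h6
      exact one_ne_zero h6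
  have h2 : a + b = c := by omega
  have h3 : a' + b' = 0 := by omega
  have h4 : P.coeff a * Q.coeff b = 1 := by
    rw [← hab, h2, hR, if_pos rfl, if_neg hc.ne, mul_zero, sub_zero]
  have h5 : P.coeff a' * Q.coeff b' = -(e * k) := by
    rw [← hab', h3, hR, if_neg hc.ne', if_pos rfl, mul_one, zero_sub]
  have h6 : P.coeff a = 1 ∨ P.coeff a = -1 := Int.isUnit_iff.1 (IsUnit.of_mul_eq_one _ h4)
  have ha0 : a = 0 := by
    by_contra hcon
    rw [hPc, if_neg (Ne.symm hcon), sub_zero] at h6
    have := hk1 (α.coeff a)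
    rcases h6 with h7 | h7
    · exact this.1 h7
    · exact this.2 h7
  have hbc : b = c := by omega
  rcases eq_or_ne a' 0 with h7 | h7
  · -- `P` is constant
    have hα : ∀ j, j ≠ 0 → α.coeff j = 0 := by
      intro j hj
      have h8 : P.coeff j = 0 := by
        by_contra hcon
        have := hamax j hcon
        have := hamin j hcon
        omega
      rw [hPc, if_neg (Ne.symm hj), sub_zero] at h8
      exact (mul_eq_zero.1 h8).resolve_left hk0
    rw [ha0, hPc, if_pos rfl] at h6
    rcases h6 with h8 | h8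
    · -- `k α₀ = 2`
      have h9 : k * α.coeff 0 = 2 := by omega
      have h10 : α.coeff 0 = 1 ∨ α.coeff 0 = -1 := by
        have h11 : |k| * |α.coeff 0| = 2 := by rw [← abs_mul, h9]; norm_num
        have h12 : |α.coeff 0| = 1 := by
          have h13 : 0 ≤ |α.coeff 0| := abs_nonneg _
          rcases h13.lt_or_eq with h14 | h14
          · nlinarith
          · rw [← h14, mul_zero] at h11; exact absurd h11 (by norm_num)
        rcases abs_choice (α.coeff 0) with h13 | h13 <;> omega
      right; left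
      refine ⟨0, ?_⟩
      rcases h10 with h11 | h11
      · left
        ext j
        rw [T_coeff]
        by_cases hj : 0 = j
        · rw [if_pos hj, ← hj, h11]
        · rw [if_neg hj, hα j (Ne.symm hj)]
      · right
        ext j
        rw [neg_coeff', T_coeff]
        by_cases hj : 0 = j
        · rw [if_pos hj, ← hj, h11]
        · rw [if_neg hj, hα j (Ne.symm hj), neg_zero]
    · left
      have h9 : k * α.coeff 0 = 0 := by omega
      have h10 : α.coeff 0 = 0 := (mul_eq_zero.1 h9).resolve_left hk0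
      ext j
      rw [zero_coeff']
      by_cases hj : j = 0
      · rw [hj, h10]
      · exact hα j hj
  · -- `Q` is a monomial
    rw [hPc, if_neg (Ne.symm h7), sub_zero] at h5
    have h8 : α.coeff a' * Q.coeff b' = -e := by
      have : k * (α.coeff a' * Q.coeff b') = k * (-e) := by linarith
      exact mul_left_cancel₀ hk0 this
    have h9 : Q.coeff b' = 1 ∨ Q.coeff b' = -1 := by
      refine Int.isUnit_iff.1 (IsUnit.of_mul_eq_one (α.coeff a' * (-e)) ?_)
      have : Q.coeff b' * (α.coeff a' * (-e)) = (α.coeff a' * Q.coeff b') * (-e) := by ring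
      rw [this, h8]
      rcases he with rfl | rfl <;> norm_num
    have h10 : ∀ j, Q.coeff j = k * (α * Q).coeff j - (if c = j then 1 else 0) +
        e * k * if 0 = j then 1 else 0 := by
      intro j
      have h11 : (P * Q).coeff j = k * (α * Q).coeff j - Q.coeff j := by
        rw [hP, sub_mul, one_mul, smul_mul_assoc, sub_coeff', smul_coeff']
      have h12 := hR j
      rw [h11] at h12
      linarith
    have hb'c : b' = c := by
      by_contra hcon
      have h11 := h10 b'
      rw [if_neg (Ne.symm hcon)] at h11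
      have h12 : Q.coeff b' = k * ((α * Q).coeff b' + e * if 0 = b' then 1 else 0) := by
        rw [h11]; ring
      have := hk1 ((α * Q).coeff b' + e * if 0 = b' then 1 else 0)
      rw [← h12] at this
      rcases h9 with h13 | h13
      · exact this.1 h13
      · exact this.2 h13
    have hQs : ∀ j, Q.coeff j = if c = j then Q.coeff c else 0 := by
      intro j
      by_cases hj : c = j
      · rw [if_pos hj, hj]
      · rw [if_neg hj]
        by_contra hcon
        have := hbmax j hcon
        have := hbmin j hcon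
        omega
    have h11 : ∀ j, P.coeff j * Q.coeff c = (if 0 = j then 1 else 0) -
        e * k * if -c = j then 1 else 0 := by
      intro j
      rw [← single_mul_coeff c _ P Q hQs, hR]
      have e1 : (c = j + c) ↔ (0 = j) := by omega
      have e2 : (0 = j + c) ↔ (-c = j) := by omega
      simp only [e1, e2]
    rw [hb'c] at h9
    have hc0 : -c ≠ 0 := by omega
    rcases h9 with h12 | h12
    · right; right
      have h13 : ∀ j, k * α.coeff j = 2 * (if 0 = j then 1 else 0) -
          e * k * if -c = j then 1 else 0 := by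
        intro j
        have := h11 j
        rw [h12, mul_one, hPc] at this
        linarith
      have h14 := h13 0
      rw [if_pos rfl, if_neg hc0, mul_zero, sub_zero, mul_one] at h14
      have h15 : |k| = 2 := by
        have h16 : |k| * |α.coeff 0| = 2 := by rw [← abs_mul, h14]; norm_num
        have h17 : 0 ≤ |α.coeff 0| := abs_nonneg _
        rcases h17.lt_or_eq with h18 | h18
        · nlinarith
        · rw [← h18, mul_zero] at h16; exact absurd h16 (by norm_num)
      have h16 : e * k = 2 ∨ e * k = -2 := by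
        rcases abs_choice k with h17 | h17 <;> rcases he with rfl | rfl <;> omega
      refine ⟨-c, ?_⟩
      rcases h16 with h17 | h17
      · right
        ext j
        rw [smul_coeff', h13, sub_coeff', smul_coeff', T_coeff, h17]
        have : ((2 : ℕ) • (1 : ℤ[T;T⁻¹])).coeff j = 2 * if 0 = j then 1 else 0 := by
          rw [two_smul, add_coeff', one_coeff']; ring
        rw [this]
      · left
        ext j
        rw [smul_coeff', h13, add_coeff', smul_coeff', T_coeff, h17]
        have : ((2 : ℕ) • (1 : ℤ[T;T⁻¹])).coeff j = 2 * if 0 = j then 1 else 0 := by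
          rw [two_smul, add_coeff', one_coeff']; ring
        rw [this]; ring
    · right; left
      have h13 : ∀ j, α.coeff j = e * if -c = j then 1 else 0 := by
        intro j
        have h14 := h11 j
        rw [h12, hPc] at h14
        have : k * α.coeff j = k * (e * if -c = j then 1 else 0) := by
          linarith
        exact mul_left_cancel₀ hk0 this
      refine ⟨-c, ?_⟩
      rcases he with rfl | rfl
      · left; ext j; rw [h13, T_coeff, one_mul]
      · right; ext j; rw [h13, neg_coeff', T_coeff]; ring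

/-- the case `c = 0` -/
theorem key_zero (k : ℤ) (hk : 2 ≤ |k|) (α Q : ℤ[T;T⁻¹]) (e : ℤ) (he : e = 1 ∨ e = -1)
    (h : (k • α - 1) * Q = T 0 - (e * k) • 1) :
    α = 0 ∨ (∃ j, α = T j ∨ α = -T j) ∨
      (∃ j, k • α = 2 • 1 + (2 : ℤ) • T j ∨ k • α = 2 • 1 - (2 : ℤ) • T j) := by
  have hk0 : k ≠ 0 := by rintro rfl; simp at hk
  have hek1 : e * k ≠ 1 := by
    intro h1
    have : |k| = 1 := by
      rcases he with rfl | rfl
      · rw [one_mul] at h1; rw [h1]; norm_num
      · rw [neg_one_mul] at h1
        have : k = -1 := by omega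
        rw [this]; norm_num
    omega
  set P := k • α - 1 with hP
  have hPc : ∀ j, P.coeff j = k * α.coeff j - if 0 = j then 1 else 0 := by
    intro j; rw [hP, sub_coeff', smul_coeff', one_coeff']
  have hR : ∀ j, (P * Q).coeff j = (1 - e * k) * if 0 = j then 1 else 0 := by
    intro j; rw [h, sub_coeff', T_coeff, smul_coeff', one_coeff']; ring
  have hP0 : P.coeff 0 ≠ 0 := by
    rw [hPc, if_pos rfl]
    intro h1
    have h2 : |k| * |α.coeff 0| = 1 := by
      rw [← abs_mul, show k * α.coeff 0 = 1 by omega]; norm_num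
    have h3 : 0 ≤ |α.coeff 0| := abs_nonneg _
    rcases h3.lt_or_eq with h4 | h4
    · nlinarith
    · rw [← h4, mul_zero] at h2; exact absurd h2 (by norm_num)
  have hQ0 : ∃ i, Q.coeff i ≠ 0 := by
    by_contra hcon
    push Not at hcon
    have hQ : Q = 0 := by ext i; rw [hcon i]; rfl
    have h1 := hR 0
    rw [hQ, mul_zero, zero_coeff', if_pos rfl, mul_one] at h1
    omega
  obtain ⟨a, b, ha, hb, hamax, hbmax, hab⟩ := ext_top P Q ⟨0, hP0⟩ hQ0
  obtain ⟨a', b', ha', hb', hamin, hbmin, hab'⟩ := ext_bot P Q ⟨0, hP0⟩ hQ0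
  have h1 : a + b = 0 := by
    by_contra hcon
    have := hR (a + b)
    rw [hab, if_neg (Ne.symm hcon), mul_zero] at this
    rcases mul_eq_zero.1 this with h2 | h2
    · exact ha h2
    · exact hb h2
  have h1' : a' + b' = 0 := by
    by_contra hcon
    have := hR (a' + b')
    rw [hab', if_neg (Ne.symm hcon), mul_zero] at this
    rcases mul_eq_zero.1 this with h2 | h2
    · exact ha' h2
    · exact hb' h2
  have haa : a' ≤ a := hamin a ha
  have hbb : b' ≤ b := hbmin b hb
  have hmin := hamin 0 hP0
  have hmax := hamax 0 hP0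
  have ha0 : a = 0 := by omega
  have ha0' : a' = 0 := by omega
  have hb0 : b = 0 := by omega
  have hα : ∀ j, j ≠ 0 → α.coeff j = 0 := by
    intro j hj
    have h8 : P.coeff j = 0 := by
      by_contra hcon
      have := hamax j hcon
      have := hamin j hcon
      omega
    rw [hPc, if_neg (Ne.symm hj), sub_zero] at h8
    exact (mul_eq_zero.1 h8).resolve_left hk0
  have h4 : (k * α.coeff 0 - 1) * Q.coeff 0 = 1 - e * k := by
    have := hR 0
    rw [if_pos rfl, mul_one] at this
    rw [← this]
    have h5 := hab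
    rw [ha0, hb0, add_zero, hPc, if_pos rfl] at h5
    exact h5.symm
  set x := α.coeff 0 with hx
  have hq : Q.coeff 0 ≠ 0 := by rw [hb0] at hb; exact hb
  -- bound
  have h5 : |k * x - 1| ≤ |k| + 1 := by
    have h6 : |k * x - 1| * |Q.coeff 0| = |1 - e * k| := by rw [← abs_mul, h4]
    have h7 : 1 ≤ |Q.coeff 0| := Int.one_le_abs hq
    have h8 : |1 - e * k| ≤ |k| + 1 := by
      have h9 : |e * k| = |k| := by rcases he with rfl | rfl <;> simp
      have := abs_sub (1 : ℤ) (e * k)
      rw [h9] at this
      have h10 : |(1 : ℤ)| = 1 := by norm_num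
      omega
    have h9 : 0 ≤ |k * x - 1| := abs_nonneg _
    nlinarith
  have h6 : |k| * |x| ≤ |k| + 2 := by
    rw [← abs_mul]
    have := abs_sub_abs_le_abs_sub (k * x) 1
    have h10 : |(1 : ℤ)| = 1 := by norm_num
    omega
  have h7 : |x| ≤ 2 := by
    by_contra hcon
    push Not at hcon
    nlinarith
  have hcase : x = 0 ∨ x = 1 ∨ x = -1 ∨ (k * x = 4) := by
    rcases lt_or_ge |x| 2 with h8 | h8
    · have : |x| ≤ 1 := by omega
      rw [abs_le] at this
      omega
    · have h9 : |x| = 2 := by omega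
      rw [h9] at h6
      have h10 : |k| = 2 := by omega
      have h11 : k * x = 4 ∨ k * x = -4 := by
        rcases abs_choice k with h12 | h12 <;> rcases abs_choice x with h13 | h13 <;>
          rw [h12] at h10 <;> rw [h13] at h9
        · left; rw [h10, h9]; norm_num
        · right
          have : x = -2 := by omega
          rw [h10, this]; norm_num
        · right
          have : k = -2 := by omega
          rw [h9, this]; norm_num
        · left
          have hk2 : k = -2 := by omega
          have hx2 : x = -2 := by omega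
          rw [hk2, hx2]; norm_num
      rcases h11 with h12 | h12
      · exact Or.inr (Or.inr (Or.inr h12))
      · exfalso
        rw [h12] at h5
        have : |(-4 - 1 : ℤ)| = 5 := by norm_num
        omega
  rcases hcase with h8 | h8 | h8 | h8
  · left
    ext j
    rw [zero_coeff']
    by_cases hj : j = 0
    · rw [hj, ← hx, h8]
    · exact hα j hj
  · right; left
    refine ⟨0, Or.inl ?_⟩
    ext j
    rw [T_coeff]
    by_cases hj : 0 = j
    · rw [if_pos hj, ← hj, ← hx, h8]
    · rw [if_neg hj, hα j (Ne.symm hj)]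
  · right; left
    refine ⟨0, Or.inr ?_⟩
    ext j
    rw [neg_coeff', T_coeff]
    by_cases hj : 0 = j
    · rw [if_pos hj, ← hj, ← hx, h8]
    · rw [if_neg hj, hα j (Ne.symm hj), neg_zero]
  · right; right
    refine ⟨0, Or.inl ?_⟩
    ext j
    rw [smul_coeff', add_coeff', smul_coeff', T_coeff]
    have : ((2 : ℕ) • (1 : ℤ[T;T⁻¹])).coeff j = 2 * if 0 = j then 1 else 0 := by
      rw [two_smul, add_coeff', one_coeff']; ring
    rw [this]
    by_cases hj : 0 = j
    · rw [if_pos hj, ← hj, ← hx, h8]; norm_num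
    · rw [if_neg hj, hα j (Ne.symm hj)]; norm_num

/-- **Divisibility.** -/
theorem laurent_key (k : ℤ) (hk : 2 ≤ |k|) (α Q : ℤ[T;T⁻¹]) (c e : ℤ) (he : e = 1 ∨ e = -1)
    (h : (k • α - 1) * Q = T c - (e * k) • 1) :
    α = 0 ∨ (∃ j, α = T j ∨ α = -T j) ∨
      (∃ j, k • α = 2 • 1 + (2 : ℤ) • T j ∨ k • α = 2 • 1 - (2 : ℤ) • T j) := by
  rcases lt_trichotomy c 0 with hc | hc | hc
  · have h1 := congrArg (invert (R := ℤ)) h
    rw [map_mul, map_sub, map_sub, map_zsmul, map_zsmul, map_one, invert_T] at h1
    have h2 := key_pos k hk (invert α) (invert Q) (-c) e he (by omega) h1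
    have hinv : ∀ f : ℤ[T;T⁻¹], invert (invert f) = f := fun f => by
      have := involutive_invert (R := ℤ) f
      exact this
    rcases h2 with h3 | ⟨j, h3⟩ | ⟨j, h3⟩
    · left
      rw [← hinv α, h3, map_zero]
    · right; left
      refine ⟨-j, ?_⟩
      rcases h3 with h4 | h4
      · left; rw [← hinv α, h4, invert_T]
      · right; rw [← hinv α, h4, map_neg, invert_T]
    · right; right
      refine ⟨-j, ?_⟩
      rcases h3 with h4 | h4
      · left
        have := congrArg (invert (R := ℤ)) h4
        rw [map_zsmul, hinv, map_add, map_nsmul, map_one, map_zsmul, invert_T] at this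
        exact this
      · right
        have := congrArg (invert (R := ℤ)) h4
        rw [map_zsmul, hinv, map_sub, map_nsmul, map_one, map_zsmul, invert_T] at this
        exact this
  · subst hc
    exact key_zero k hk α Q e he h
  · exact key_pos k hk α Q c e he hc h

end Pool.Agent.NE
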