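import Pool.Agent.helper43.NE.Root

/-!
# MP_5c1f29_al: Baumslag-Solitar groups, basic facts
-/

set_option autoImplicit false

namespace Pool.Agent.NE

/-- The relator `t a^m t⁻¹ a^(-n)`; `t` is the letter `0` and `a` the letter `1`. -/
def bsRel (m n : ℤ) : FreeGroup (Fin 2) :=
  FreeGroup.of 0 * FreeGroup.of 1 ^ m * (FreeGroup.of 0)⁻¹ * (FreeGroup.of 1 ^ n)⁻¹

/-- The Baumslag-Solitar group `BS(m, n) = ⟨t, a | t a^m t⁻¹ = a^n⟩`. -/
abbrev BS (m n : ℤ) : Type := PresentedGroup ({bsRel m n} : Set (FreeGroup (Fin 2)))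

/-- The pair `(t, a)`. -/
def ta (m n : ℤ) : Fin 2 → BS m n := fun i => PresentedGroup.of i

section

variable {m n : ℤ}

theorem bs_rel : (PresentedGroup.of 0 : BS m n) * PresentedGroup.of 1 ^ m *
    (PresentedGroup.of 0)⁻¹ = PresentedGroup.of 1 ^ n := by
  have h : PresentedGroup.mk ({bsRel m n} : Set (FreeGroup (Fin 2))) (bsRel m n) = 1 :=
    PresentedGroup.one_of_mem rfl
  rw [bsRel, map_mul, map_mul, map_mul, map_inv, map_inv, map_zpow, map_zpow, mul_inv_eq_one] at h
  exact h

/-- homomorphisms from `BS(m, n)` -/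
def bsLift {H : Type} [Group H] (x y : H) (h : x * y ^ m * x⁻¹ = y ^ n) : BS m n →* H :=
  PresentedGroup.toGroup (f := fun i => if i = 0 then x else y) (by
    intro r hr
    rw [Set.mem_singleton_iff] at hr
    subst hr
    simp only [bsRel, map_mul, map_inv, map_zpow, FreeGroup.lift_apply_of, if_true]
    rw [mul_inv_eq_one]
    exact h)

theorem bsLift_t {H : Type} [Group H] (x y : H) (h : x * y ^ m * x⁻¹ = y ^ n) :
    bsLift x y h (PresentedGroup.of 0) = x := by
  unfold bsLift
  rw [PresentedGroup.toGroup.of]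
  rfl

theorem bsLift_a {H : Type} [Group H] (x y : H) (h : x * y ^ m * x⁻¹ = y ^ n) :
    bsLift x y h (PresentedGroup.of 1) = y := by
  unfold bsLift
  rw [PresentedGroup.toGroup.of]
  rfl

theorem bs_hom_ext {H : Type} [Group H] {f g : BS m n →* H}
    (h0 : f (PresentedGroup.of 0) = g (PresentedGroup.of 0))
    (h1 : f (PresentedGroup.of 1) = g (PresentedGroup.of 1)) : f = g := by
  apply PresentedGroup.ext
  intro i
  fin_cases i
  · exact h0
  · exact h1

theorem ta_generates : Generates (ta m n) := by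
  unfold Generates ta
  exact PresentedGroup.closure_range_of _

/-- `BS(m, n) ≃ BS(n, m)` -/
noncomputable def bsSwap (m n : ℤ) : BS m n ≃* BS n m :=
  MonoidHom.toMulEquiv
    (bsLift (PresentedGroup.of 0)⁻¹ (PresentedGroup.of 1) (by
      have h := bs_rel (m := n) (n := m)
      rw [← h]; group))
    (bsLift (PresentedGroup.of 0)⁻¹ (PresentedGroup.of 1) (by
      have h := bs_rel (m := m) (n := n)
      rw [← h]; group))
    (bs_hom_ext (by simp [bsLift_t]) (by simp [bsLift_a]))
    (bs_hom_ext (by simp [bsLift_t]) (by simp [bsLift_a]))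

/-- `BS(m, n) ≃ BS(-m, -n)` -/
noncomputable def bsNeg (m n : ℤ) : BS m n ≃* BS (-m) (-n) :=
  MonoidHom.toMulEquiv
    (bsLift (PresentedGroup.of 0) (PresentedGroup.of 1) (by
      have h := bs_rel (m := -m) (n := -n)
      rw [zpow_neg, zpow_neg] at h
      have h2 := congrArg (·⁻¹) h
      simp only [mul_inv_rev, inv_inv] at h2
      rw [← h2]; group))
    (bsLift (PresentedGroup.of 0) (PresentedGroup.of 1) (by
      have h := bs_rel (m := m) (n := n)
      rw [zpow_neg, zpow_neg, ← h]; group))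
    (bs_hom_ext (by simp [bsLift_t]) (by simp [bsLift_a]))
    (bs_hom_ext (by simp [bsLift_t]) (by simp [bsLift_a]))

end

/-! ### transport of (N) -/

theorem generates_map {G H : Type} [Group G] [Group H] (e : G ≃* H) {k : ℕ} (g : Fin k → G) :
    Generates (fun i => e (g i)) ↔ Generates g := by
  have h1 : Subgroup.closure (Set.range fun i => e (g i)) =
      (Subgroup.closure (Set.range g)).map e.toMonoidHom := by
    rw [MonoidHom.map_closure, ← Set.range_comp]
    rfl
  unfold Generates
  rw [h1]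
  constructor
  · intro h
    rw [← top_le_iff]
    intro x _
    have : e x ∈ (Subgroup.closure (Set.range g)).map e.toMonoidHom := by rw [h]; trivial
    obtain ⟨y, hy, hyx⟩ := this
    have h3 : y = x := e.injective hyx
    rwa [← h3]
  · intro h
    rw [h, ← MonoidHom.range_eq_map]
    exact MonoidHom.range_eq_top.2 e.surjective

theorem isMinGen_map {G H : Type} [Group G] [Group H] (e : G ≃* H) {k : ℕ} (g : Fin k → G)
    (hg : IsMinGen g) : IsMinGen (fun i => e (g i)) := by
  refine ⟨(generates_map e g).2 hg.1, fun m h hh => hg.2 m (fun i => e.symm (h i)) ?_⟩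
  exact (generates_map e.symm h).2 hh

theorem step_map {G H : Type} [Group G] [Group H] (f : G →* H) {k : ℕ} {g h : Fin k → G}
    (hs : Step g h) : Step (fun i => f (g i)) (fun i => f (h i)) := by
  cases hs with
  | perm σ => exact Step.perm (fun i => f (g i)) σ
  | inv i =>
    have h1 : (fun j => f (Function.update g i (g i)⁻¹ j)) =
        Function.update (fun j => f (g j)) i (f (g i))⁻¹ := by
      funext j
      by_cases hj : j = i
      · subst hj; simp
      · simp [Function.update_of_ne hj]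
    rw [h1]
    exact Step.inv (fun i => f (g i)) i
  | mul i j hij =>
    have h1 : (fun l => f (Function.update g i (g i * g j) l)) =
        Function.update (fun l => f (g l)) i (f (g i) * f (g j)) := by
      funext l
      by_cases hl : l = i
      · subst hl; simp
      · simp [Function.update_of_ne hl]
    rw [h1]
    exact Step.mul (fun i => f (g i)) i j hij

theorem equiv_map {G H : Type} [Group G] [Group H] (f : G →* H) {k : ℕ} {g h : Fin k → G}
    (hs : NielsenEquiv g h) : NielsenEquiv (fun i => f (g i)) (fun i => f (h i)) := by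
  induction hs with
  | refl => exact NielsenEquiv.refl _
  | tail _ h1 ih => exact ih.trans (NielsenEquiv.of_step (step_map f h1))

theorem propertyN_map {G H : Type} [Group G] [Group H] (e : G ≃* H) (hG : PropertyN G) :
    PropertyN H := by
  intro k g h hg hh
  have h1 := hG k _ _ (isMinGen_map e.symm g hg) (isMinGen_map e.symm h hh)
  have h2 := equiv_map e.toMonoidHom h1
  have h3 : ∀ x : Fin k → H, (fun i => e.toMonoidHom (e.symm (x i))) = x := by
    intro x; funext i; exact e.apply_symm_apply (x i)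
  rw [h3, h3] at h2
  exact h2

theorem propertyN_iff {G H : Type} [Group G] [Group H] (e : G ≃* H) :
    PropertyN G ↔ PropertyN H := ⟨propertyN_map e, propertyN_map e.symm⟩

/-! ### the affine representation, rank and determinants -/

/-- the representation `t ↦ (n/m, e_0)`, `a ↦ (1, e_1)` -/
noncomputable def bsRep (m n : ℤ) (hm : m ≠ 0) (hn : n ≠ 0) : BS m n →* Aff ℚ (Fin 2 → ℚ) :=
  bsLift ⟨Units.mk0 ((n : ℚ) / m) (div_ne_zero (Int.cast_ne_zero.2 hn) (Int.cast_ne_zero.2 hm)),
      Pi.single 0 1⟩ (⟨1, Pi.single 1 1⟩) (by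
    have hz : ∀ k : ℤ, (⟨1, Pi.single 1 1⟩ : Aff ℚ (Fin 2 → ℚ)) ^ k =
        ⟨1, (k : ℚ) • Pi.single 1 1⟩ := by
      intro k
      let f : Multiplicative ℤ →* Aff ℚ (Fin 2 → ℚ) :=
        { toFun := fun j => ⟨1, ((Multiplicative.toAdd j : ℤ) : ℚ) • Pi.single 1 1⟩
          map_one' := Aff.ext rfl (by simp)
          map_mul' := by
            intro x y
            refine Aff.ext (by simp) ?_
            simp [add_smul] }
      have h1 : (⟨1, Pi.single 1 1⟩ : Aff ℚ (Fin 2 → ℚ)) = f (Multiplicative.ofAdd 1) :=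
        Aff.ext rfl (by simp [f])
      rw [h1, ← map_zpow, ← ofAdd_zsmul]
      refine Aff.ext rfl ?_
      simp [f]
    rw [hz, hz]
    have hm' : (m : ℚ) ≠ 0 := Int.cast_ne_zero.2 hm
    refine Aff.ext (by simp) ?_
    funext i
    simp only [Aff.mul_v, Aff.inv_v, Aff.mul_a, Units.val_mul, Units.val_one, Pi.add_apply,
      Pi.smul_apply, smul_eq_mul, mul_one, Units.val_mk0, Units.val_inv_eq_inv_val]
    have hn' : (n : ℚ) ≠ 0 := Int.cast_ne_zero.2 hn
    field_simp
    ring)

theorem bsRep_t (m n : ℤ) (hm : m ≠ 0) (hn : n ≠ 0) :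
    bsRep m n hm hn (PresentedGroup.of 0) = ⟨Units.mk0 ((n : ℚ) / m)
      (div_ne_zero (Int.cast_ne_zero.2 hn) (Int.cast_ne_zero.2 hm)), Pi.single 0 1⟩ := by
  unfold bsRep; rw [bsLift_t]

theorem bsRep_a (m n : ℤ) (hm : m ≠ 0) (hn : n ≠ 0) :
    bsRep m n hm hn (PresentedGroup.of 1) = ⟨1, Pi.single 1 1⟩ := by
  unfold bsRep; rw [bsLift_a]

theorem bs_rank (m n : ℤ) (hm : m ≠ 0) (hn : n ≠ 0) (k : ℕ) (g : Fin k → BS m n)
    (hg : Generates g) : 2 ≤ k := by
  refine rank_le (bsRep m n hm hn) (ta m n) ?_ g hg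
  intro i
  fin_cases i
  · show (bsRep m n hm hn (PresentedGroup.of 0)).v = _
    rw [bsRep_t]; rfl
  · show (bsRep m n hm hn (PresentedGroup.of 1)).v = _
    rw [bsRep_a]; rfl

theorem ta_isMinGen (m n : ℤ) (hm : m ≠ 0) (hn : n ≠ 0) : IsMinGen (ta m n) :=
  ⟨ta_generates, bs_rank m n hm hn⟩

end Pool.Agent.NE
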