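import Pool.Agent.helper43.NE.BS

/-!
# MP_5c1f29_al: Baumslag-Solitar groups `BS(m, n)` with `|m| ≥ 2` and `n ∤ m`: failure of (N)

The pairs `(t, a)` and `(t⁻¹ a^d t², a)`, `d = gcd(m, n)`, generate, and their commutators have
translation lengths `2` and `6` on the Bass-Serre tree.
-/

set_option autoImplicit false

open HNNExtension

namespace Pool.Agent.NE

/-! ### commutators of pairs -/

/-- the commutator of a pair -/
def cm {G : Type} [Group G] (g : Fin 2 → G) : G := g 0 * g 1 * (g 0)⁻¹ * (g 1)⁻¹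

theorem cm_step {G : Type} [Group G] {g h : Fin 2 → G} (hs : Step g h) :
    ∃ c : G, cm h = c * cm g * c⁻¹ ∨ cm h = c * (cm g)⁻¹ * c⁻¹ := by
  cases hs with
  | perm σ =>
    by_cases h0 : σ 0 = 0
    · have h1 : σ 1 = 1 := by
        have : σ 1 ≠ σ 0 := fun h => absurd (σ.injective h) (by decide)
        rw [h0] at this
        omega
      refine ⟨1, Or.inl ?_⟩
      simp only [cm, Function.comp_apply, h0, h1]
      group
    · have h0' : σ 0 = 1 := by omega
      have h1 : σ 1 = 0 := by
        have : σ 1 ≠ σ 0 := fun h => absurd (σ.injective h) (by decide)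
        rw [h0'] at this
        omega
      refine ⟨1, Or.inr ?_⟩
      simp only [cm, Function.comp_apply, h0', h1]
      group
  | inv i =>
    fin_cases i
    · refine ⟨(g 0)⁻¹, Or.inr ?_⟩
      show Function.update g 0 (g 0)⁻¹ 0 * Function.update g 0 (g 0)⁻¹ 1 *
        (Function.update g 0 (g 0)⁻¹ 0)⁻¹ * (Function.update g 0 (g 0)⁻¹ 1)⁻¹ = _
      rw [Function.update_self, Function.update_of_ne (by decide), cm]
      group
    · refine ⟨(g 1)⁻¹, Or.inr ?_⟩
      show Function.update g 1 (g 1)⁻¹ 0 * Function.update g 1 (g 1)⁻¹ 1 *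
        (Function.update g 1 (g 1)⁻¹ 0)⁻¹ * (Function.update g 1 (g 1)⁻¹ 1)⁻¹ = _
      rw [Function.update_self, Function.update_of_ne (by decide), cm]
      group
  | mul i j hij =>
    fin_cases i <;> fin_cases j
    · exact absurd rfl hij
    · refine ⟨1, Or.inl ?_⟩
      show Function.update g 0 (g 0 * g 1) 0 * Function.update g 0 (g 0 * g 1) 1 *
        (Function.update g 0 (g 0 * g 1) 0)⁻¹ * (Function.update g 0 (g 0 * g 1) 1)⁻¹ = _
      rw [Function.update_self, Function.update_of_ne (by decide), cm]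
      group
    · refine ⟨1, Or.inl ?_⟩
      show Function.update g 1 (g 1 * g 0) 0 * Function.update g 1 (g 1 * g 0) 1 *
        (Function.update g 1 (g 1 * g 0) 0)⁻¹ * (Function.update g 1 (g 1 * g 0) 1)⁻¹ = _
      rw [Function.update_self, Function.update_of_ne (by decide), cm]
      group
    · exact absurd rfl hij

theorem cm_equiv {G : Type} [Group G] {g h : Fin 2 → G} (hs : NielsenEquiv g h) :
    ∃ c : G, cm h = c * cm g * c⁻¹ ∨ cm h = c * (cm g)⁻¹ * c⁻¹ := by
  induction hs with
  | refl => exact ⟨1, Or.inl (by group)⟩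
  | tail _ h1 ih =>
    obtain ⟨c, hc⟩ := ih
    obtain ⟨c', hc'⟩ := cm_step h1
    refine ⟨c' * c, ?_⟩
    rcases hc with hc | hc <;> rcases hc' with hc' | hc' <;> rw [hc', hc]
    · left; group
    · right; group
    · right; group
    · left; group

/-! ### length functions -/

section len

variable {G : Type} [Group G] {A B : Subgroup G} {φ : A ≃* B}
  (d : NormalWord.TransversalPair G A B)

/-- the number of letters `t^(±1)` in the normal form -/
noncomputable def len (x : HNNExtension G A B φ) : ℕ :=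
  (x • (NormalWord.empty : NormalWord d)).toList.length

theorem len_of_mul (g : G) (x : HNNExtension G A B φ) : len d (of g * x) = len d x := by
  unfold len
  rw [mul_smul, NormalWord.of_smul_eq_smul, NormalWord.group_smul_toList]

theorem len_t_mul (u : ℤˣ) (x : HNNExtension G A B φ) :
    len d (t ^ (u : ℤ) * x) ≤ len d x + 1 := by
  unfold len
  rw [mul_smul, NormalWord.t_pow_smul_eq_unitsSMul]
  generalize x • (NormalWord.empty : NormalWord d) = w
  unfold NormalWord.unitsSMul
  split_ifs with h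
  · cases w using NormalWord.consRecOn with
    | ofGroup g => simp [NormalWord.Cancels] at h
    | cons g u' w h1 h2 _ =>
      simp only [NormalWord.unitsSMulWithCancel, NormalWord.consRecOn_cons,
        NormalWord.group_smul_toList, NormalWord.cons_toList, List.length_cons]
      omega
  · simp

theorem len_list_mul (l : List (ℤˣ × G)) (x : HNNExtension G A B φ) :
    len d ((l.map (fun x => (t : HNNExtension G A B φ) ^ (x.1 : ℤ) * of x.2)).prod * x) ≤
      l.length + len d x := by
  induction l with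
  | nil => simp
  | cons a l ih =>
    rw [List.map_cons, List.prod_cons, mul_assoc, mul_assoc]
    refine (len_t_mul d _ _).trans ?_
    rw [len_of_mul, List.length_cons]
    omega

theorem len_mul (x y : HNNExtension G A B φ) : len d (x * y) ≤ len d x + len d y := by
  have hx : x = ((x • (NormalWord.empty : NormalWord d)).prod φ) := by simp
  conv_lhs => rw [hx]
  rw [NormalWord.ReducedWord.prod, mul_assoc, len_of_mul]
  exact len_list_mul d _ y

theorem len_reduced (w : NormalWord.ReducedWord G A B) : len d (w.prod φ) = w.toList.length := by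
  obtain ⟨w', h1, h2, -⟩ := ReducedWord.exists_normalWord_prod_eq φ d w
  unfold len
  rw [← h1, NormalWord.prod_smul_empty]
  have := congrArg List.length h2
  simpa using this

theorem len_one : len d (1 : HNNExtension G A B φ) = 0 := by
  unfold len
  rw [one_smul]
  rfl

theorem len_pow (x : HNNExtension G A B φ) (k : ℕ) : len d (x ^ k) ≤ k * len d x := by
  induction k with
  | zero => rw [pow_zero, len_one]; omega
  | succ k ih =>
    rw [pow_succ]
    refine (len_mul d _ _).trans ?_
    rw [Nat.succ_mul]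
    omega

end len

/-! ### the group `BS(m, n)` as an HNN extension -/

/-- `x ↦ x^m` on the infinite cyclic group -/
def zp (m : ℤ) : Multiplicative ℤ →* Multiplicative ℤ := zpowGroupHom m

theorem zp_inj (m : ℤ) (hm : m ≠ 0) : Function.Injective (zp m) := by
  intro x y h
  have h1 : x ^ m = y ^ m := h
  have h2 : m * Multiplicative.toAdd x = m * Multiplicative.toAdd y := by
    have := congrArg Multiplicative.toAdd h1
    simpa using this
  exact Multiplicative.toAdd.injective (mul_left_cancel₀ hm h2)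

theorem mem_zp (m : ℤ) (j : ℤ) : Multiplicative.ofAdd j ∈ (zp m).range ↔ m ∣ j := by
  constructor
  · rintro ⟨x, hx⟩
    have h1 : x ^ m = Multiplicative.ofAdd j := hx
    refine ⟨Multiplicative.toAdd x, ?_⟩
    have := congrArg Multiplicative.toAdd h1
    simpa using this.symm
  · rintro ⟨k, rfl⟩
    refine ⟨Multiplicative.ofAdd k, ?_⟩
    show (Multiplicative.ofAdd k) ^ m = _
    rw [← ofAdd_zsmul, smul_eq_mul]

/-- the isomorphism of the associated subgroups -/
noncomputable def bsIso (m n : ℤ) (hm : m ≠ 0) (hn : n ≠ 0) : (zp m).range ≃* (zp n).range :=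
  (MonoidHom.ofInjective (zp_inj m hm)).symm.trans (MonoidHom.ofInjective (zp_inj n hn))

theorem bsIso_apply (m n : ℤ) (hm : m ≠ 0) (hn : n ≠ 0) (x : Multiplicative ℤ) :
    ((bsIso m n hm hn ⟨zp m x, ⟨x, rfl⟩⟩ : (zp n).range) : Multiplicative ℤ) = zp n x := by
  unfold bsIso
  rw [MulEquiv.trans_apply]
  have h : (MonoidHom.ofInjective (zp_inj m hm)).symm ⟨zp m x, ⟨x, rfl⟩⟩ = x := by
    rw [MulEquiv.symm_apply_eq]
    rfl
  rw [h]
  rfl

/-- the HNN extension -/
abbrev HB (m n : ℤ) (hm : m ≠ 0) (hn : n ≠ 0) : Type :=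
  HNNExtension (Multiplicative ℤ) (zp m).range (zp n).range (bsIso m n hm hn)

/-- the homomorphism from `BS(m, n)` -/
noncomputable def bsHnn (m n : ℤ) (hm : m ≠ 0) (hn : n ≠ 0) : BS m n →* HB m n hm hn :=
  bsLift t (of (Multiplicative.ofAdd 1)) (by
    have h := equiv_eq_conj (φ := bsIso m n hm hn) ⟨zp m (Multiplicative.ofAdd 1), ⟨_, rfl⟩⟩
    rw [bsIso_apply] at h
    have h1 : zp m (Multiplicative.ofAdd 1) = (Multiplicative.ofAdd 1) ^ m := rfl
    have h2 : zp n (Multiplicative.ofAdd 1) = (Multiplicative.ofAdd 1) ^ n := rfl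
    simp only [h1, h2, map_zpow] at h
    exact h.symm)

theorem bsHnn_t (m n : ℤ) (hm : m ≠ 0) (hn : n ≠ 0) :
    bsHnn m n hm hn (PresentedGroup.of 0) = t := bsLift_t _ _ _

theorem bsHnn_a (m n : ℤ) (hm : m ≠ 0) (hn : n ≠ 0) :
    bsHnn m n hm hn (PresentedGroup.of 1) = of (Multiplicative.ofAdd 1) := bsLift_a _ _ _

/-! ### the second pair -/

/-- The pair `(t⁻¹ a^d t², a)`. -/
def pr2 (m n d : ℤ) : Fin 2 → BS m n := fun i =>
  if i = 0 then (PresentedGroup.of 0)⁻¹ * PresentedGroup.of 1 ^ d * PresentedGroup.of 0 ^ 2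
  else PresentedGroup.of 1

theorem pr2_generates (m n d : ℤ) (hd : ∃ x y : ℤ, d = m * x + n * y) :
    Generates (pr2 m n d) := by
  set T : BS m n := PresentedGroup.of 0 with hT
  set a : BS m n := PresentedGroup.of 1 with ha
  have hrel : T * a ^ m * T⁻¹ = a ^ n := bs_rel
  set K : Subgroup (BS m n) := (Subgroup.closure (Set.range (pr2 m n d))).map
    (MulAut.conj T).toMonoidHom with hK
  have h0 : T⁻¹ * a ^ d * T ^ 2 ∈ Subgroup.closure (Set.range (pr2 m n d)) :=
    Subgroup.subset_closure ⟨0, rfl⟩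
  have h1 : a ∈ Subgroup.closure (Set.range (pr2 m n d)) :=
    Subgroup.subset_closure ⟨1, rfl⟩
  have k0 : a ^ d * T ∈ K := by
    refine ⟨_, h0, ?_⟩
    show T * (T⁻¹ * a ^ d * T ^ 2) * T⁻¹ = a ^ d * T
    rw [pow_two]; group
  have k1 : T * a * T⁻¹ ∈ K := ⟨_, h1, rfl⟩
  have kn : a ^ n ∈ K := by
    have : a ^ n = (T * a * T⁻¹) ^ m := by rw [← hrel, conj_zpow]
    rw [this]
    exact K.zpow_mem k1 m
  have km : a ^ m ∈ K := by
    have : a ^ m = (a ^ d * T)⁻¹ * a ^ n * (a ^ d * T) := by
      have h2 : (a ^ d * T)⁻¹ * a ^ n * (a ^ d * T) = T⁻¹ * a ^ n * T := by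
        have h3 : (a ^ d)⁻¹ * a ^ n * a ^ d = a ^ n := by
          rw [← zpow_neg, ← zpow_add, ← zpow_add]; congr 1; ring
        calc (a ^ d * T)⁻¹ * a ^ n * (a ^ d * T) = T⁻¹ * ((a ^ d)⁻¹ * a ^ n * a ^ d) * T := by group
          _ = _ := by rw [h3]
      rw [h2, ← hrel]; group
    rw [this]
    exact K.mul_mem (K.mul_mem (K.inv_mem k0) kn) k0
  have kd : a ^ d ∈ K := by
    obtain ⟨x, y, rfl⟩ := hd
    rw [zpow_add, zpow_mul, zpow_mul]
    exact K.mul_mem (K.zpow_mem km x) (K.zpow_mem kn y)
  have kT : T ∈ K := by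
    have : T = (a ^ d)⁻¹ * (a ^ d * T) := by group
    rw [this]
    exact K.mul_mem (K.inv_mem kd) k0
  have ka : a ∈ K := by
    have : a = T⁻¹ * (T * a * T⁻¹) * T := by group
    rw [this]
    exact K.mul_mem (K.mul_mem (K.inv_mem kT) k1) kT
  have hKtop : K = ⊤ := by
    rw [← top_le_iff, ← PresentedGroup.closure_range_of, Subgroup.closure_le]
    rintro _ ⟨i, rfl⟩
    fin_cases i
    · exact kT
    · exact ka
  unfold Generates
  rw [← top_le_iff]
  intro x _
  have hx : T * x * T⁻¹ ∈ K := by rw [hKtop]; trivial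
  obtain ⟨y, hy, hyx⟩ := hx
  have h5 : T * y * T⁻¹ = T * x * T⁻¹ := hyx
  have h6 : y = x := by
    have := mul_right_cancel h5
    exact mul_left_cancel this
  rwa [← h6]

end Pool.Agent.NE
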