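import Pool.Agent.helper43.NE.BSHnn

/-!
# MP_5c1f29_al: failure of (N) for Baumslag-Solitar groups
-/

set_option autoImplicit false

open HNNExtension

namespace Pool.Agent.NE

section

variable (m n d : ℤ)

/-- the cyclically reduced word of the commutator of `pr2` -/
def l0 : List (ℤˣ × Multiplicative ℤ) :=
  [(-1, Multiplicative.ofAdd d), (1, 1), (1, Multiplicative.ofAdd 1), (-1, 1),
    (-1, Multiplicative.ofAdd (-d)), (1, Multiplicative.ofAdd (-1))]

/-- its powers -/
def lrep : ℕ → List (ℤˣ × Multiplicative ℤ)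
  | 0 => []
  | k + 1 => l0 d ++ lrep k

theorem lrep_length (k : ℕ) : (lrep d k).length = 6 * k := by
  induction k with
  | zero => rfl
  | succ k ih =>
    rw [lrep, List.length_append, ih]
    show 6 + 6 * k = _
    ring

theorem lrep_chain (h1 : ¬ m ∣ 1) (h2 : ¬ n ∣ d) (k : ℕ) :
    (lrep d k).IsChain (fun a b => a.2 ∈ toSubgroup (zp m).range (zp n).range a.1 → a.1 = b.1) ∧
      ∀ y ∈ (lrep d k).head?, y = ((-1 : ℤˣ), Multiplicative.ofAdd d) := by
  have e1 : Multiplicative.ofAdd d ∉ (zp n).range := by rwa [mem_zp]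
  have e2 : Multiplicative.ofAdd (1 : ℤ) ∉ (zp m).range := by rwa [mem_zp]
  have e3 : Multiplicative.ofAdd (-d) ∉ (zp n).range := by rwa [mem_zp, dvd_neg]
  have e4 : Multiplicative.ofAdd (-1 : ℤ) ∉ (zp m).range := by rwa [mem_zp, dvd_neg]
  induction k with
  | zero => exact ⟨List.isChain_nil, by simp [lrep]⟩
  | succ k ih =>
    refine ⟨?_, by simp [lrep, l0]⟩
    rw [lrep, List.isChain_append]
    refine ⟨?_, ih.1, ?_⟩
    · simp only [l0, List.isChain_cons_cons, List.isChain_singleton, and_true,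
        toSubgroup_neg_one, toSubgroup_one]
      exact ⟨fun h => absurd h e1, fun _ => trivial, fun h => absurd h e2, fun _ => trivial,
        fun h => absurd h e3⟩
    · intro x hx y hy
      have hx' : x = ((1 : ℤˣ), Multiplicative.ofAdd (-1 : ℤ)) := by
        simpa [l0] using hx.symm
      subst hx'
      intro h
      exact absurd h e4

end

/-- the failure of (N) -/
theorem bs_not_equiv (m n d : ℤ) (hm : m ≠ 0) (hn : n ≠ 0) (h1 : ¬ m ∣ 1) (h2 : ¬ n ∣ d) :
    ¬ NielsenEquiv (ta m n) (pr2 m n d) := by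
  intro he
  obtain ⟨dd⟩ := NormalWord.TransversalPair.nonempty (Multiplicative ℤ) (zp m).range (zp n).range
  obtain ⟨c, hc⟩ := cm_equiv he
  set Φ := bsHnn m n hm hn with hΦ
  let f : ℤˣ × Multiplicative ℤ → HB m n hm hn := fun x => t ^ (x.1 : ℤ) * of x.2
  have hinv : ∀ j : ℤ, (of (Multiplicative.ofAdd (-j)) : HB m n hm hn) =
      (of (Multiplicative.ofAdd j))⁻¹ := by
    intro j; rw [← map_inv, ← ofAdd_neg]
  -- the image of the commutator of the second pair
  have hv : Φ (cm (pr2 m n d)) = ((l0 d).map f).prod := by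
    have e : cm (pr2 m n d) = (PresentedGroup.of 0)⁻¹ * PresentedGroup.of 1 ^ d *
        PresentedGroup.of 0 ^ 2 * PresentedGroup.of 1 *
        ((PresentedGroup.of 0)⁻¹ * PresentedGroup.of 1 ^ d * PresentedGroup.of 0 ^ 2)⁻¹ *
        (PresentedGroup.of 1)⁻¹ := rfl
    rw [e]
    simp only [map_mul, map_inv, map_zpow, map_pow, hΦ, bsHnn_t, bsHnn_a]
    have e2 : (of (Multiplicative.ofAdd (1 : ℤ)) : HB m n hm hn) ^ d =
        of (Multiplicative.ofAdd d) := by
      rw [← map_zpow, ← ofAdd_zsmul, smul_eq_mul, mul_one]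
    rw [e2]
    simp only [l0, List.map_cons, List.map_nil, List.prod_cons, List.prod_nil, f, hinv,
      Units.val_neg, Units.val_one, map_one, pow_two]
    group
  have hlen : ∀ k : ℕ, len dd ((Φ (cm (pr2 m n d))) ^ k) = 6 * k := by
    intro k
    have hp : ((lrep d k).map f).prod = (Φ (cm (pr2 m n d))) ^ k := by
      induction k with
      | zero => simp [lrep]
      | succ k ih => rw [lrep, List.map_append, List.prod_append, ih, hv, pow_succ']
    let w : NormalWord.ReducedWord (Multiplicative ℤ) (zp m).range (zp n).range :=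
      ⟨1, lrep d k, (lrep_chain m n d h1 h2 k).1⟩
    have hw : w.prod (bsIso m n hm hn) = (Φ (cm (pr2 m n d))) ^ k := by
      rw [← hp]
      show of 1 * _ = _
      rw [map_one, one_mul]
    rw [← hw, len_reduced]
    exact lrep_length d k
  -- the image of the commutator of the first pair
  set u := Φ (cm (ta m n)) with hu
  have hu' : u = t * of (Multiplicative.ofAdd 1) * t⁻¹ * (of (Multiplicative.ofAdd 1))⁻¹ := by
    have e : cm (ta m n) = PresentedGroup.of 0 * PresentedGroup.of 1 * (PresentedGroup.of 0)⁻¹ *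
        (PresentedGroup.of 1)⁻¹ := rfl
    rw [hu, e]
    simp only [map_mul, map_inv, hΦ, bsHnn_t, bsHnn_a]
  have hu1 : len dd u ≤ 2 := by
    have e : u = (([((1 : ℤˣ), Multiplicative.ofAdd (1 : ℤ)),
        (-1, Multiplicative.ofAdd (-1 : ℤ))]).map f).prod * 1 := by
      rw [hu']
      simp only [List.map_cons, List.map_nil, List.prod_cons, List.prod_nil, f, hinv,
        Units.val_neg, Units.val_one]
      group
    rw [e]
    refine (len_list_mul dd _ _).trans ?_
    rw [len_one]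
    simp
  have hu2 : len dd u⁻¹ ≤ 2 := by
    have e : u⁻¹ = of (Multiplicative.ofAdd 1) * ((([((1 : ℤˣ), Multiplicative.ofAdd (-1 : ℤ)),
        (-1, 1)]).map f).prod * 1) := by
      rw [hu']
      simp only [List.map_cons, List.map_nil, List.prod_cons, List.prod_nil, f, hinv,
        Units.val_neg, Units.val_one, map_one]
      group
    rw [e, len_of_mul]
    refine (len_list_mul dd _ _).trans ?_
    rw [len_one]
    simp
  have key : ∀ x : HB m n hm hn, len dd x ≤ 2 →
      Φ (cm (pr2 m n d)) = Φ c * x * (Φ c)⁻¹ → False := by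
    intro x hx hxe
    set k := len dd (Φ c) + len dd (Φ c)⁻¹ + 1 with hk
    have h3 := hlen k
    rw [hxe, conj_pow] at h3
    have h4 := (len_mul dd (Φ c * x ^ k) (Φ c)⁻¹)
    have h5 := (len_mul dd (Φ c) (x ^ k))
    have h6 := len_pow dd x k
    have h7 : k * len dd x ≤ k * 2 := Nat.mul_le_mul_left k hx
    omega
  rcases hc with hc | hc
  · refine key u hu1 ?_
    rw [hc, map_mul, map_mul, map_inv]
  · refine key u⁻¹ hu2 ?_
    rw [hc, map_mul, map_mul, map_inv, map_inv]

/-- Case (II): `|m| ≥ 2` and `n ∤ m`. -/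
theorem bs_neg (m n : ℤ) (hm : m ≠ 0) (hn : n ≠ 0) (h1 : ¬ m ∣ 1) (h2 : ¬ n ∣ m) :
    ¬ PropertyN (BS m n) := by
  intro hN
  have hd : ¬ n ∣ (Int.gcd m n : ℤ) := fun h => h2 (h.trans (Int.gcd_dvd_left m n))
  have hg : Generates (pr2 m n (Int.gcd m n)) :=
    pr2_generates m n _ ⟨Int.gcdA m n, Int.gcdB m n, Int.gcd_eq_gcd_ab m n⟩
  exact bs_not_equiv m n _ hm hn h1 hd (hN 2 _ _ (ta_isMinGen m n hm hn)
    ⟨hg, bs_rank m n hm hn⟩)

/-! ### the determinant, `BS(1, n)` with `n` composite -/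

theorem bs_det (m n k : ℤ) (hm : m ≠ 0) (hn : n ≠ 0) (g : Fin 2 → BS m n)
    (h0 : g 0 = PresentedGroup.of 0) (h1 : g 1 = PresentedGroup.of 1 ^ k)
    (he : NielsenEquiv (ta m n) g) :
    ∃ (e : ℤ) (j : ℤ), (e = 1 ∨ e = -1) ∧ (k : ℚ) = e * ((n : ℚ) / m) ^ j := by
  have hm' : (m : ℚ) ≠ 0 := Int.cast_ne_zero.2 hm
  have hn' : (n : ℚ) ≠ 0 := Int.cast_ne_zero.2 hn
  let r : ℚˣ := Units.mk0 ((n : ℚ) / m) (div_ne_zero hn' hm')
  let S : Subgroup ℚˣ :=
    { carrier := {x | ∃ (e j : ℤ), (e = 1 ∨ e = -1) ∧ (x : ℚ) = e * ((n : ℚ) / m) ^ j}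
      mul_mem' := by
        rintro x y ⟨e, j, he, hx⟩ ⟨e', j', he', hy⟩
        refine ⟨e * e', j + j', ?_, ?_⟩
        · rcases he with rfl | rfl <;> rcases he' with rfl | rfl <;> simp
        · rw [Units.val_mul, hx, hy, zpow_add₀ (div_ne_zero hn' hm')]
          push_cast; ring
      one_mem' := ⟨1, 0, Or.inl rfl, by simp⟩
      inv_mem' := by
        rintro x ⟨e, j, he, hx⟩
        refine ⟨e, -j, he, ?_⟩
        rw [Units.val_inv_eq_inv_val, hx, mul_inv, zpow_neg]
        congr 1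
        rcases he with rfl | rfl <;> norm_num }
  have hS : ∀ x, (bsRep m n hm hn x).a ∈ S := by
    have hH : S.comap ((Aff.lin).comp (bsRep m n hm hn)) = ⊤ := by
      rw [← top_le_iff, ← PresentedGroup.closure_range_of, Subgroup.closure_le]
      rintro _ ⟨i, rfl⟩
      fin_cases i
      · show (bsRep m n hm hn (PresentedGroup.of 0)).a ∈ S
        rw [bsRep_t]
        exact ⟨1, 1, Or.inl rfl, by simp⟩
      · show (bsRep m n hm hn (PresentedGroup.of 1)).a ∈ S
        rw [bsRep_a]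
        exact one_mem S
    intro x
    have : x ∈ S.comap ((Aff.lin).comp (bsRep m n hm hn)) := by rw [hH]; trivial
    exact this
  have hmin : -1 ∈ S := ⟨-1, 0, Or.inr rfl, by simp⟩
  obtain ⟨u, ⟨e, j, he1, hu⟩, h2⟩ := dt_equiv (bsRep m n hm hn) S hmin hS he
  have hz : ∀ k : ℤ, ((⟨1, Pi.single 1 1⟩ : Aff ℚ (Fin 2 → ℚ)) ^ k).v =
      (k : ℚ) • Pi.single 1 1 := by
    intro k
    let f : Multiplicative ℤ →* Aff ℚ (Fin 2 → ℚ) :=
      { toFun := fun j => ⟨1, ((Multiplicative.toAdd j : ℤ) : ℚ) • Pi.single 1 1⟩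
        map_one' := Aff.ext rfl (by simp)
        map_mul' := by
          intro x y
          refine Aff.ext (by simp) ?_
          simp [add_smul] }
    have h1 : (⟨1, Pi.single 1 1⟩ : Aff ℚ (Fin 2 → ℚ)) = f (Multiplicative.ofAdd 1) :=
      Aff.ext rfl (by simp [f])
    rw [h1, ← map_zpow, ← ofAdd_zsmul]
    simp [f]
  have d1 : dt (bsRep m n hm hn) (ta m n) = 1 := by
    unfold dt
    rw [Matrix.det_fin_two]
    have e0 : bsRep m n hm hn (ta m n 0) = _ := bsRep_t m n hm hn
    have e1 : bsRep m n hm hn (ta m n 1) = _ := bsRep_a m n hm hn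
    simp only [Matrix.of_apply, e0, e1]
    simp
  have d2 : dt (bsRep m n hm hn) g = k := by
    unfold dt
    rw [Matrix.det_fin_two]
    simp only [Matrix.of_apply, h0, h1, map_zpow, bsRep_t, bsRep_a, hz]
    simp
  rw [d1, d2, mul_one, hu] at h2
  exact ⟨e, j, he1, h2⟩

/-- `BS(1, n)`, `n` composite -/
theorem bs_one_neg (n k l : ℤ) (hn : n = k * l) (hk : 1 < |k|) (hl : 1 < |l|) :
    ¬ PropertyN (BS 1 n) := by
  intro hN
  have hn0 : n ≠ 0 := by
    rintro rfl
    rcases mul_eq_zero.1 hn.symm with h | h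
    · rw [h, abs_zero] at hk; norm_num at hk
    · rw [h, abs_zero] at hl; norm_num at hl
  let g : Fin 2 → BS 1 n := fun i => if i = 0 then PresentedGroup.of 0 else PresentedGroup.of 1 ^ k
  have hg : Generates g := by
    have h0 : (PresentedGroup.of 0 : BS 1 n) ∈ Subgroup.closure (Set.range g) :=
      Subgroup.subset_closure ⟨0, rfl⟩
    have h1 : (PresentedGroup.of 1 : BS 1 n) ^ k ∈ Subgroup.closure (Set.range g) :=
      Subgroup.subset_closure ⟨1, rfl⟩
    have hrel : (PresentedGroup.of 0 : BS 1 n) * PresentedGroup.of 1 ^ (1 : ℤ) *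
        (PresentedGroup.of 0)⁻¹ = PresentedGroup.of 1 ^ n := bs_rel
    have h2 : (PresentedGroup.of 1 : BS 1 n) ∈ Subgroup.closure (Set.range g) := by
      have e : (PresentedGroup.of 1 : BS 1 n) = (PresentedGroup.of 0)⁻¹ *
          (PresentedGroup.of 1 ^ k) ^ l * PresentedGroup.of 0 := by
        rw [← zpow_mul, ← hn, ← hrel]; group
      rw [e]
      exact Subgroup.mul_mem _ (Subgroup.mul_mem _ (Subgroup.inv_mem _ h0)
        (Subgroup.zpow_mem _ h1 l)) h0
    unfold Generates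
    rw [← top_le_iff, ← PresentedGroup.closure_range_of, Subgroup.closure_le]
    rintro _ ⟨i, rfl⟩
    fin_cases i
    · exact h0
    · exact h2
  have h1 := hN 2 _ g (ta_isMinGen 1 n one_ne_zero hn0) ⟨hg, bs_rank 1 n one_ne_zero hn0⟩
  obtain ⟨e, j, he, hj⟩ := bs_det 1 n k one_ne_zero hn0 g rfl rfl h1
  have hkabs : (|k| : ℚ) = (|n| : ℚ) ^ j := by
    have := congrArg abs hj
    rw [abs_mul, abs_zpow] at this
    have he' : |(e : ℚ)| = 1 := by rcases he with rfl | rfl <;> norm_num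
    rw [he', one_mul] at this
    simpa using this
  have hk1 : (1 : ℚ) < |(k : ℚ)| := by exact_mod_cast hk
  have hl1 : (1 : ℚ) < |(l : ℚ)| := by exact_mod_cast hl
  have hn1 : |(n : ℚ)| = |(k : ℚ)| * |(l : ℚ)| := by rw [hn]; push_cast; rw [abs_mul]
  have hn2 : (1 : ℚ) < |(n : ℚ)| := by rw [hn1]; nlinarith
  have hkn : |(k : ℚ)| < |(n : ℚ)| := by rw [hn1]; nlinarith
  rcases lt_or_ge j 1 with h | h
  · have : |(n : ℚ)| ^ j ≤ 1 := zpow_le_one_of_nonpos₀ hn2.le (by omega)
    linarith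
  · have : |(n : ℚ)| ^ (1 : ℤ) ≤ |(n : ℚ)| ^ j := zpow_le_zpow_right₀ hn2.le h
    rw [zpow_one] at this
    linarith

end Pool.Agent.NE
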