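import Pool.Agent.helper43.NE.Defs

/-!
# MP_5c1f29_al: basic facts on Nielsen equivalence
-/

set_option autoImplicit false

namespace Pool.Agent.NE

variable {G : Type} [Group G] {n : ℕ}

theorem NielsenEquiv.refl (g : Fin n → G) : NielsenEquiv g g := Relation.ReflTransGen.refl

theorem NielsenEquiv.trans {g h k : Fin n → G} (h1 : NielsenEquiv g h) (h2 : NielsenEquiv h k) :
    NielsenEquiv g k := Relation.ReflTransGen.trans h1 h2

theorem NielsenEquiv.of_step {g h : Fin n → G} (h1 : Step g h) : NielsenEquiv g h :=
  Relation.ReflTransGen.single h1

theorem step_symm {g h : Fin n → G} (hs : Step g h) : NielsenEquiv h g := by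
  cases hs with
  | perm σ =>
    have h1 := Step.perm (g ∘ σ) σ⁻¹
    have h2 : (g ∘ σ) ∘ (σ⁻¹ : Equiv.Perm (Fin n)) = g := by
      funext i; simp
    rw [h2] at h1
    exact NielsenEquiv.of_step h1
  | inv i =>
    have h1 := Step.inv (Function.update g i (g i)⁻¹) i
    simp only [Function.update_self, Function.update_idem, inv_inv, Function.update_eq_self] at h1
    exact NielsenEquiv.of_step h1
  | mul i j hij =>
    -- invert `g j`, multiply, invert again
    set a := Function.update g i (g i * g j) with ha
    have haj : a j = g j := by simp [ha, hij]
    have hai : a i = g i * g j := by simp [ha]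
    have h1 := Step.inv a j
    set b := Function.update a j (a j)⁻¹ with hb
    have hbi : b i = g i * g j := by rw [hb, Function.update_of_ne hij.symm, hai]
    have hbj : b j = (g j)⁻¹ := by rw [hb, Function.update_self, haj]
    have h2 := Step.mul b i j hij
    set c := Function.update b i (b i * b j) with hc
    have hci : c i = g i := by rw [hc, Function.update_self, hbi, hbj, mul_inv_cancel_right]
    have hcj : c j = (g j)⁻¹ := by rw [hc, Function.update_of_ne hij, hbj]
    have h3 := Step.inv c j
    have h4 : Function.update c j (c j)⁻¹ = g := by
      funext k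
      by_cases hkj : k = j
      · subst hkj; rw [Function.update_self, hcj, inv_inv]
      · rw [Function.update_of_ne hkj]
        by_cases hki : k = i
        · subst hki; exact hci
        · rw [hc, Function.update_of_ne hki, hb, Function.update_of_ne hkj, ha,
            Function.update_of_ne hki]
    rw [h4] at h3
    exact ((NielsenEquiv.of_step h1).trans (NielsenEquiv.of_step h2)).trans
      (NielsenEquiv.of_step h3)

theorem NielsenEquiv.symm {g h : Fin n → G} (h1 : NielsenEquiv g h) : NielsenEquiv h g := by
  induction h1 with
  | refl => exact NielsenEquiv.refl g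
  | tail _ hs ih => exact (step_symm hs).trans ih

/-- multiplication of an entry by an element of the group generated by the others. -/
theorem equiv_update_mul (g : Fin n → G) (i : Fin n) (x : G)
    (hx : x ∈ Subgroup.closure (g '' {j | j ≠ i})) (a : G) :
    NielsenEquiv (Function.update g i a) (Function.update g i (a * x)) := by
  induction hx using Subgroup.closure_induction generalizing a with
  | mem x hx =>
    obtain ⟨j, hj, rfl⟩ := hx
    have h := Step.mul (Function.update g i a) i j hj
    rw [Function.update_self, Function.update_of_ne hj, Function.update_idem] at h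
    exact NielsenEquiv.of_step h
  | one => rw [mul_one]; exact NielsenEquiv.refl _
  | mul x y _ _ ihx ihy =>
    rw [← mul_assoc]
    exact (ihx a).trans (ihy (a * x))
  | inv x _ ihx =>
    have h := ihx (a * x⁻¹)
    rw [inv_mul_cancel_right] at h
    exact h.symm

/-- Nielsen equivalent tuples generate the same subgroup. -/
theorem step_closure {g h : Fin n → G} (hs : Step g h) :
    Subgroup.closure (Set.range h) ≤ Subgroup.closure (Set.range g) := by
  have hmem : ∀ k, g k ∈ Subgroup.closure (Set.range g) :=
    fun k => Subgroup.subset_closure ⟨k, rfl⟩
  rw [Subgroup.closure_le]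
  rintro _ ⟨k, rfl⟩
  cases hs with
  | perm σ => exact hmem (σ k)
  | inv i =>
    by_cases hk : k = i
    · subst hk; rw [Function.update_self]; exact inv_mem (hmem k)
    · rw [Function.update_of_ne hk]; exact hmem k
  | mul i j hij =>
    by_cases hk : k = i
    · subst hk; rw [Function.update_self]; exact mul_mem (hmem k) (hmem j)
    · rw [Function.update_of_ne hk]; exact hmem k

theorem NielsenEquiv.generates {g h : Fin n → G} (he : NielsenEquiv g h) (hg : Generates h) :
    Generates g := by
  induction he with
  | refl => exact hg
  | tail _ hs ih =>
    apply ih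
    unfold Generates at hg ⊢
    rw [← top_le_iff, ← hg]
    exact step_closure hs

end Pool.Agent.NE
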