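import Pool.Agent.helper43.NE.Root

/-!
# MP_5c1f29_al: the Nielsen classes of the tuples `(x_1, …, x_n, b^s)`
-/

set_option autoImplicit false

open Finset

namespace Pool.Agent.NE

variable {n : ℕ}

theorem mon_neg_one (B : Type) [CommRing B] (q : ℕ) : -1 ∈ (mon B q).range := by
  refine ⟨(-1, 1), ?_⟩
  apply Units.ext
  have h := mon_val B q (-1) 0
  rw [ofAdd_zero] at h
  rw [h]
  simp [AddMonoidAlgebra.one_def]

theorem gen_pow (B : Type) [CommRing B] (q : ℕ) (s : ℤ) :
    (mon B q (1, Multiplicative.ofAdd 1)) ^ s = mon B q (1, Multiplicative.ofAdd (s : ZMod q)) := by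
  rw [← map_zpow]
  congr 1
  rw [Prod.pow_mk, one_zpow, ← ofAdd_zsmul, zsmul_one]

theorem gen_pow_q (B : Type) [CommRing B] (q : ℕ) :
    (mon B q (1, Multiplicative.ofAdd 1)) ^ q = 1 := by
  have h := gen_pow B q q
  rw [zpow_natCast] at h
  rw [h, Int.cast_natCast, ZMod.natCast_self, ofAdd_zero]
  exact map_one _

/-- Comparison of coefficients in the group ring of the cyclic group of order `q`. -/
theorem compare (B : Type) [CommRing B] [Nontrivial B] (q : ℕ) (a a' j : ZMod q) (c : Bˣ)
    (h : (AddMonoidAlgebra.single a' (1 : B) - 1 : AddMonoidAlgebra B (ZMod q)) =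
      AddMonoidAlgebra.single j (c : B) * (AddMonoidAlgebra.single a 1 - 1)) :
    a' = a ∨ a' = -a := by
  classical
  rw [mul_sub, mul_one, AddMonoidAlgebra.single_mul_single, mul_one, AddMonoidAlgebra.one_def] at h
  have hc : (c : B) ≠ 0 := c.ne_zero
  have hco : ∀ x : ZMod q, (if a' = x then (1 : B) else 0) - (if 0 = x then 1 else 0) =
      (if j + a = x then (c : B) else 0) - (if j = x then (c : B) else 0) := by
    intro x
    have := congrArg (fun f : AddMonoidAlgebra B (ZMod q) => f.coeff x) h
    simpa [AddMonoidAlgebra.coeff_sub, AddMonoidAlgebra.coeff_single, Finsupp.single_apply] using this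
  by_cases h0 : a' = 0
  · subst h0
    have h1 := hco j
    rw [sub_self] at h1
    by_cases ha : a = 0
    · left; exact ha.symm
    · exfalso
      rw [if_neg (by intro h2; exact ha (by simpa using h2)), if_pos rfl] at h1
      apply hc
      have : (c : B) = -(0 - c) := by ring
      rw [this, ← h1, neg_zero]
  · have h1 := hco 0
    rw [if_neg h0, if_pos rfl] at h1
    have h2 := hco a'
    rw [if_pos rfl, if_neg (fun h3 => h0 h3.symm)] at h2
    by_cases hj : j = 0
    · subst hj
      rw [zero_add] at h2
      by_cases ha : a = a'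
      · left; exact ha.symm
      · rw [if_neg ha, if_neg (fun h3 => h0 h3.symm)] at h2; simp at h2
    · rw [if_neg hj] at h1
      by_cases hja : j + a = 0
      · have hj' : j = -a := eq_neg_of_add_eq_zero_left hja
        by_cases h4 : j = a'
        · right; rw [← h4, hj']
        · rw [if_neg h4, if_neg (by rw [hja]; exact fun h5 => h0 h5.symm)] at h2
          simp at h2
      · rw [if_neg hja] at h1; simp at h1

theorem tup_castSucc (w : FreeGroup (Fin (n + 1))) (q : ℕ) (s : ℤ) (i : Fin n) :
    tup w q s (Fin.castSucc i) = PresentedGroup.of (Fin.castSucc i) := by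
  simp [tup]

theorem tup_last (w : FreeGroup (Fin (n + 1))) (q : ℕ) (s : ℤ) :
    tup w q s (Fin.last n) = PresentedGroup.of (Fin.last n) ^ s := by
  simp [tup]

/-- Inequivalence. -/
theorem cls_ne (w : FreeGroup (Fin (n + 1))) (q : ℕ) (hw : FoxZero (killLast w)) (s s' : ℤ)
    (he : NielsenEquiv (tup w q s) (tup w q s')) :
    s' ≡ s [ZMOD q] ∨ s' ≡ -s [ZMOD q] := by
  obtain ⟨B, _, _, ρ, hρ⟩ := hw
  let A := AddMonoidAlgebra B (ZMod q)
  let f : B →+* A := algebraMap B A
  let β : Aˣ := mon B q (1, Multiplicative.ofAdd 1)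
  let e : Fin (n + 1) → A := Pi.single (Fin.last n) 1
  let t : Aff A (Fin (n + 1) → A) := Aff.pt e β
  have ht : t ^ q = 1 := by
    show (Aff.pt e β) ^ q = 1
    rw [← map_pow, gen_pow_q, map_one]
  have hf : fox (fun j => Units.map f.toMonoidHom (ρ j)) (killLast w) = 0 := by
    funext i
    rw [fox_map, hρ]
    simp
  let σ := repr _ t w q ht hf
  have hS : ∀ x, (σ x).a ∈ (mon B q).range := by
    have hH : ((mon B q).range).comap ((Aff.lin).comp σ) = ⊤ := by
      rw [← top_le_iff, ← PresentedGroup.closure_range_of, Subgroup.closure_le]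
      rintro _ ⟨i, rfl⟩
      show (σ (PresentedGroup.of i)).a ∈ (mon B q).range
      refine Fin.lastCases ?_ (fun i => ?_) i
      · show (repr _ t w q ht hf (PresentedGroup.of (Fin.last n))).a ∈ _
        rw [repr_last]
        exact ⟨(1, Multiplicative.ofAdd 1), rfl⟩
      · show (repr _ t w q ht hf (PresentedGroup.of (Fin.castSucc i))).a ∈ _
        rw [repr_castSucc]
        refine ⟨(ρ i, 1), ?_⟩
        simp [mon, f]
        rfl
    intro x
    have : x ∈ ((mon B q).range).comap ((Aff.lin).comp σ) := by rw [hH]; trivial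
    exact this
  have hdt : ∀ r : ℤ, dt σ (tup w q r) = AddMonoidAlgebra.single (r : ZMod q) (1 : B) - 1 := by
    intro r
    have hM : (Matrix.of fun i => (σ (tup w q r i)).v) =
        Matrix.diagonal (Fin.snoc (α := fun _ => A) (fun _ => 1)
          (AddMonoidAlgebra.single (r : ZMod q) (1 : B) - 1)) := by
      ext1 i j
      rw [Matrix.of_apply, Matrix.diagonal_apply]
      refine Fin.lastCases ?_ (fun i => ?_) i
      · have h1 : σ (tup w q r (Fin.last n)) = Aff.pt e (β ^ r) := by
          rw [tup_last, map_zpow, map_zpow]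
          show (repr _ t w q ht hf (PresentedGroup.of (Fin.last n))) ^ r = _
          rw [repr_last]
        rw [h1, gen_pow]
        show (((mon B q (1, Multiplicative.ofAdd (r : ZMod q)) : Aˣ) : A) - 1) * e j = _
        rw [mon_val]
        by_cases hj : Fin.last n = j
        · subst hj
          rw [if_pos rfl, Fin.snoc_last]
          simp [e]
        · rw [if_neg hj]
          simp [e, Pi.single_eq_of_ne (Ne.symm hj)]
      · have h1 : σ (tup w q r (Fin.castSucc i)) =
            ⟨Units.map f.toMonoidHom (ρ i), Pi.single (Fin.castSucc i) 1⟩ := by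
          rw [tup_castSucc]
          exact repr_castSucc _ t w q ht hf i
        rw [h1]
        show (Pi.single (Fin.castSucc i) 1 : Fin (n + 1) → A) j = _
        by_cases hj : Fin.castSucc i = j
        · subst hj
          simp
        · rw [if_neg hj, Pi.single_eq_of_ne (Ne.symm hj)]
    unfold dt
    rw [hM, Matrix.det_diagonal, Fin.prod_univ_castSucc]
    simp
  obtain ⟨u, ⟨⟨c, j⟩, rfl⟩, hu⟩ := dt_equiv σ _ (mon_neg_one B q) hS he
  rw [hdt, hdt] at hu
  have hj : j = Multiplicative.ofAdd (Multiplicative.toAdd j) := rfl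
  rw [hj, mon_val] at hu
  rcases compare B q _ _ _ c hu with h | h
  · left
    rw [← ZMod.intCast_eq_intCast_iff]
    exact h
  · right
    rw [← ZMod.intCast_eq_intCast_iff]
    push_cast
    exact h

end Pool.Agent.NE
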