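import Mathlib

/-!
# MP_5c1f29_al: Nielsen equivalence of minimal generating tuples. Definitions.
-/

set_option autoImplicit false

namespace Pool.Agent.NE

variable {G : Type} [Group G]

/-- The elementary Nielsen transformations of a tuple. -/
inductive Step {n : ℕ} : (Fin n → G) → (Fin n → G) → Prop
  | perm (g : Fin n → G) (σ : Equiv.Perm (Fin n)) : Step g (g ∘ σ)
  | inv (g : Fin n → G) (i : Fin n) : Step g (Function.update g i (g i)⁻¹)
  | mul (g : Fin n → G) (i j : Fin n) (h : j ≠ i) : Step g (Function.update g i (g i * g j))

/-- Nielsen equivalence: a finite sequence of elementary Nielsen transformations. -/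
def NielsenEquiv {n : ℕ} (g h : Fin n → G) : Prop := Relation.ReflTransGen Step g h

/-- The tuple generates the group. -/
def Generates {n : ℕ} (g : Fin n → G) : Prop := Subgroup.closure (Set.range g) = ⊤

/-- The tuple is a minimal generating tuple: it generates, and its length is `d(G)`. -/
def IsMinGen {n : ℕ} (g : Fin n → G) : Prop :=
  Generates g ∧ ∀ (m : ℕ) (h : Fin m → G), Generates h → n ≤ m

/-- Property (N): any two minimal generating tuples are Nielsen equivalent. -/
def PropertyN (G : Type) [Group G] : Prop :=
  ∀ (n : ℕ) (g h : Fin n → G), IsMinGen g → IsMinGen h → NielsenEquiv g h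

end Pool.Agent.NE
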