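import Pool.Agent.helper43.NE.Basic

/-!
# MP_5c1f29_al: the affine group of a module and abelianised Fox derivatives
-/

set_option autoImplicit false

open Finset

namespace Pool.Agent.NE

/-- The affine group of the module `M` over the commutative ring `B`: the pairs `(a, v)`, `a` a unit of
`B` and `v ∈ M`, with `(a, v) (b, w) = (a b, v + a w)`. -/
@[ext] structure Aff (B M : Type) [CommRing B] [AddCommGroup M] [Module B M] where
  /-- the linear part -/
  a : Bˣ
  /-- the translation part -/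
  v : M

section

variable {B M : Type} [CommRing B] [AddCommGroup M] [Module B M]

instance : Mul (Aff B M) := ⟨fun x y => ⟨x.a * y.a, x.v + (x.a : B) • y.v⟩⟩
instance : One (Aff B M) := ⟨⟨1, 0⟩⟩
instance : Inv (Aff B M) := ⟨fun x => ⟨x.a⁻¹, -((x.a⁻¹ : Bˣ) : B) • x.v⟩⟩

@[simp] theorem Aff.mul_a (x y : Aff B M) : (x * y).a = x.a * y.a := rfl
@[simp] theorem Aff.mul_v (x y : Aff B M) : (x * y).v = x.v + (x.a : B) • y.v := rfl
@[simp] theorem Aff.one_a : (1 : Aff B M).a = 1 := rfl
@[simp] theorem Aff.one_v : (1 : Aff B M).v = 0 := rfl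
@[simp] theorem Aff.inv_a (x : Aff B M) : x⁻¹.a = x.a⁻¹ := rfl
@[simp] theorem Aff.inv_v (x : Aff B M) : x⁻¹.v = -((x.a⁻¹ : Bˣ) : B) • x.v := rfl

instance : Group (Aff B M) where
  mul_assoc x y z := by
    refine Aff.ext (mul_assoc _ _ _) ?_
    simp only [Aff.mul_v, Aff.mul_a, Units.val_mul, smul_add, mul_smul, add_assoc]
  one_mul x := Aff.ext (one_mul _) (by simp)
  mul_one x := Aff.ext (mul_one _) (by simp)
  inv_mul_cancel x := Aff.ext (inv_mul_cancel _) (by simp)

/-- The linear part, as a homomorphism. -/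
def Aff.lin : Aff B M →* Bˣ where
  toFun x := x.a
  map_one' := rfl
  map_mul' _ _ := rfl

/-- The stabiliser of the point `-v`. -/
def Aff.pt (v : M) : Bˣ →* Aff B M where
  toFun a := ⟨a, ((a : B) - 1) • v⟩
  map_one' := Aff.ext rfl (by simp)
  map_mul' a b := by
    refine Aff.ext rfl ?_
    simp only [Aff.mul_v, Units.val_mul]
    rw [← mul_smul, ← add_smul]
    congr 1
    ring

end

section fox

variable {B : Type} [CommRing B] {n : ℕ}

/-- The homomorphism `F(x_1, …, x_n) → Aff B (B^n)`, `x_i ↦ (ρ_i, e_i)`. Its translation part is the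
vector of the Fox derivatives, evaluated at `ρ`. -/
def foxHom (ρ : Fin n → Bˣ) : FreeGroup (Fin n) →* Aff B (Fin n → B) :=
  FreeGroup.lift fun i => ⟨ρ i, Pi.single i 1⟩

/-- The vector of the Fox derivatives `∂u/∂x_1, …, ∂u/∂x_n` of the word `u`, evaluated at the units
`ρ_1, …, ρ_n` of the commutative ring `B`. It is the function with `fox ρ x_i = e_i` and
`fox ρ (u v) = fox ρ u + ρ(u) fox ρ v`. -/
def fox (ρ : Fin n → Bˣ) (u : FreeGroup (Fin n)) : Fin n → B := (foxHom ρ u).v

theorem foxHom_a (ρ : Fin n → Bˣ) (u : FreeGroup (Fin n)) :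
    (foxHom ρ u).a = FreeGroup.lift ρ u := by
  have h : (Aff.lin).comp (foxHom ρ) = FreeGroup.lift ρ := by
    ext i
    simp [foxHom, Aff.lin]
  exact DFunLike.congr_fun h u

theorem fox_of (ρ : Fin n → Bˣ) (i : Fin n) : fox ρ (FreeGroup.of i) = Pi.single i 1 := by
  simp [fox, foxHom]

theorem fox_one (ρ : Fin n → Bˣ) : fox ρ 1 = 0 := by
  simp [fox]

theorem fox_mul (ρ : Fin n → Bˣ) (u v : FreeGroup (Fin n)) :
    fox ρ (u * v) = fox ρ u + ((FreeGroup.lift ρ u : Bˣ) : B) • fox ρ v := by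
  unfold fox
  rw [map_mul, Aff.mul_v, foxHom_a]

theorem fox_inv (ρ : Fin n → Bˣ) (u : FreeGroup (Fin n)) :
    fox ρ u⁻¹ = -(((FreeGroup.lift ρ u)⁻¹ : Bˣ) : B) • fox ρ u := by
  unfold fox
  rw [map_inv, Aff.inv_v, foxHom_a]

/-- The fundamental formula: `ρ(u) - 1 = ∑ (∂u/∂x_i) (ρ_i - 1)`. -/
theorem fox_fund (ρ : Fin n → Bˣ) (u : FreeGroup (Fin n)) :
    ((FreeGroup.lift ρ u : Bˣ) : B) - 1 = ∑ i, fox ρ u i * ((ρ i : B) - 1) := by
  induction u using FreeGroup.induction_on with
  | C1 => simp [fox_one]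
  | of i =>
    rw [fox_of, FreeGroup.lift_apply_of, Finset.sum_eq_single i]
    · simp
    · intro j _ hj; simp [Pi.single_eq_of_ne hj]
    · intro h; exact absurd (Finset.mem_univ i) h
  | inv_of i ih =>
    rw [fox_inv, map_inv]
    simp only [Pi.smul_apply, smul_eq_mul, mul_assoc]
    rw [← Finset.mul_sum, ← ih]
    have h : ((((FreeGroup.lift ρ) (FreeGroup.of i))⁻¹ : Bˣ) : B) *
      (((FreeGroup.lift ρ) (FreeGroup.of i) : Bˣ) : B) = 1 := Units.inv_mul _
    linear_combination h
  | mul u v ihu ihv =>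
    rw [fox_mul, map_mul, Units.val_mul]
    simp only [Pi.add_apply, Pi.smul_apply, smul_eq_mul, add_mul, mul_assoc]
    rw [Finset.sum_add_distrib, ← Finset.mul_sum, ← ihu, ← ihv]
    ring

theorem lift_eq_one_of_fox (ρ : Fin n → Bˣ) (u : FreeGroup (Fin n)) (h : fox ρ u = 0) :
    FreeGroup.lift ρ u = 1 := by
  have h1 := fox_fund ρ u
  rw [h] at h1
  simp only [Pi.zero_apply, zero_mul, Finset.sum_const_zero] at h1
  exact Units.ext (sub_eq_zero.1 h1)

theorem foxHom_eq_one (ρ : Fin n → Bˣ) (u : FreeGroup (Fin n)) (h : fox ρ u = 0) :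
    foxHom ρ u = 1 := by
  refine Aff.ext ?_ h
  rw [foxHom_a, lift_eq_one_of_fox ρ u h]
  rfl

/-- The Fox derivatives of `u` have a common zero in some nonzero commutative ring; equivalently, the
abelianised Fox derivatives of `u` generate a proper ideal of the group ring `ℤ[ℤ^n]`. -/
def FoxZero (u : FreeGroup (Fin n)) : Prop :=
  ∃ (B : Type) (_ : CommRing B) (_ : Nontrivial B) (ρ : Fin n → Bˣ), fox ρ u = 0

/-- The exponent sum of `x_i` in `u`. -/
def expSum (i : Fin n) (u : FreeGroup (Fin n)) : ℤ :=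
  Multiplicative.toAdd (FreeGroup.lift (fun j => Multiplicative.ofAdd (if j = i then (1 : ℤ) else 0)) u)

theorem fox_one_eq (u : FreeGroup (Fin n)) (i : Fin n) :
    fox (fun _ => (1 : Bˣ)) u i = ((expSum i u : ℤ) : B) := by
  have hl : ∀ v : FreeGroup (Fin n), FreeGroup.lift (fun _ : Fin n => (1 : Bˣ)) v = 1 := by
    intro v
    have : FreeGroup.lift (fun _ : Fin n => (1 : Bˣ)) = 1 := by ext j; simp
    rw [this]; rfl
  have hmul : ∀ v w : FreeGroup (Fin n), expSum i (v * w) = expSum i v + expSum i w := by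
    intro v w; simp [expSum]
  induction u using FreeGroup.induction_on with
  | C1 => simp [fox_one, expSum]
  | of j =>
    rw [fox_of]
    by_cases h : j = i
    · subst h; simp [expSum]
    · rw [Pi.single_eq_of_ne (Ne.symm h)]; simp [expSum, h]
  | inv_of j ih =>
    rw [fox_inv, hl]
    simp only [inv_one, Units.val_one, Pi.smul_apply, smul_eq_mul]
    have : expSum i (FreeGroup.of j)⁻¹ = - expSum i (FreeGroup.of j) := by simp [expSum]
    rw [this, ih]; push_cast; ring
  | mul v w ihv ihw =>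
    rw [fox_mul, hl, hmul]
    simp only [Units.val_one, one_smul, Pi.add_apply]
    rw [ihv, ihw]; push_cast; ring

/-- If the exponent sums of `u` have a common divisor `≠ 1` then the Fox derivatives have a common
zero. This includes the proper powers and the elements of the commutator subgroup. -/
theorem foxZero_of_dvd (u : FreeGroup (Fin n)) (k : ℕ) (hk : k ≠ 1)
    (h : ∀ i, (k : ℤ) ∣ expSum i u) : FoxZero u := by
  refine ⟨ZMod k, inferInstance, ?_, fun _ => 1, ?_⟩
  · rcases Nat.lt_or_ge k 1 with h0 | h0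
    · have : k = 0 := by omega
      subst this
      exact inferInstanceAs (Nontrivial ℤ)
    · have : Fact (1 < k) := ⟨by omega⟩
      infer_instance
  · funext i
    rw [fox_one_eq]
    exact (ZMod.intCast_zmod_eq_zero_iff_dvd _ _).2 (h i)

end fox

end Pool.Agent.NE
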