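import Pool.Agent.helper43.NE.Grushko

/-!
# MP_5c1f29_al: the tree of `BS(0, M) = ⟨t, a | a^M⟩ = ℤ * ℤ/M`
-/

set_option autoImplicit false

namespace Pool.Agent.NE

open TreeLen (pw)

/-! ### common prefixes -/

/-- the length of the longest common prefix -/
def lcp {α : Type} [DecidableEq α] : List α → List α → ℕ
  | x :: u, y :: w => if x = y then lcp u w + 1 else 0
  | [], _ => 0
  | _ :: _, [] => 0

section lcp

variable {α : Type} [DecidableEq α]

theorem lcp_cons (x y : α) (u w : List α) :
    lcp (x :: u) (y :: w) = if x = y then lcp u w + 1 else 0 := rfl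

@[simp] theorem lcp_nil_left (w : List α) : lcp [] w = 0 := by cases w <;> rfl

@[simp] theorem lcp_nil_right (w : List α) : lcp w [] = 0 := by cases w <;> rfl

theorem lcp_ultra (u : List α) : ∀ w z : List α, min (lcp u z) (lcp z w) ≤ lcp u w := by
  induction u with
  | nil => intro w z; simp
  | cons x u ih =>
    intro w z
    cases z with
    | nil => simp
    | cons s z =>
      cases w with
      | nil => simp
      | cons y w =>
        rw [lcp_cons, lcp_cons, lcp_cons]
        by_cases h1 : x = s
        · by_cases h2 : s = y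
          · rw [if_pos h1, if_pos h2, if_pos (h1.trans h2)]
            have := ih w z
            omega
          · rw [if_neg h2]; simp
        · rw [if_neg h1]; simp

theorem lcp_take (l : List α) : ∀ k, k ≤ l.length → lcp (l.take k) l = k := by
  induction l with
  | nil => intro k hk; simp at hk; subst hk; simp
  | cons x l ih =>
    intro k hk
    cases k with
    | zero => simp
    | succ k =>
      rw [List.take_succ_cons, lcp_cons, if_pos rfl, ih k (by simpa using hk)]

end lcp

/-! ### reduced lists -/

section model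

variable {M : ℕ}

/-- `l` does not start with the inverse of the letter `ε` -/
def ok (ε : Bool) : List (ZMod M × Bool) → Prop
  | [] => True
  | y :: _ => ¬ (y.1 = 0 ∧ y.2 = !ε)

/-- reduced lists -/
def Rd : List (ZMod M × Bool) → Prop
  | [] => True
  | x :: l => ok x.2 l ∧ Rd l

open Classical in
/-- left multiplication by `t` or `t⁻¹` -/
noncomputable def actT (ε : Bool) (l : List (ZMod M × Bool)) : List (ZMod M × Bool) :=
  if ok ε l then (0, ε) :: l else l.tail

/-- left multiplication by a power of `a` -/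
def actA (k : ZMod M) : List (ZMod M × Bool) → List (ZMod M × Bool)
  | [] => []
  | x :: l => (k + x.1, x.2) :: l

theorem not_ok {ε : Bool} {l : List (ZMod M × Bool)} (h : ¬ ok ε l) : ∃ l', l = (0, !ε) :: l' := by
  cases l with
  | nil => exact absurd trivial h
  | cons y l =>
    unfold ok at h
    push Not at h
    exact ⟨l, by rw [← h.1, ← h.2]⟩

theorem not_ok_cons (ε : Bool) (l : List (ZMod M × Bool)) : ¬ ok ε ((0, !ε) :: l) := by
  unfold ok; simp

theorem actT_ok {ε : Bool} {l : List (ZMod M × Bool)} (h : ok ε l) : actT ε l = (0, ε) :: l :=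
  if_pos h

theorem actT_not_ok (ε : Bool) (l : List (ZMod M × Bool)) : actT ε ((0, !ε) :: l) = l := by
  unfold actT; rw [if_neg (not_ok_cons ε l)]; rfl

theorem rd_actT (ε : Bool) {l : List (ZMod M × Bool)} (h : Rd l) : Rd (actT ε l) := by
  by_cases h1 : ok ε l
  · rw [actT_ok h1]; exact ⟨h1, h⟩
  · obtain ⟨l', rfl⟩ := not_ok h1
    rw [actT_not_ok]; exact h.2

theorem actT_actT (ε : Bool) {l : List (ZMod M × Bool)} (h : Rd l) :
    actT (!ε) (actT ε l) = l := by
  by_cases h1 : ok ε l
  · rw [actT_ok h1]
    have := actT_not_ok (!ε) l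
    rw [Bool.not_not] at this
    exact this
  · obtain ⟨l', rfl⟩ := not_ok h1
    rw [actT_not_ok, actT_ok h.1]

theorem rd_actA (k : ZMod M) {l : List (ZMod M × Bool)} (h : Rd l) : Rd (actA k l) := by
  cases l with
  | nil => exact h
  | cons x l => exact h

theorem actA_actA (k j : ZMod M) (l : List (ZMod M × Bool)) :
    actA k (actA j l) = actA (k + j) l := by
  cases l with
  | nil => rfl
  | cons x l => simp [actA, add_assoc]

theorem actA_zero (l : List (ZMod M × Bool)) : actA 0 l = l := by
  cases l with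
  | nil => rfl
  | cons x l => simp [actA]

/-- the vertices of the tree -/
abbrev Vx (M : ℕ) : Type := {l : List (ZMod M × Bool) // Rd l}

/-- the base vertex -/
def v0 (M : ℕ) : Vx M := ⟨[], trivial⟩

/-- `t` as a permutation -/
noncomputable def permT (M : ℕ) : Equiv.Perm (Vx M) where
  toFun v := ⟨actT true v.1, rd_actT true v.2⟩
  invFun v := ⟨actT false v.1, rd_actT false v.2⟩
  left_inv v := Subtype.ext (actT_actT true v.2)
  right_inv v := Subtype.ext (actT_actT false v.2)

/-- powers of `a` as permutations -/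
def permA (M : ℕ) (k : ZMod M) : Equiv.Perm (Vx M) where
  toFun v := ⟨actA k v.1, rd_actA k v.2⟩
  invFun v := ⟨actA (-k) v.1, rd_actA (-k) v.2⟩
  left_inv v := Subtype.ext (by
    show actA (-k) (actA k v.1) = v.1
    rw [actA_actA, neg_add_cancel, actA_zero])
  right_inv v := Subtype.ext (by
    show actA k (actA (-k) v.1) = v.1
    rw [actA_actA, add_neg_cancel, actA_zero])

theorem permA_zpow (M : ℕ) (j : ℤ) : permA M 1 ^ j = permA M (j : ZMod M) := by
  let f : Multiplicative ℤ →* Equiv.Perm (Vx M) :=
    { toFun := fun j => permA M ((Multiplicative.toAdd j : ℤ) : ZMod M)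
      map_one' := by
        ext v : 2
        show actA (((0 : ℤ) : ZMod M)) v.1 = v.1
        rw [Int.cast_zero, actA_zero]
      map_mul' := by
        intro x y
        ext v : 2
        show actA (((Multiplicative.toAdd (x * y) : ℤ)) : ZMod M) v.1 = actA _ (actA _ v.1)
        rw [actA_actA, toAdd_mul, Int.cast_add] }
  have h1 : permA M 1 = f (Multiplicative.ofAdd 1) := by
    show permA M 1 = permA M (((1 : ℤ)) : ZMod M)
    rw [Int.cast_one]
  rw [h1, ← map_zpow, ← ofAdd_zsmul]
  show permA M ((j • (1 : ℤ) : ℤ) : ZMod M) = _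
  rw [smul_eq_mul, mul_one]

theorem permA_zero (M : ℕ) : permA M 0 = 1 := by
  have := permA_zpow M 0
  rw [zpow_zero, Int.cast_zero] at this
  exact this.symm

/-- the action on the tree -/
noncomputable def rho (M : ℕ) : BS 0 M →* Equiv.Perm (Vx M) :=
  bsLift (permT M) (permA M 1) (by
    rw [zpow_zero, mul_one, mul_inv_cancel, permA_zpow]
    rw [Int.cast_natCast, ZMod.natCast_self, permA_zero])

/-- the generator `t` -/
abbrev qt (M : ℕ) : BS 0 M := PresentedGroup.of 0
/-- the generator `a` -/
abbrev qa (M : ℕ) : BS 0 M := PresentedGroup.of 1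

theorem rho_t (v : Vx M) : ((rho M (qt M)) v).1 = actT true v.1 := by
  unfold rho; rw [bsLift_t]; rfl

theorem rho_t_inv (v : Vx M) : ((rho M (qt M)⁻¹) v).1 = actT false v.1 := by
  unfold rho; rw [map_inv, bsLift_t]; rfl

theorem rho_a (j : ℤ) (v : Vx M) : ((rho M (qa M ^ j)) v).1 = actA (j : ZMod M) v.1 := by
  unfold rho; rw [map_zpow, bsLift_a, permA_zpow]; rfl

theorem rho_pw (b : Bool) (v : Vx M) : ((rho M (pw (qt M) b)) v).1 = actT b v.1 := by
  cases b
  · exact rho_t_inv v
  · exact rho_t v

/-- induction on elements of `BS(0, M)` -/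
theorem bs_induction {P : BS 0 M → Prop} (h1 : P 1) (ht : ∀ b x, P x → P (pw (qt M) b * x))
    (ha : ∀ (j : ℤ) x, P x → P (qa M ^ j * x)) (x : BS 0 M) : P x := by
  have hx : x ∈ Subgroup.closure (Set.range (PresentedGroup.of : Fin 2 → BS 0 M)) := by
    rw [PresentedGroup.closure_range_of]; trivial
  induction hx using Subgroup.closure_induction_left with
  | one => exact h1
  | mul_left x hx y hy ih =>
    obtain ⟨l, rfl⟩ := hx
    fin_cases l
    · exact ht true y ih
    · have := ha 1 y ih
      rwa [zpow_one] at this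
  | inv_mul_cancel x hx y hy ih =>
    obtain ⟨l, rfl⟩ := hx
    fin_cases l
    · exact ht false y ih
    · have := ha (-1) y ih
      rwa [zpow_neg, zpow_one] at this

/-- distance in the tree -/
def dst (u w : List (ZMod M × Bool)) : ℤ := u.length + w.length - 2 * lcp u w

theorem lcp_comm (u : List (ZMod M × Bool)) : ∀ w, lcp u w = lcp w u := by
  induction u with
  | nil => intro w; simp
  | cons x u ih =>
    intro w
    cases w with
    | nil => simp
    | cons y w =>
      rw [lcp_cons, lcp_cons, ih w]
      by_cases h : x = y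
      · rw [if_pos h, if_pos h.symm]
      · rw [if_neg h, if_neg (Ne.symm h)]

theorem dst_comm (u w : List (ZMod M × Bool)) : dst u w = dst w u := by
  unfold dst; rw [lcp_comm]; ring

theorem dst_actA (k : ZMod M) (u w : List (ZMod M × Bool)) : dst (actA k u) (actA k w) = dst u w := by
  cases u with
  | nil => cases w <;> simp [dst, actA]
  | cons x u =>
    cases w with
    | nil => simp [dst, actA]
    | cons y w =>
      unfold dst actA
      rw [lcp_cons, lcp_cons]
      have : ((k + x.1, x.2) = (k + y.1, y.2)) ↔ x = y := by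
        rw [Prod.mk.injEq, add_right_inj, Prod.ext_iff]
      simp only [this, List.length_cons]

theorem lcp_ok {ε : Bool} {w : List (ZMod M × Bool)} (u : List (ZMod M × Bool)) (hw : ok ε w) :
    lcp ((0, !ε) :: u) w = 0 := by
  cases w with
  | nil => simp
  | cons y w =>
    rw [lcp_cons, if_neg]
    intro h
    exact hw ⟨by rw [← h], by rw [← h]⟩

theorem dst_actT_mixed (ε : Bool) {u w : List (ZMod M × Bool)} (hu : Rd ((0, !ε) :: u))
    (hw : ok ε w) : dst (actT ε ((0, !ε) :: u)) (actT ε w) = dst ((0, !ε) :: u) w := by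
  rw [actT_not_ok, actT_ok hw]
  unfold dst
  rw [lcp_ok u hw]
  have h1 : lcp u ((0, ε) :: w) = 0 := by
    rw [lcp_comm]
    have := lcp_ok (ε := !ε) w hu.1
    rwa [Bool.not_not] at this
  rw [h1]
  simp only [List.length_cons]
  push_cast
  ring

theorem dst_actT (ε : Bool) {u w : List (ZMod M × Bool)} (hu : Rd u) (hw : Rd w) :
    dst (actT ε u) (actT ε w) = dst u w := by
  by_cases h1 : ok ε u
  · by_cases h2 : ok ε w
    · rw [actT_ok h1, actT_ok h2]
      unfold dst
      rw [lcp_cons, if_pos rfl]
      simp only [List.length_cons]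
      push_cast
      ring
    · obtain ⟨w', rfl⟩ := not_ok h2
      rw [dst_comm, dst_actT_mixed ε hw h1, dst_comm]
  · obtain ⟨u', rfl⟩ := not_ok h1
    by_cases h2 : ok ε w
    · exact dst_actT_mixed ε hu h2
    · obtain ⟨w', rfl⟩ := not_ok h2
      rw [actT_not_ok, actT_not_ok]
      unfold dst
      rw [lcp_cons, if_pos rfl]
      simp only [List.length_cons]
      push_cast
      ring

theorem dst_rho (x : BS 0 M) : ∀ u w : Vx M, dst ((rho M x) u).1 ((rho M x) w).1 = dst u.1 w.1 := by
  induction x using bs_induction with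
  | h1 => intro u w; rw [map_one]; rfl
  | ht b x ih =>
    intro u w
    rw [map_mul, Equiv.Perm.mul_apply, Equiv.Perm.mul_apply, rho_pw, rho_pw, dst_actT, ih]
    · exact ((rho M x) u).2
    · exact ((rho M x) w).2
  | ha j x ih =>
    intro u w
    rw [map_mul, Equiv.Perm.mul_apply, Equiv.Perm.mul_apply, rho_a, rho_a, dst_actA, ih]

/-- the vertex `x v0` -/
noncomputable def vx (x : BS 0 M) : List (ZMod M × Bool) := ((rho M x) (v0 M)).1

theorem rd_vx (x : BS 0 M) : Rd (vx x) := ((rho M x) (v0 M)).2

theorem vx_one : vx (1 : BS 0 M) = [] := by unfold vx; rw [map_one]; rfl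

theorem vx_pw (b : Bool) (x : BS 0 M) : vx (pw (qt M) b * x) = actT b (vx x) := by
  unfold vx; rw [map_mul, Equiv.Perm.mul_apply, rho_pw]

theorem vx_a (j : ℤ) (x : BS 0 M) : vx (qa M ^ j * x) = actA (j : ZMod M) (vx x) := by
  unfold vx; rw [map_mul, Equiv.Perm.mul_apply, rho_a]

/-- the element with a given normal form -/
noncomputable def hat : List (ZMod M × Bool) → BS 0 M
  | [] => 1
  | x :: l => qa M ^ (x.1.cast : ℤ) * (pw (qt M) x.2 * hat l)

theorem vx_hat (l : List (ZMod M × Bool)) (h : Rd l) : vx (hat l) = l := by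
  induction l with
  | nil => exact vx_one
  | cons x l ih =>
    unfold hat
    rw [vx_a, vx_pw, ih h.2, actT_ok h.1]
    show [(((x.1.cast : ℤ) : ZMod M) + 0, x.2)] ++ l = _
    rw [ZMod.intCast_zmod_cast, add_zero]
    rfl

theorem qa_pow_M : qa M ^ M = 1 := by
  have h := bs_rel (m := 0) (n := (M : ℤ))
  rw [zpow_zero, mul_one, mul_inv_cancel, zpow_natCast] at h
  exact h.symm

theorem qa_zpow_eq {i j : ℤ} (h : (i : ZMod M) = j) : qa M ^ i = qa M ^ j := by
  have h1 : ((M : ℤ)) ∣ i - j := by
    rw [← ZMod.intCast_zmod_eq_zero_iff_dvd, Int.cast_sub, h, sub_self]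
  obtain ⟨k, hk⟩ := h1
  have : i = j + M * k := by omega
  rw [this, zpow_add, zpow_mul, zpow_natCast, qa_pow_M, one_zpow, mul_one]

theorem nf (x : BS 0 M) : ∃ j : ℤ, x = hat (vx x) * qa M ^ j := by
  induction x using bs_induction with
  | h1 => exact ⟨0, by rw [vx_one]; simp [hat]⟩
  | ht b x ih =>
    obtain ⟨j, hj⟩ := ih
    refine ⟨j, ?_⟩
    rw [vx_pw]
    by_cases h1 : ok b (vx x)
    · rw [actT_ok h1]
      unfold hat
      simp only [ZMod.cast_zero, zpow_zero, one_mul]
      rw [mul_assoc, ← hj]
    · obtain ⟨l', hl⟩ := not_ok h1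
      rw [hl] at hj ⊢
      rw [actT_not_ok]
      unfold hat at hj
      simp only [ZMod.cast_zero, zpow_zero, one_mul] at hj
      rw [hj, TreeLen.pw_not]
      group
  | ha i x ih =>
    obtain ⟨j, hj⟩ := ih
    rw [vx_a]
    cases hl : vx x with
    | nil =>
      rw [hl] at hj
      refine ⟨i + j, ?_⟩
      unfold actA hat
      unfold hat at hj
      rw [hj, one_mul, one_mul, zpow_add]
    | cons y l =>
      rw [hl] at hj
      refine ⟨j, ?_⟩
      unfold actA hat
      unfold hat at hj
      have h1 : qa M ^ (((i : ZMod M) + y.1).cast : ℤ) = qa M ^ (i + (y.1.cast : ℤ)) :=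
        qa_zpow_eq (by rw [ZMod.intCast_zmod_cast, Int.cast_add, ZMod.intCast_zmod_cast])
      rw [h1]
      conv_lhs => rw [hj]
      rw [zpow_add]
      group

theorem vx_nil {x : BS 0 M} (h : vx x = []) : ∃ j : ℤ, x = qa M ^ j := by
  obtain ⟨j, hj⟩ := nf x
  rw [h] at hj
  exact ⟨j, by rw [hj]; simp [hat]⟩

theorem length_actT (b : Bool) (l : List (ZMod M × Bool)) :
    Even (actT b l).length ↔ ¬ Even l.length := by
  by_cases h1 : ok b l
  · rw [actT_ok h1, List.length_cons, Nat.even_add_one]
  · obtain ⟨l', rfl⟩ := not_ok h1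
    rw [actT_not_ok, List.length_cons, Nat.even_add_one, not_not]

theorem length_actA (k : ZMod M) (l : List (ZMod M × Bool)) : (actA k l).length = l.length := by
  cases l <;> rfl

/-- the exponent sum of `t` -/
def qtau (M : ℕ) : BS 0 M →* Multiplicative ℤ := bsLift (Multiplicative.ofAdd 1) 1 (by simp)

theorem qtau_t : qtau M (qt M) = Multiplicative.ofAdd 1 := bsLift_t _ _ _
theorem qtau_a : qtau M (qa M) = 1 := bsLift_a _ _ _

/-- the tree length function of `BS(0, M)` -/
noncomputable def treeLen (M : ℕ) : TreeLen (BS 0 M) where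
  L x := (vx x).length
  c x y := lcp (vx x) (vx y)
  tau := qtau M
  L_one := by rw [vx_one]; rfl
  L_c := by
    intro x y
    have h1 := dst_rho x (v0 M) ((rho M (x⁻¹ * y)) (v0 M))
    rw [← Equiv.Perm.mul_apply, ← map_mul, mul_inv_cancel_left] at h1
    unfold dst at h1
    rw [show (v0 M).1 = [] from rfl, lcp_nil_left] at h1
    simp only [List.length_nil] at h1
    unfold vx
    omega
  ultra x y z := lcp_ultra _ _ _
  split := by
    intro x k hk
    have hrd : ∀ (l : List (ZMod M × Bool)) (k : ℕ), Rd l → Rd (l.take k) := by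
      intro l
      induction l with
      | nil => intro k _; rw [List.take_nil]; exact trivial
      | cons x l ih =>
        intro k h
        cases k with
        | zero => exact trivial
        | succ k =>
          rw [List.take_succ_cons]
          refine ⟨?_, ih k h.2⟩
          cases l with
          | nil => simpa using h.1
          | cons y l =>
            cases k with
            | zero => exact trivial
            | succ k => rw [List.take_succ_cons]; exact h.1
    refine ⟨hat ((vx x).take k), ?_, ?_⟩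
    · rw [vx_hat _ (hrd _ k (rd_vx x)), List.length_take, min_eq_left hk]
    · set p := hat ((vx x).take k) with hp
      have hvp : vx p = (vx x).take k := vx_hat _ (hrd _ k (rd_vx x))
      have h1 := dst_rho p (v0 M) ((rho M (p⁻¹ * x)) (v0 M))
      rw [← Equiv.Perm.mul_apply, ← map_mul, mul_inv_cancel_left] at h1
      change dst (vx p) (vx x) = dst [] (vx (p⁻¹ * x)) at h1
      unfold dst at h1
      rw [hvp, lcp_take _ k hk, lcp_nil_left, List.length_take, min_eq_left hk] at h1
      simp only [List.length_nil] at h1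
      omega
  free := by
    intro a ha ha1 x
    obtain ⟨j, rfl⟩ := vx_nil (List.length_eq_zero_iff.1 ha)
    have hj : (j : ZMod M) ≠ 0 := by
      intro h0
      apply ha1
      have := qa_zpow_eq (M := M) (i := j) (j := 0) (by rw [h0, Int.cast_zero])
      rw [this, zpow_zero]
    rw [vx_a]
    cases vx x with
    | nil => simp
    | cons y l =>
      unfold actA
      rw [lcp_cons, if_neg]
      intro h
      have := congrArg Prod.fst h
      simp at this
      exact hj this
  tau_zero := by
    intro a ha
    obtain ⟨j, rfl⟩ := vx_nil (List.length_eq_zero_iff.1 ha)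
    rw [map_zpow, qtau_a, one_zpow]
  parity := by
    intro x
    induction x using bs_induction with
    | h1 => rw [map_one, vx_one]; simp
    | ht b x ih =>
      rw [vx_pw, length_actT, ← ih, map_mul, toAdd_mul]
      have : Multiplicative.toAdd (qtau M (pw (qt M) b)) = 1 ∨
          Multiplicative.toAdd (qtau M (pw (qt M) b)) = -1 := by
        cases b
        · right
          show Multiplicative.toAdd (qtau M (qt M)⁻¹) = -1
          rw [map_inv, qtau_t]; rfl
        · left
          show Multiplicative.toAdd (qtau M (qt M)) = 1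
          rw [qtau_t]; rfl
      rcases this with h | h
      · rw [h, add_comm, Int.even_add_one]
      · rw [h, neg_add_eq_sub, Int.even_sub_one]
    | ha j x ih =>
      rw [vx_a, length_actA, ← ih, map_mul, map_zpow, qtau_a, one_zpow, one_mul]

theorem vx_t : vx (qt M) = [(0, true)] := by
  have h1 := vx_pw true (1 : BS 0 M)
  rw [mul_one, vx_one] at h1
  have h2 : actT true ([] : List (ZMod M × Bool)) = [(0, true)] := actT_ok trivial
  rw [h2] at h1
  exact h1

theorem qa_zpow_inj {i j : ℤ} (h : qa M ^ i = qa M ^ j) : (i : ZMod M) = j := by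
  have h1 := vx_a i (qt M)
  have h2 := vx_a j (qt M)
  rw [h, h2, vx_t] at h1
  unfold actA at h1
  simpa using h1.symm

/-- generating pairs of `BS(0, M)` -/
theorem q_pair (hM : M ≠ 1) (g h : BS 0 M) (hgen : Generates ![g, h]) :
    ∃ k l : ℤ, ((k * l : ℤ) : ZMod M) = 1 ∧ NielsenEquiv ![g, h] ![qt M, qa M ^ k] := by
  have ht : (treeLen M).L (qt M) = 1 := by
    show (vx (qt M)).length = 1
    rw [vx_t]; rfl
  have hpow : ∀ j : ℤ, (treeLen M).L (qa M ^ j) = 0 := by
    intro j
    show (vx (qa M ^ j)).length = 0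
    have := vx_a j (1 : BS 0 M)
    rw [mul_one, vx_one] at this
    rw [this]; rfl
  have ha : (treeLen M).L (qa M) = 0 := by
    have := hpow 1
    rwa [zpow_one] at this
  have ha1 : qa M ≠ 1 := by
    intro h
    have h1 := qa_zpow_inj (M := M) (i := 1) (j := 0) (by rw [zpow_one, zpow_zero]; exact h)
    rw [Int.cast_one, Int.cast_zero] at h1
    have : Nontrivial (ZMod M) := ZMod.nontrivial_iff.2 hM
    exact one_ne_zero h1
  obtain ⟨g', h', he, hg', hh', hall⟩ := (treeLen M).grushko (qt M) ht (qa M) ha ha1 g h hgen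
  obtain ⟨k, hk⟩ := vx_nil (List.length_eq_zero_iff.1 hh')
  obtain ⟨l, hl⟩ := hall (qa M) ha
  have hl : h' ^ l = qa M := hl
  refine ⟨k, l, ?_, ?_⟩
  · rw [hk, ← zpow_mul] at hl
    have := qa_zpow_inj (M := M) (i := k * l) (j := 1) (by rw [zpow_one]; exact hl)
    rw [this, Int.cast_one]
  · -- `g' = a^i t^ε a^j`
    have hlen : (vx g').length = 1 := hg'
    obtain ⟨x, hx⟩ := List.length_eq_one_iff.1 hlen
    obtain ⟨j, hj⟩ := nf g'
    rw [hx] at hj
    have hj : g' = qa M ^ (x.1.cast : ℤ) * pw (qt M) x.2 * qa M ^ j := by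
      rw [hj]; simp [hat, mul_assoc]
    have hmem : ∀ i : ℤ, qa M ^ i ∈ Subgroup.zpowers h' := fun i => hall _ (hpow i)
    have e1 : NielsenEquiv ![g', h'] ![pw (qt M) x.2, h'] := by
      have s1 := mv_mul0 g' h' (qa M ^ j)⁻¹ (inv_mem (hmem j))
      have e2 : g' * (qa M ^ j)⁻¹ = qa M ^ (x.1.cast : ℤ) * pw (qt M) x.2 := by
        rw [hj]; group
      rw [e2] at s1
      have s2 := ((mv_swap (qa M ^ (x.1.cast : ℤ) * pw (qt M) x.2) h').trans
        (mv_mul_left h' (qa M ^ (x.1.cast : ℤ) * pw (qt M) x.2) (qa M ^ (x.1.cast : ℤ))⁻¹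
          (inv_mem (hmem _)))).trans (mv_swap _ _)
      rw [inv_mul_cancel_left] at s2
      exact s1.trans s2
    have e2 : NielsenEquiv ![pw (qt M) x.2, h'] ![qt M, h'] := by
      cases x.2
      · have := mv_inv0 (qt M)⁻¹ h'
        rw [inv_inv] at this
        exact this
      · exact NielsenEquiv.refl _
    rw [← hk]
    exact (he.trans e1).trans e2

end model

end Pool.Agent.NE
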