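import Pool.Agent.helper43.NE.BSPos

/-!
# MP_5c1f29_al: generating pairs of groups acting on trees with trivial edge stabilisers

An abstract form, for pairs, of the theorem of Grushko and Neumann: the group `G` carries a length
function `L` coming from an action on a tree with trivial edge stabilisers and with one orbit of
vertices and one of edges.
-/

set_option autoImplicit false

namespace Pool.Agent.NE

/-- A tree length function. -/
structure TreeLen (G : Type) [Group G] where
  L : G → ℕ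
  c : G → G → ℕ
  tau : G →* Multiplicative ℤ
  L_one : L 1 = 0
  L_c : ∀ x y, L (x⁻¹ * y) + 2 * c x y = L x + L y
  ultra : ∀ x y z, min (c x z) (c z y) ≤ c x y
  split : ∀ x k, k ≤ L x → ∃ p, L p = k ∧ L (p⁻¹ * x) = L x - k
  free : ∀ a, L a = 0 → a ≠ 1 → ∀ x, c (a * x) x = 0
  tau_zero : ∀ a, L a = 0 → tau a = 1
  parity : ∀ x, Even (Multiplicative.toAdd (tau x)) ↔ Even (L x)

namespace TreeLen

variable {G : Type} [Group G] (T : TreeLen G)

theorem c_x_one (x : G) : T.c x 1 = 0 := by
  have h1 := T.L_c x 1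
  have h2 := T.L_c x⁻¹ 1
  rw [mul_one, T.L_one] at h1
  rw [mul_one, inv_inv, T.L_one] at h2
  omega

theorem L_inv (x : G) : T.L x⁻¹ = T.L x := by
  have h1 := T.L_c x 1
  rw [mul_one, T.L_one, T.c_x_one] at h1
  omega

theorem c_comm (x y : G) : T.c x y = T.c y x := by
  have h1 := T.L_c x y
  have h2 := T.L_c y x
  have h3 : T.L (y⁻¹ * x) = T.L (x⁻¹ * y) := by
    rw [← T.L_inv (x⁻¹ * y), mul_inv_rev, inv_inv]
  omega

theorem L_mul (x y : G) : T.L (x * y) + 2 * T.c x⁻¹ y = T.L x + T.L y := by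
  have h1 := T.L_c x⁻¹ y
  rw [inv_inv, T.L_inv] at h1
  exact h1

theorem L_mul_le (x y : G) : T.L (x * y) ≤ T.L x + T.L y := by
  have := T.L_mul x y
  omega

theorem c_self (x : G) : T.c x x = T.L x := by
  have h1 := T.L_c x x
  rw [inv_mul_cancel, T.L_one] at h1
  omega

theorem c_le_left (x y : G) : T.c x y ≤ T.L x := by
  have h1 := T.L_c x y
  have h2 := T.L_mul_le x (x⁻¹ * y)
  rw [mul_inv_cancel_left] at h2
  omega

theorem c_le_right (x y : G) : T.c x y ≤ T.L y := by
  rw [T.c_comm]; exact T.c_le_left y x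

theorem L_mul_zero (x a : G) (ha : T.L a = 0) : T.L (x * a) = T.L x := by
  have h1 := T.L_mul_le x a
  have h2 := T.L_mul_le (x * a) a⁻¹
  rw [mul_inv_cancel_right, T.L_inv] at h2
  omega

theorem L_zero_mul (a x : G) (ha : T.L a = 0) : T.L (a * x) = T.L x := by
  have h1 := T.L_mul_le a x
  have h2 := T.L_mul_le a⁻¹ (a * x)
  rw [inv_mul_cancel_left, T.L_inv] at h2
  omega

theorem c_mul_right (x a y : G) (ha : T.L a = 0) : T.c (x * a) y = T.c x y := by
  have h1 : T.c (x * a) x = T.L x := by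
    have h := T.L_c (x * a) x
    rw [mul_inv_rev, mul_assoc, inv_mul_cancel, mul_one, T.L_inv, ha, T.L_mul_zero x a ha] at h
    omega
  have h2 := T.ultra (x * a) y x
  have h3 := T.ultra x y (x * a)
  have h4 := T.c_le_left x y
  have h5 := T.c_le_left (x * a) y
  rw [T.L_mul_zero x a ha] at h5
  rw [T.c_comm x (x * a)] at h3
  omega

theorem c_mul_left (a x y : G) (ha : T.L a = 0) : T.c (a * x) (a * y) = T.c x y := by
  have h1 := T.L_c (a * x) (a * y)
  have h2 := T.L_c x y
  rw [T.L_zero_mul a x ha, T.L_zero_mul a y ha] at h1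
  have e : (a * x)⁻¹ * (a * y) = x⁻¹ * y := by group
  rw [e] at h1
  omega

/-- `p` is a prefix of `x` of length `k` -/
theorem c_prefix (p x : G) (k : ℕ) (h1 : T.L p = k) (h2 : T.L (p⁻¹ * x) = T.L x - k)
    (hk : k ≤ T.L x) : T.c p x = k := by
  have := T.L_c p x
  omega

theorem c_suffix (s x : G) (j : ℕ) (h1 : T.L s = T.L x - j) (h2 : T.L (s⁻¹ * x) = j)
    (hj : j ≤ T.L x) : T.L (x⁻¹ * s) = j ∧ T.c (x⁻¹ * s) x⁻¹ = j := by
  have h3 : T.L (x⁻¹ * s) = j := by
    rw [← T.L_inv, mul_inv_rev, inv_inv]; exact h2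
  refine ⟨h3, ?_⟩
  have h4 := T.L_c (x⁻¹ * s) x⁻¹
  have e : (x⁻¹ * s)⁻¹ * x⁻¹ = s⁻¹ := by group
  rw [e, T.L_inv, T.L_inv, h3, h1] at h4
  omega

/-- if `x` and `x⁻¹` have a long common prefix then `x` moves prefixes to prefixes -/
theorem fixmid (x r s : G) (j : ℕ) (_hj1 : T.L x ≤ j + T.c x x⁻¹) (hj2 : j ≤ T.c x x⁻¹)
    (hr1 : T.L r = j) (hr2 : T.L (r⁻¹ * x) = T.L x - j)
    (hs1 : T.L s = T.L x - j) (hs2 : T.L (s⁻¹ * x) = j) : T.L (s⁻¹ * x * r) = 0 := by
  have hp := T.c_le_left x x⁻¹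
  have hjL : j ≤ T.L x := hj2.trans hp
  have h1 := T.c_prefix r x j hr1 hr2 hjL
  obtain ⟨h2, h3⟩ := T.c_suffix s x j hs1 hs2 hjL
  have h4 := T.ultra r x⁻¹ x
  have h5 := T.ultra (x⁻¹ * s) r x⁻¹
  rw [T.c_comm x⁻¹ r] at h5
  have h6 := T.L_c (x⁻¹ * s) r
  have e : (x⁻¹ * s)⁻¹ * r = s⁻¹ * x * r := by group
  rw [e] at h6
  omega

theorem tau_of_short (x : G) (hx : T.L x ≤ 2 * T.c x x⁻¹) : T.tau x = 1 := by
  have hp := T.c_le_left x x⁻¹
  obtain ⟨r, hr1, hr2⟩ := T.split x (T.c x x⁻¹) hp
  obtain ⟨s, hs1, hs2⟩ := T.split x (T.L x - T.c x x⁻¹) (by omega)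
  have h1 := T.tau_zero _ (T.fixmid x r s (T.c x x⁻¹) (by omega) le_rfl hr1 hr2 hs1 (by omega))
  have h2 := T.tau_zero _ (T.fixmid x s r (T.L x - T.c x x⁻¹) (by omega) (by omega) hs1 hs2
    (by omega) (by omega))
  rw [map_mul, map_mul, map_inv] at h1 h2
  apply Multiplicative.toAdd.injective
  have h3 := congrArg Multiplicative.toAdd h1
  have h4 := congrArg Multiplicative.toAdd h2
  simp only [toAdd_mul, toAdd_inv, toAdd_one] at h3 h4 ⊢
  omega

theorem hyp_of_tau (x : G) (hx : T.tau x ≠ 1) : 2 * T.c x x⁻¹ < T.L x := by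
  by_contra h
  exact hx (T.tau_of_short x (by omega))

theorem hyp_of_not_ell (x : G) (hx : ∀ z, T.L (z⁻¹ * x * z) ≠ 0) : 2 * T.c x x⁻¹ < T.L x := by
  by_contra h
  have h1 := T.tau_of_short x (by omega)
  have h2 := (T.parity x).1 (by rw [h1]; simp)
  obtain ⟨k, hk⟩ := h2
  obtain ⟨r, hr1, hr2⟩ := T.split x k (by omega)
  exact hx r (T.fixmid x r r k (by omega) (by omega) hr1 hr2 (by omega) (by omega))

/-- signed letters -/
def pw (g : G) (b : Bool) : G := if b then g else g⁻¹

theorem pw_not (g : G) (b : Bool) : pw g (!b) = (pw g b)⁻¹ := by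
  cases b <;> simp [pw]

theorem L_pw (g : G) (b : Bool) : T.L (pw g b) = T.L g := by
  cases b
  · exact T.L_inv g
  · rfl

theorem c_pw (g : G) (b : Bool) : T.c (pw g b) (pw g b)⁻¹ = T.c g g⁻¹ := by
  cases b
  · show T.c g⁻¹ (g⁻¹)⁻¹ = _
    rw [inv_inv, T.c_comm]
  · rfl

/-- reduced words in `g` and the subgroup `H` -/
inductive RW (g : G) (H : Subgroup G) : G → Option (G × Bool) → Prop
  | base (h : G) (hh : h ∈ H) : RW g H h none
  | step (h : G) (hh : h ∈ H) (b : Bool) (w : G) (st : Option (G × Bool)) (hw : RW g H w st)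
      (hst : st ≠ some (1, !b)) : RW g H (h * pw g b * w) (some (h, b))

theorem RW.mul_mem {g : G} {H : Subgroup G} {w : G} {st : Option (G × Bool)} (hw : RW g H w st)
    (x : G) (hx : x ∈ H) : ∃ st', RW g H (x * w) st' := by
  cases hw with
  | base h hh => exact ⟨_, RW.base (x * w) (H.mul_mem hx hh)⟩
  | step h hh b w' st' hw' hst =>
    refine ⟨some (x * h, b), ?_⟩
    have := RW.step (x * h) (H.mul_mem hx hh) b w' st' hw' hst
    rw [mul_assoc x h, mul_assoc x] at this
    exact this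

theorem RW.mul_pw {g : G} {H : Subgroup G} {w : G} {st : Option (G × Bool)} (hw : RW g H w st)
    (b : Bool) : ∃ st', RW g H (pw g b * w) st' := by
  by_cases hst : st = some (1, !b)
  · cases hw with
    | base h hh => simp at hst
    | step h hh b' w' st' hw' hst' =>
      simp only [Option.some.injEq, Prod.mk.injEq] at hst
      obtain ⟨rfl, rfl⟩ := hst
      refine ⟨st', ?_⟩
      rw [one_mul, pw_not, mul_inv_cancel_left]
      exact hw'
  · refine ⟨some (1, b), ?_⟩
    have := RW.step 1 H.one_mem b w st hw hst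
    rw [one_mul] at this
    exact this

theorem exists_RW (g : G) (H : Subgroup G) (w : G)
    (hw : w ∈ Subgroup.closure (insert g (H : Set G))) : ∃ st, RW g H w st := by
  induction hw using Subgroup.closure_induction_left with
  | one => exact ⟨none, RW.base 1 H.one_mem⟩
  | mul_left x hx y hy ih =>
    obtain ⟨st, ih⟩ := ih
    rcases hx with rfl | hx
    · exact ih.mul_pw true
    · exact ih.mul_mem x hx
  | inv_mul_cancel x hx y hy ih =>
    obtain ⟨st, ih⟩ := ih
    rcases hx with rfl | hx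
    · exact ih.mul_pw false
    · exact ih.mul_mem x⁻¹ (H.inv_mem hx)

theorem RW_len (g : G) (H : Subgroup G) (hH : ∀ h ∈ H, T.L h = 0)
    (hyp : 2 * T.c g g⁻¹ < T.L g)
    (hc : ∀ h ∈ H, h ≠ 1 → ∀ b b', T.c (pw g b)⁻¹ (h * pw g b') = 0)
    {w : G} {st : Option (G × Bool)} (hw : RW g H w st) :
    ∀ h b, st = some (h, b) → T.L g ≤ T.L w ∧ T.L g ≤ T.c w (h * pw g b) + T.c g g⁻¹ := by
  induction hw with
  | base h hh => intro h b hst; simp at hst
  | step h hh b w st hw hst ih =>
    intro h' b' he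
    simp only [Option.some.injEq, Prod.mk.injEq] at he
    obtain ⟨rfl, rfl⟩ := he
    have hy : T.L (pw g b) = T.L g := T.L_pw g b
    -- the cancellation between `pw g b` and `w`
    have he : (T.L w = 0 ∧ T.c (pw g b)⁻¹ w = 0) ∨
        (T.L g ≤ T.L w ∧ T.c (pw g b)⁻¹ w ≤ T.c g g⁻¹) := by
      cases hw with
      | base k hk =>
        left
        refine ⟨hH _ hk, ?_⟩
        have := T.c_le_right (pw g b)⁻¹ w
        rw [hH _ hk] at this
        omega
      | step k hk b1 w1 st1 hw1 hst1 =>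
        right
        obtain ⟨h1, h2⟩ := ih k b1 rfl
        refine ⟨h1, ?_⟩
        set w' := k * pw g b1 * w1
        by_cases hk1 : k = 1
        · subst hk1
          have hb : b1 = b := by
            cases b1 <;> cases b <;> simp_all
          subst hb
          rw [one_mul] at h2
          have h3 := T.ultra (pw g b1)⁻¹ (pw g b1) w'
          rw [T.c_comm (pw g b1)⁻¹ (pw g b1), T.c_pw] at h3
          omega
        · have h3 := hc k hk hk1 b b1
          have h4 := T.ultra (pw g b)⁻¹ (k * pw g b1) w'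
          omega
    have h1 := T.L_mul (pw g b) w
    have h2 := T.L_c (pw g b * w) (pw g b)
    have e : (pw g b * w)⁻¹ * pw g b = w⁻¹ := by group
    rw [e, T.L_inv] at h2
    rw [mul_assoc, T.L_zero_mul _ _ (hH h hh), T.c_mul_left _ _ _ (hH h hh)]
    omega

theorem closure_insert_zpowers (g h : G) (hgen : Generates ![g, h]) (w : G) :
    w ∈ Subgroup.closure (insert g ((Subgroup.zpowers h : Subgroup G) : Set G)) := by
  have h1 : Subgroup.closure (Set.range ![g, h]) ≤
      Subgroup.closure (insert g ((Subgroup.zpowers h : Subgroup G) : Set G)) := by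
    rw [Subgroup.closure_le]
    rintro _ ⟨i, rfl⟩
    fin_cases i
    · exact Subgroup.subset_closure (Set.mem_insert _ _)
    · exact Subgroup.subset_closure (Set.mem_insert_of_mem _ (Subgroup.mem_zpowers h))
  have h2 : Subgroup.closure (Set.range ![g, h]) = ⊤ := hgen
  rw [h2] at h1
  exact h1 trivial

theorem hom_trivial {K : Type} [Group K] (f : G →* K) (g h : G) (hgen : Generates ![g, h])
    (hg : f g = 1) (hh : f h = 1) (x : G) : f x = 1 := by
  have h1 : Subgroup.closure (Set.range ![g, h]) ≤ f.ker := by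
    rw [Subgroup.closure_le]
    rintro _ ⟨i, rfl⟩
    fin_cases i
    · exact hg
    · exact hh
  have h2 : Subgroup.closure (Set.range ![g, h]) = ⊤ := hgen
  rw [h2] at h1
  exact h1 trivial

/-- pairs with an elliptic second entry -/
theorem pair_ell (t : G) (ht : T.L t = 1) (g h : G) (hgen : Generates ![g, h]) (hh : T.L h = 0) :
    T.L g = 1 ∧ ∀ a, T.L a = 0 → a ∈ Subgroup.zpowers h := by
  have hH : ∀ x ∈ Subgroup.zpowers h, T.L x = 0 := by
    rintro _ ⟨k, rfl⟩
    induction k using Int.induction_on with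
    | zero => simpa using T.L_one
    | succ k ih =>
      show T.L (h ^ ((k : ℤ) + 1)) = 0
      rw [zpow_add_one, T.L_mul_zero _ _ hh]; exact ih
    | pred k ih =>
      show T.L (h ^ (-(k : ℤ) - 1)) = 0
      rw [zpow_sub_one, T.L_mul_zero _ _ (by rw [T.L_inv]; exact hh)]; exact ih
  have htau : T.tau t ≠ 1 := by
    intro h1
    have h2 := (T.parity t).1 (by rw [h1]; simp)
    rw [ht] at h2
    exact absurd h2 (by decide)
  have hyp : ∀ g1, Generates ![g1, h] → 2 * T.c g1 g1⁻¹ < T.L g1 := by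
    intro g1 hg1
    apply T.hyp_of_tau
    intro h1
    exact htau (hom_trivial T.tau g1 h hg1 h1 (T.tau_zero _ hh) t)
  have main : ∀ g1, Generates ![g1, h] →
      (∀ x ∈ Subgroup.zpowers h, x ≠ 1 → ∀ b b', T.c (pw g1 b)⁻¹ (x * pw g1 b') = 0) →
      T.L g1 ≤ 1 ∧ ∀ a, T.L a = 0 → a ∈ Subgroup.zpowers h := by
    intro g1 hg1 hc
    have h1 := hyp g1 hg1
    have h2 : ∀ w, T.L w = 0 ∧ w ∈ Subgroup.zpowers h ∨ T.L g1 ≤ T.L w := by
      intro w
      obtain ⟨st, hst⟩ := exists_RW g1 (Subgroup.zpowers h) w (closure_insert_zpowers g1 h hg1 w)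
      have h3 := T.RW_len g1 (Subgroup.zpowers h) hH h1 hc hst
      cases hst with
      | base _ hw => exact Or.inl ⟨hH w hw, hw⟩
      | step k hk b w' st' hw' hst' => exact Or.inr (h3 k b rfl).1
    constructor
    · rcases h2 t with h | h
      · omega
      · omega
    · intro a ha
      rcases h2 a with h | h
      · exact h.2
      · omega
  by_cases hcase : ∀ x ∈ Subgroup.zpowers h, T.c g⁻¹ (x * g) = 0
  · have h1 := main g hgen ?_
    · refine ⟨?_, h1.2⟩
      have h2 := hyp g hgen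
      omega
    · intro x hx hx1 b b'
      have hx0 := hH x hx
      have hfree : ∀ y, T.c y (x * y) = 0 := fun y => by
        rw [T.c_comm]; exact T.free x hx0 hx1 y
      cases b <;> cases b'
      · -- `c (g⁻¹)⁻¹ (x g⁻¹)`
        show T.c (g⁻¹)⁻¹ (x * g⁻¹) = 0
        rw [inv_inv, ← T.c_mul_left x⁻¹ _ _ (by rw [T.L_inv]; exact hx0), inv_mul_cancel_left,
          T.c_comm]
        exact hcase x⁻¹ (inv_mem hx)
      · show T.c (g⁻¹)⁻¹ (x * g) = 0
        rw [inv_inv]; exact hfree g
      · show T.c g⁻¹ (x * g⁻¹) = 0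
        exact hfree g⁻¹
      · exact hcase x hx
  · exfalso
    push Not at hcase
    obtain ⟨y, hy, hcy⟩ := hcase
    have hy0 := hH y hy
    set g1 := y * g with hg1
    have hgen1 : Generates ![g1, h] := by
      have h1 : NielsenEquiv ![g, h] ![g1, h] :=
        ((mv_swap g h).trans (mv_mul_left h g y hy)).trans (mv_swap h g1)
      exact h1.symm.generates hgen
    have hp : T.c g1 g1⁻¹ ≠ 0 := by
      rw [T.c_comm, hg1, mul_inv_rev, T.c_mul_right _ _ _ (by rw [T.L_inv]; exact hy0)]
      exact hcy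
    have hyp1 := hyp g1 hgen1
    -- the first edge
    obtain ⟨r, hr1, hr2⟩ := T.split g1 1 (by omega)
    have hr3 := T.c_prefix r g1 1 hr1 hr2 (by omega)
    have hr4 : 1 ≤ T.c r g1⁻¹ := by
      have := T.ultra r g1⁻¹ g1
      omega
    have hrp : ∀ b, 1 ≤ T.c r (pw g1 b) := by
      intro b; cases b
      · exact hr4
      · exact hr3.ge
    have h1 := main g1 hgen1 ?_
    · omega
    · intro x hx hx1 b b'
      have hx0 := hH x hx
      have h2 : T.c r (x * r) = 0 := by rw [T.c_comm]; exact T.free x hx0 hx1 r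
      have h3 : 1 ≤ T.c r (pw g1 b)⁻¹ := by rw [← pw_not]; exact hrp _
      have h4 : 1 ≤ T.c (x * pw g1 b') (x * r) := by
        rw [T.c_mul_left _ _ _ hx0, T.c_comm]; exact hrp _
      have h5 := T.ultra r (x * r) (pw g1 b)⁻¹
      have h6 := T.ultra (pw g1 b)⁻¹ (x * r) (x * pw g1 b')
      omega

/-! ### pairs without elliptic entries -/

/-- the sum of the lengths is minimal in the Nielsen class -/
def Mini (g h : G) : Prop :=
  ∀ g' h', NielsenEquiv ![g, h] ![g', h'] → T.L g + T.L h ≤ T.L g' + T.L h'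

theorem Mini.swap {g h : G} (hm : T.Mini g h) : T.Mini h g := by
  intro g' h' he
  have := hm g' h' ((mv_swap g h).trans he)
  omega

theorem Mini.inv0 {g h : G} (hm : T.Mini g h) : T.Mini g⁻¹ h := by
  intro g' h' he
  have := hm g' h' ((mv_inv0 g h).trans he)
  rwa [T.L_inv]

theorem Mini.inv1 {g h : G} (hm : T.Mini g h) : T.Mini g h⁻¹ := by
  intro g' h' he
  have := hm g' h' ((mv_inv1 g h).trans he)
  rwa [T.L_inv]

theorem Mini.pw {g h : G} (hm : T.Mini g h) (b b' : Bool) : T.Mini (pw g b) (pw h b') := by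
  have h1 : T.Mini (TreeLen.pw g b) h := by
    cases b
    · exact Mini.inv0 T hm
    · exact hm
  cases b'
  · exact Mini.inv1 T h1
  · exact h1

theorem Mini.c_le {g h : G} (hm : T.Mini g h) : 2 * T.c g h ≤ T.L g ∧ 2 * T.c g h ≤ T.L h := by
  have h1 := hm g (g⁻¹ * h) (mv_mul_left g h g⁻¹ (inv_mem (Subgroup.mem_zpowers g)))
  have h2 := hm (g⁻¹ * h) h (((mv_inv0 g h).trans (mv_mul0 g⁻¹ h h (Subgroup.mem_zpowers h))))
  have h3 := T.L_c g h
  omega

/-- conjugation -/
theorem mv_conj_all (g h : G) (hgen : Generates ![g, h]) (x : G) :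
    NielsenEquiv ![g, h] ![x * g * x⁻¹, x * h * x⁻¹] := by
  have hx : x ∈ Subgroup.closure (Set.range ![g, h]) := by
    rw [show Subgroup.closure (Set.range ![g, h]) = ⊤ from hgen]; trivial
  -- conjugation of a pair by one of its entries
  have c0 : ∀ g h : G, NielsenEquiv ![g, h] ![g, g * h * g⁻¹] := fun g h => by
    simpa using mv_conj g h 1
  have key : ∀ x ∈ Subgroup.closure (Set.range ![g, h]), ∀ u v : G,
      (∃ y, u = y * g * y⁻¹ ∧ v = y * h * y⁻¹ ∧ NielsenEquiv ![g, h] ![u, v]) →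
      NielsenEquiv ![g, h] ![u, v] := fun _ _ _ _ ⟨_, _, _, h⟩ => h
  clear key
  induction hx using Subgroup.closure_induction_right with
  | one => simpa using NielsenEquiv.refl ![g, h]
  | mul_right x hx y hy ih =>
    obtain ⟨i, rfl⟩ := hy
    refine ih.trans ?_
    fin_cases i
    · -- conjugate by `x g x⁻¹`
      have := c0 (x * g * x⁻¹) (x * h * x⁻¹)
      have e1 : x * g * x⁻¹ * (x * h * x⁻¹) * (x * g * x⁻¹)⁻¹ = x * g * h * (x * g)⁻¹ := by group
      have e2 : x * g * g * (x * g)⁻¹ = x * g * x⁻¹ := by group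
      show NielsenEquiv _ ![x * g * g * (x * g)⁻¹, x * g * h * (x * g)⁻¹]
      rw [e1] at this
      rw [e2]
      exact this
    · have := ((mv_swap (x * g * x⁻¹) (x * h * x⁻¹)).trans (c0 (x * h * x⁻¹) (x * g * x⁻¹))).trans
        (mv_swap _ _)
      have e1 : x * h * x⁻¹ * (x * g * x⁻¹) * (x * h * x⁻¹)⁻¹ = x * h * g * (x * h)⁻¹ := by group
      have e2 : x * h * h * (x * h)⁻¹ = x * h * x⁻¹ := by group
      show NielsenEquiv _ ![x * h * g * (x * h)⁻¹, x * h * h * (x * h)⁻¹]
      rw [e1] at this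
      rw [e2]
      exact this
  | mul_inv_cancel x hx y hy ih =>
    obtain ⟨i, rfl⟩ := hy
    refine ih.trans ?_
    have c1 : ∀ g h : G, NielsenEquiv ![g, h] ![g, g⁻¹ * h * g] := fun g h => by
      simpa using mv_conj g h (-1)
    fin_cases i
    · have := c1 (x * g * x⁻¹) (x * h * x⁻¹)
      have e1 : (x * g * x⁻¹)⁻¹ * (x * h * x⁻¹) * (x * g * x⁻¹) = x * g⁻¹ * h * (x * g⁻¹)⁻¹ := by
        group
      have e2 : x * g⁻¹ * g * (x * g⁻¹)⁻¹ = x * g * x⁻¹ := by group
      show NielsenEquiv _ ![x * g⁻¹ * g * (x * g⁻¹)⁻¹, x * g⁻¹ * h * (x * g⁻¹)⁻¹]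
      rw [e1] at this
      rw [e2]
      exact this
    · have := ((mv_swap (x * g * x⁻¹) (x * h * x⁻¹)).trans (c1 (x * h * x⁻¹) (x * g * x⁻¹))).trans
        (mv_swap _ _)
      have e1 : (x * h * x⁻¹)⁻¹ * (x * g * x⁻¹) * (x * h * x⁻¹) = x * h⁻¹ * g * (x * h⁻¹)⁻¹ := by
        group
      have e2 : x * h⁻¹ * h * (x * h⁻¹)⁻¹ = x * h * x⁻¹ := by group
      show NielsenEquiv _ ![x * h⁻¹ * g * (x * h⁻¹)⁻¹, x * h⁻¹ * h * (x * h⁻¹)⁻¹]
      rw [e1] at this
      rw [e2]
      exact this

/-- the crucial inequality -/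
theorem Mini.n2 {y o : G} (hm : T.Mini y o) (hgen : Generates ![y, o])
    (hy : 2 * T.c y y⁻¹ < T.L y) (b b' : Bool) :
    T.c (TreeLen.pw o b) y + T.c y⁻¹ (TreeLen.pw o b') < T.L y := by
  have h1 : 2 * T.c (TreeLen.pw o b) y ≤ T.L y := by
    rw [T.c_comm]
    exact (Mini.c_le T (Mini.pw T hm true b)).1
  have h2 : 2 * T.c y⁻¹ (TreeLen.pw o b') ≤ T.L y := by
    have := (Mini.c_le T (Mini.pw T hm false b')).1
    rw [show TreeLen.pw y false = y⁻¹ from rfl, T.L_inv] at this
    exact this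
  by_contra hcon
  have h3 : 2 * T.c (TreeLen.pw o b) y = T.L y := by omega
  have h4 : 2 * T.c y⁻¹ (TreeLen.pw o b') = T.L y := by omega
  by_cases hb : b = b'
  · subst hb
    have := T.ultra y y⁻¹ (TreeLen.pw o b)
    rw [T.c_comm y (TreeLen.pw o b), T.c_comm (TreeLen.pw o b) y⁻¹] at this
    omega
  · have hb' : b' = !b := by cases b <;> cases b' <;> simp_all
    subst hb'
    rw [pw_not] at h4
    set u := TreeLen.pw o b with hu
    set k := T.c u y with hk
    have hmu : T.Mini y u := Mini.pw T hm true b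
    have hLu : T.L y ≤ T.L u := by
      have := (Mini.c_le T hmu).2
      rw [T.c_comm] at this
      omega
    have heq : NielsenEquiv ![y, o] ![y, u] := by
      rw [hu]
      cases b
      · exact mv_inv1 y o
      · exact NielsenEquiv.refl _
    have hgenu : Generates ![y, u] := heq.symm.generates hgen
    obtain ⟨q, hq1, hq2⟩ := T.split y⁻¹ k (by rw [T.L_inv]; omega)
    rw [T.L_inv] at hq2
    have hq3 : T.c q y⁻¹ = k := T.c_prefix q y⁻¹ k hq1 (by rw [T.L_inv]; exact hq2)
      (by rw [T.L_inv]; omega)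
    -- `s = y q`
    have hs1 : T.L (y * q) = k := by
      have : T.L (y * q) = T.L (q⁻¹ * y⁻¹) := by rw [← T.L_inv (y * q), mul_inv_rev]
      omega
    have hs2 : T.c (y * q) y = k := by
      have h := T.L_c (y * q) y
      have e : (y * q)⁻¹ * y = q⁻¹ := by group
      rw [e, T.L_inv] at h
      omega
    have hsu : k ≤ T.c (y * q) u := by
      have := T.ultra (y * q) u y
      rw [T.c_comm y u] at this
      omega
    have hqu : k ≤ T.c q u⁻¹ := by
      have := T.ultra q u⁻¹ y⁻¹
      omega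
    -- the new pair
    have h5 : NielsenEquiv ![y, u] ![q⁻¹ * y * q, q⁻¹ * (y⁻¹ * u) * q] := by
      have e1 : NielsenEquiv ![y, u] ![y, y⁻¹ * u] :=
        mv_mul_left y u y⁻¹ (inv_mem (Subgroup.mem_zpowers y))
      have e2 := mv_conj_all y (y⁻¹ * u) (e1.symm.generates hgenu) q⁻¹
      rw [inv_inv] at e2
      exact e1.trans e2
    have h6 := hmu _ _ h5
    have h7 : T.L (q⁻¹ * y * q) ≤ T.L y := by
      rw [mul_assoc]
      have := T.L_mul_le q⁻¹ (y * q)
      rw [T.L_inv] at this
      omega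
    have h8 : T.L (u⁻¹ * (y * q)) = T.L u - k := by
      have h := T.L_c u (y * q)
      rw [T.c_comm] at h
      have h' := T.c_le_left (y * q) u
      omega
    have h9 : T.c (u⁻¹ * (y * q)) u⁻¹ = T.L u - k := by
      have h := T.L_c (u⁻¹ * (y * q)) u⁻¹
      have e : (u⁻¹ * (y * q))⁻¹ * u⁻¹ = (y * q)⁻¹ := by group
      rw [e, T.L_inv, T.L_inv u] at h
      omega
    have h10 : T.L (q⁻¹ * (y⁻¹ * u) * q) ≤ T.L u - k + k - 2 * k := by
      have h := T.L_c (u⁻¹ * (y * q)) q
      have e : (u⁻¹ * (y * q))⁻¹ * q = q⁻¹ * (y⁻¹ * u) * q := by group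
      rw [e] at h
      have h' := T.ultra (u⁻¹ * (y * q)) q u⁻¹
      rw [T.c_comm u⁻¹ q] at h'
      omega
    omega

/-- letters -/
def ltr (g h : G) (x : Bool × Bool) : G := TreeLen.pw (if x.1 then g else h) x.2

theorem ltr_inv (g h : G) (x : Bool × Bool) : ltr g h (x.1, !x.2) = (ltr g h x)⁻¹ := by
  unfold ltr; exact pw_not _ _

/-- reduced words in `g`, `h` -/
inductive RX (g h : G) : G → Option (Bool × Bool) → Prop
  | one : RX g h 1 none
  | step (y : Bool × Bool) (w : G) (st : Option (Bool × Bool)) (hw : RX g h w st)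
      (hst : st ≠ some (y.1, !y.2)) : RX g h (ltr g h y * w) (some y)

theorem RX.mul {g h w : G} {st : Option (Bool × Bool)} (hw : RX g h w st) (y : Bool × Bool) :
    ∃ st', RX g h (ltr g h y * w) st' := by
  by_cases hst : st = some (y.1, !y.2)
  · cases hw with
    | one => simp at hst
    | step y' w' st' hw' hst' =>
      simp only [Option.some.injEq] at hst
      subst hst
      refine ⟨st', ?_⟩
      rw [ltr_inv, mul_inv_cancel_left]
      exact hw'
  · exact ⟨_, RX.step y w st hw hst⟩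

theorem exists_RX (g h : G) (hgen : Generates ![g, h]) (w : G) : ∃ st, RX g h w st := by
  have hw : w ∈ Subgroup.closure (Set.range ![g, h]) := by
    rw [show Subgroup.closure (Set.range ![g, h]) = ⊤ from hgen]; trivial
  induction hw using Subgroup.closure_induction_left with
  | one => exact ⟨none, RX.one⟩
  | mul_left x hx y hy ih =>
    obtain ⟨st, ih⟩ := ih
    obtain ⟨i, rfl⟩ := hx
    fin_cases i
    · exact ih.mul (true, true)
    · exact ih.mul (false, true)
  | inv_mul_cancel x hx y hy ih =>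
    obtain ⟨st, ih⟩ := ih
    obtain ⟨i, rfl⟩ := hx
    fin_cases i
    · exact ih.mul (true, false)
    · exact ih.mul (false, false)

theorem RX_len (g h : G)
    (n2 : ∀ y u v : Bool × Bool, u ≠ y → v ≠ (y.1, !y.2) →
      T.c (ltr g h u) (ltr g h y) + T.c (ltr g h y)⁻¹ (ltr g h v) < T.L (ltr g h y))
    {w : G} {st : Option (Bool × Bool)} (hw : RX g h w st) :
    ∀ y, st = some y → 0 < T.L w ∧ ∀ u, u ≠ y →
      T.c (ltr g h u) w = T.c (ltr g h u) (ltr g h y) ∧ T.c (ltr g h u) w < T.L w := by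
  induction hw with
  | one => intro y hy; simp at hy
  | step y w st hw hst ih =>
    intro y' he
    simp only [Option.some.injEq] at he
    subst he
    cases hw with
    | one =>
      rw [mul_one]
      have h1 : ∀ u, u ≠ y → T.c (ltr g h u) (ltr g h y) < T.L (ltr g h y) := by
        intro u hu
        have := n2 y u y hu (by
          intro h; have := congrArg Prod.snd h; revert this; cases y.2 <;> simp)
        omega
      refine ⟨?_, fun u hu => ⟨rfl, h1 u hu⟩⟩
      have := h1 (y.1, !y.2) (by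
        intro h; have := congrArg Prod.snd h; revert this; cases y.2 <;> simp)
      omega
    | step z w' st' hw' hst' =>
      obtain ⟨i1, i2⟩ := ih z rfl
      set w1 := ltr g h z * w'
      have hz : (y.1, !y.2) ≠ z := fun h => hst (by rw [h])
      obtain ⟨i3, i4⟩ := i2 (y.1, !y.2) hz
      rw [ltr_inv] at i3 i4
      have h1 := T.L_mul (ltr g h y) w1
      have h2 := T.L_c (ltr g h y * w1) (ltr g h y)
      have e : (ltr g h y * w1)⁻¹ * ltr g h y = w1⁻¹ := by group
      rw [e, T.L_inv] at h2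
      have h3 : ∀ u, u ≠ y → T.c (ltr g h u) (ltr g h y * w1) = T.c (ltr g h u) (ltr g h y) ∧
          T.c (ltr g h u) (ltr g h y * w1) < T.L (ltr g h y * w1) := by
        intro u hu
        have h4 := n2 y u z hu hz.symm
        have h5 := T.ultra (ltr g h u) (ltr g h y * w1) (ltr g h y)
        have h6 := T.ultra (ltr g h u) (ltr g h y) (ltr g h y * w1)
        rw [T.c_comm (ltr g h y) (ltr g h y * w1)] at h5
        omega
      refine ⟨?_, h3⟩
      have := (h3 (y.1, !y.2) (by
        intro h; have := congrArg Prod.snd h; revert this; cases y.2 <;> simp)).2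
      omega

/-- **Grushko's theorem for pairs.** -/
theorem grushko (t : G) (ht : T.L t = 1) (a : G) (ha : T.L a = 0) (ha1 : a ≠ 1) (g h : G)
    (hgen : Generates ![g, h]) :
    ∃ g' h', NielsenEquiv ![g, h] ![g', h'] ∧ T.L g' = 1 ∧ T.L h' = 0 ∧
      ∀ a, T.L a = 0 → a ∈ Subgroup.zpowers h' := by
  classical
  by_cases hell : ∃ g' h' z, NielsenEquiv ![g, h] ![g', h'] ∧ T.L (z⁻¹ * h' * z) = 0
  · obtain ⟨g', h', z, he, hz⟩ := hell
    have hg' : Generates ![g', h'] := he.symm.generates hgen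
    have h1 := mv_conj_all g' h' hg' z⁻¹
    rw [inv_inv] at h1
    have h2 := T.pair_ell t ht _ _ (h1.symm.generates hg') hz
    exact ⟨_, _, he.trans h1, h2.1, hz, h2.2⟩
  · exfalso
    push Not at hell
    have hex : ∃ n : ℕ, ∃ g' h', NielsenEquiv ![g, h] ![g', h'] ∧ T.L g' + T.L h' = n :=
      ⟨_, g, h, NielsenEquiv.refl _, rfl⟩
    obtain ⟨g1, h1, he, hn⟩ := Nat.find_spec hex
    have hmin : T.Mini g1 h1 := by
      intro g2 h2 he2
      rw [hn]
      exact Nat.find_min' hex ⟨g2, h2, he.trans he2, rfl⟩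
    have hgen1 : Generates ![g1, h1] := he.symm.generates hgen
    have hgen2 : Generates ![h1, g1] := (mv_swap g1 h1).symm.generates hgen1
    have hyh : 2 * T.c h1 h1⁻¹ < T.L h1 := T.hyp_of_not_ell h1 fun z => hell g1 h1 z he
    have hyg : 2 * T.c g1 g1⁻¹ < T.L g1 :=
      T.hyp_of_not_ell g1 fun z => hell h1 g1 z (he.trans (mv_swap g1 h1))
    have n2 : ∀ y u v : Bool × Bool, u ≠ y → v ≠ (y.1, !y.2) →
        T.c (ltr g1 h1 u) (ltr g1 h1 y) + T.c (ltr g1 h1 y)⁻¹ (ltr g1 h1 v) <
          T.L (ltr g1 h1 y) := by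
      rintro ⟨b, s⟩ ⟨b1, s1⟩ ⟨b2, s2⟩ hu hv
      -- the two letters
      set Y := if b then g1 else h1 with hY
      set O := if b then h1 else g1 with hO
      have hmYO : T.Mini Y O := by
        rw [hY, hO]; cases b
        · exact Mini.swap T hmin
        · exact hmin
      have hgYO : Generates ![Y, O] := by
        rw [hY, hO]; cases b
        · exact hgen2
        · exact hgen1
      have hyY : 2 * T.c Y Y⁻¹ < T.L Y := by
        rw [hY]; cases b
        · exact hyh
        · exact hyg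
      set y := TreeLen.pw Y s with hy
      have hmy : T.Mini y O := Mini.pw T hmYO s true
      have hgy : Generates ![y, O] := by
        have : NielsenEquiv ![Y, O] ![y, O] := by
          rw [hy]; cases s
          · exact mv_inv0 Y O
          · exact NielsenEquiv.refl _
        exact this.symm.generates hgYO
      have hyy : 2 * T.c y y⁻¹ < T.L y := by
        rw [hy, T.c_pw, T.L_pw]; exact hyY
      have hly : ltr g1 h1 (b, s) = y := rfl
      have hlu : (ltr g1 h1 (b1, s1) = y⁻¹ ∧ b1 = b) ∨ ∃ c, ltr g1 h1 (b1, s1) = TreeLen.pw O c := by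
        by_cases hb : b1 = b
        · left
          subst hb
          have hs : s1 = !s := by
            cases s1 <;> cases s <;> simp_all
          subst hs
          exact ⟨ltr_inv g1 h1 (b1, s), rfl⟩
        · right
          refine ⟨s1, ?_⟩
          unfold ltr
          have : (if (b1, s1).1 then g1 else h1) = O := by
            rw [hO]; cases b <;> cases b1 <;> simp_all
          rw [this]
      have hlv : (ltr g1 h1 (b2, s2) = y ∧ b2 = b) ∨ ∃ c, ltr g1 h1 (b2, s2) = TreeLen.pw O c := by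
        by_cases hb : b2 = b
        · left
          subst hb
          have hs : s2 = s := by
            cases s2 <;> cases s <;> simp_all
          subst hs
          exact ⟨rfl, rfl⟩
        · right
          refine ⟨s2, ?_⟩
          unfold ltr
          have : (if (b2, s2).1 then g1 else h1) = O := by
            rw [hO]; cases b <;> cases b2 <;> simp_all
          rw [this]
      rw [hly]
      have hA : ∀ c, 2 * T.c (TreeLen.pw O c) y ≤ T.L y := fun c => by
        rw [T.c_comm]; exact (Mini.c_le T (Mini.pw T hmy true c)).1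
      have hB : ∀ c, 2 * T.c y⁻¹ (TreeLen.pw O c) ≤ T.L y := fun c => by
        have := (Mini.c_le T (Mini.pw T hmy false c)).1
        rw [show TreeLen.pw y false = y⁻¹ from rfl, T.L_inv] at this
        exact this
      rcases hlu with ⟨hu1, _⟩ | ⟨c1, hu1⟩
      · rcases hlv with ⟨hv1, _⟩ | ⟨c2, hv1⟩
        · rw [hu1, hv1, T.c_comm y⁻¹ y]; omega
        · have := hB c2
          rw [hu1, hv1, T.c_comm y⁻¹ y]; omega
      · rcases hlv with ⟨hv1, _⟩ | ⟨c2, hv1⟩
        · have := hA c1
          rw [hu1, hv1, T.c_comm y⁻¹ y]; omega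
        · rw [hu1, hv1]
          exact Mini.n2 T hmy hgy hyy c1 c2
    obtain ⟨st, hst⟩ := exists_RX g1 h1 hgen1 a
    have h3 := T.RX_len g1 h1 n2 hst
    cases hst with
    | one => exact ha1 rfl
    | step y w st' hw hst' =>
      have := (h3 y rfl).1
      omega

end TreeLen

end Pool.Agent.NE
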