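import Pool.Agent.helper43.NE.Fox

/-!
# MP_5c1f29_al: one-relator groups `⟨x_1, …, x_n, b | w(x_1, …, x_n, b^q)⟩`
-/

set_option autoImplicit false

open Finset

namespace Pool.Agent.NE

variable {n : ℕ}

/-- The relator `w(x_1, …, x_n, b^q)`, where `w` is a word in `n + 1` letters and `b` is the last
letter. -/
def rootRel (w : FreeGroup (Fin (n + 1))) (q : ℕ) : FreeGroup (Fin (n + 1)) :=
  FreeGroup.lift (Fin.snoc (α := fun _ => FreeGroup (Fin (n + 1)))
    (fun i => FreeGroup.of (Fin.castSucc i)) (FreeGroup.of (Fin.last n) ^ q)) w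

/-- The word `w(x_1, …, x_n, 1)`. -/
def killLast (w : FreeGroup (Fin (n + 1))) : FreeGroup (Fin n) :=
  FreeGroup.lift (Fin.snoc (α := fun _ => FreeGroup (Fin n)) FreeGroup.of 1) w

/-- The one-relator group `⟨x_1, …, x_n, b | w(x_1, …, x_n, b^q)⟩`. -/
abbrev RootGroup (w : FreeGroup (Fin (n + 1))) (q : ℕ) : Type :=
  PresentedGroup ({rootRel w q} : Set (FreeGroup (Fin (n + 1))))

/-- The tuple `(x_1, …, x_n, b^s)`. -/
def tup (w : FreeGroup (Fin (n + 1))) (q : ℕ) (s : ℤ) : Fin (n + 1) → RootGroup w q :=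
  Fin.snoc (α := fun _ => RootGroup w q) (fun i => PresentedGroup.of (Fin.castSucc i))
    (PresentedGroup.of (Fin.last n) ^ s)

/-! ### general lemmas -/

theorem lift_comp_lift {α β : Type} {H : Type} [Group H] (f : α → FreeGroup β) (g : β → H)
    (w : FreeGroup α) :
    FreeGroup.lift g (FreeGroup.lift f w) = FreeGroup.lift (fun a => FreeGroup.lift g (f a)) w := by
  have h : (FreeGroup.lift g).comp (FreeGroup.lift f) =
      FreeGroup.lift (fun a => FreeGroup.lift g (f a)) := by
    ext a; simp
  exact DFunLike.congr_fun h w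

theorem map_lift {α : Type} {H K : Type} [Group H] [Group K] (g : α → H) (φ : H →* K)
    (w : FreeGroup α) : φ (FreeGroup.lift g w) = FreeGroup.lift (fun a => φ (g a)) w := by
  have h : φ.comp (FreeGroup.lift g) = FreeGroup.lift (fun a => φ (g a)) := by
    ext a; simp
  exact DFunLike.congr_fun h w

theorem lift_rootRel {H : Type} [Group H] (f : Fin (n + 1) → H) (w : FreeGroup (Fin (n + 1)))
    (q : ℕ) : FreeGroup.lift f (rootRel w q) =
      FreeGroup.lift (Fin.snoc (α := fun _ => H) (fun i => f (Fin.castSucc i))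
        (f (Fin.last n) ^ q)) w := by
  unfold rootRel
  rw [lift_comp_lift]
  congr 1
  apply congrArg
  funext i
  refine Fin.lastCases ?_ (fun i => ?_) i
  · simp
  · simp

/-- the relation in the group -/
theorem rel_eq (w : FreeGroup (Fin (n + 1))) (q : ℕ) :
    FreeGroup.lift (Fin.snoc (α := fun _ => RootGroup w q)
      (fun i => PresentedGroup.of (Fin.castSucc i)) (PresentedGroup.of (Fin.last n) ^ q)) w = 1 := by
  have h1 := lift_rootRel (H := RootGroup w q) (fun i => PresentedGroup.of i) w q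
  rw [← h1]
  have h2 : FreeGroup.lift (fun i => (PresentedGroup.of i : RootGroup w q)) (rootRel w q) =
      PresentedGroup.mk _ (rootRel w q) := by
    have : FreeGroup.lift (fun i => (PresentedGroup.of i : RootGroup w q)) =
        PresentedGroup.mk _ := by
      ext i; simp [PresentedGroup.of]
    rw [this]
  rw [h2]
  exact PresentedGroup.one_of_mem rfl

/-- extension of a vector by zero -/
def Aff.ext0 {B : Type} [CommRing B] : Aff B (Fin n → B) →* Aff B (Fin (n + 1) → B) where
  toFun x := ⟨x.a, Fin.snoc (α := fun _ => B) x.v 0⟩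
  map_one' := by
    refine Aff.ext rfl ?_
    funext i
    refine Fin.lastCases ?_ (fun i => ?_) i
    · simp
    · simp
  map_mul' x y := by
    refine Aff.ext rfl ?_
    funext i
    refine Fin.lastCases ?_ (fun i => ?_) i
    · simp
    · simp

theorem ext0_foxHom {B : Type} [CommRing B] (ρ : Fin n → Bˣ) (t : Aff B (Fin (n + 1) → B))
    (q : ℕ) (ht : t ^ q = 1) (w : FreeGroup (Fin (n + 1))) :
    FreeGroup.lift (Fin.snoc (α := fun _ => Aff B (Fin (n + 1) → B))
      (fun i => ⟨ρ i, Pi.single (Fin.castSucc i) 1⟩) t) (rootRel w q) =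
      Aff.ext0 (foxHom ρ (killLast w)) := by
  rw [lift_rootRel]
  unfold killLast
  rw [map_lift, map_lift]
  congr 1
  apply congrArg
  funext i
  refine Fin.lastCases ?_ (fun i => ?_) i
  · simp [ht]
  · simp only [Fin.snoc_castSucc, foxHom, FreeGroup.lift_apply_of]
    refine Aff.ext rfl ?_
    show Pi.single (Fin.castSucc i) 1 = Fin.snoc (α := fun _ => B) (Pi.single i 1) 0
    funext j
    refine Fin.lastCases ?_ (fun j => ?_) j
    · simp
    · rw [Fin.snoc_castSucc]
      by_cases h : j = i
      · subst h; simp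
      · rw [Pi.single_eq_of_ne h, Pi.single_eq_of_ne]
        intro h2; exact h (Fin.castSucc_injective n h2)

/-- the affine representation of the group -/
def repr {B : Type} [CommRing B] (ρ : Fin n → Bˣ) (t : Aff B (Fin (n + 1) → B))
    (w : FreeGroup (Fin (n + 1))) (q : ℕ) (ht : t ^ q = 1) (hf : fox ρ (killLast w) = 0) :
    RootGroup w q →* Aff B (Fin (n + 1) → B) :=
  PresentedGroup.toGroup (f := Fin.snoc (α := fun _ => Aff B (Fin (n + 1) → B))
      (fun i => ⟨ρ i, Pi.single (Fin.castSucc i) 1⟩) t) (by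
    intro r hr
    rw [Set.mem_singleton_iff] at hr
    subst hr
    rw [ext0_foxHom ρ t q ht w, foxHom_eq_one ρ _ hf, map_one])

theorem repr_castSucc {B : Type} [CommRing B] (ρ : Fin n → Bˣ) (t : Aff B (Fin (n + 1) → B))
    (w : FreeGroup (Fin (n + 1))) (q : ℕ) (ht : t ^ q = 1) (hf : fox ρ (killLast w) = 0)
    (i : Fin n) : repr ρ t w q ht hf (PresentedGroup.of (Fin.castSucc i)) =
      ⟨ρ i, Pi.single (Fin.castSucc i) 1⟩ := by
  unfold repr
  rw [PresentedGroup.toGroup.of]
  simp

theorem repr_last {B : Type} [CommRing B] (ρ : Fin n → Bˣ) (t : Aff B (Fin (n + 1) → B))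
    (w : FreeGroup (Fin (n + 1))) (q : ℕ) (ht : t ^ q = 1) (hf : fox ρ (killLast w) = 0) :
    repr ρ t w q ht hf (PresentedGroup.of (Fin.last n)) = t := by
  unfold repr
  rw [PresentedGroup.toGroup.of]
  simp

theorem fox_map {B C : Type} [CommRing B] [CommRing C] (f : B →+* C) (ρ : Fin n → Bˣ)
    (u : FreeGroup (Fin n)) (i : Fin n) :
    fox (fun j => Units.map f.toMonoidHom (ρ j)) u i = f (fox ρ u i) := by
  have hl : ∀ v : FreeGroup (Fin n), ((FreeGroup.lift (fun j => Units.map f.toMonoidHom (ρ j)) v :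
      Cˣ) : C) = f ((FreeGroup.lift ρ v : Bˣ) : B) := by
    intro v
    rw [← map_lift ρ (Units.map f.toMonoidHom) v]
    rfl
  have hli : ∀ v : FreeGroup (Fin n),
      ((((FreeGroup.lift (fun j => Units.map f.toMonoidHom (ρ j)) v)⁻¹ : Cˣ)) : C) =
      f ((((FreeGroup.lift ρ v)⁻¹ : Bˣ)) : B) := by
    intro v
    rw [← map_inv, hl, map_inv]
  induction u using FreeGroup.induction_on with
  | C1 => simp [fox_one]
  | of j =>
    rw [fox_of, fox_of]
    by_cases h : i = j
    · subst h; simp
    · rw [Pi.single_eq_of_ne h, Pi.single_eq_of_ne h, map_zero]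
  | inv_of j ih =>
    rw [fox_inv, fox_inv, Pi.smul_apply, Pi.smul_apply, ih, hli]
    simp
  | mul v v' ihv ihw =>
    rw [fox_mul, fox_mul, Pi.add_apply, Pi.add_apply, Pi.smul_apply, Pi.smul_apply, ihv, ihw, hl]
    simp

/-! ### the determinant -/

section det

variable {G A : Type} [Group G] [CommRing A] {N : ℕ}

/-- the determinant of a tuple -/
def dt (σ : G →* Aff A (Fin N → A)) (g : Fin N → G) : A :=
  (Matrix.of fun i => (σ (g i)).v).det

theorem dt_step (σ : G →* Aff A (Fin N → A)) (S : Subgroup Aˣ) (hm : -1 ∈ S)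
    (hS : ∀ x, (σ x).a ∈ S) {g h : Fin N → G} (hs : Step g h) :
    ∃ u ∈ S, dt σ h = (u : A) * dt σ g := by
  cases hs with
  | perm π =>
    have h1 : (Matrix.of fun i => (σ ((g ∘ π) i)).v) =
        (Matrix.of fun i => (σ (g i)).v).submatrix π id := rfl
    have h2 : dt σ (g ∘ π) = ((Equiv.Perm.sign π : ℤ) : A) * dt σ g := by
      unfold dt
      rw [h1, Matrix.det_permute]
    rcases Int.units_eq_one_or (Equiv.Perm.sign π) with h3 | h3
    · exact ⟨1, one_mem _, by rw [h2, h3]; simp⟩
    · exact ⟨-1, hm, by rw [h2, h3]; simp⟩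
  | inv i =>
    refine ⟨-(σ (g i)).a⁻¹, ?_, ?_⟩
    · have : -(σ (g i)).a⁻¹ = -1 * (σ (g i)).a⁻¹ := by simp
      rw [this]
      exact mul_mem hm (inv_mem (hS _))
    · have h1 : (Matrix.of fun k => (σ (Function.update g i (g i)⁻¹ k)).v) =
          (Matrix.of fun k => (σ (g k)).v).updateRow i
            ((((-(σ (g i)).a⁻¹ : Aˣ)) : A) • (σ (g i)).v) := by
        ext k l
        by_cases hk : k = i
        · subst hk
          rw [Matrix.updateRow_self, Matrix.of_apply, Function.update_self, map_inv]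
          simp
        · rw [Matrix.updateRow_ne hk, Matrix.of_apply, Matrix.of_apply,
            Function.update_of_ne hk]
      unfold dt
      rw [h1, Matrix.det_updateRow_smul]
      congr 1
      have h2 : (σ (g i)).v = (Matrix.of fun k => (σ (g k)).v) i := rfl
      rw [h2, Matrix.updateRow_eq_self]
  | mul i j hij =>
    refine ⟨1, one_mem _, ?_⟩
    have h1 : (Matrix.of fun k => (σ (Function.update g i (g i * g j) k)).v) =
        (Matrix.of fun k => (σ (g k)).v).updateRow i
          ((Matrix.of fun k => (σ (g k)).v) i +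
            ((σ (g i)).a : A) • (Matrix.of fun k => (σ (g k)).v) j) := by
      ext k l
      by_cases hk : k = i
      · subst hk
        rw [Matrix.updateRow_self, Matrix.of_apply, Function.update_self, map_mul]
        rfl
      · rw [Matrix.updateRow_ne hk, Matrix.of_apply, Matrix.of_apply,
          Function.update_of_ne hk]
    unfold dt
    rw [h1, Matrix.det_updateRow_add_smul_self _ hij.symm, Units.val_one, one_mul]

theorem dt_equiv (σ : G →* Aff A (Fin N → A)) (S : Subgroup Aˣ) (hm : -1 ∈ S)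
    (hS : ∀ x, (σ x).a ∈ S) {g h : Fin N → G} (hs : NielsenEquiv g h) :
    ∃ u ∈ S, dt σ h = (u : A) * dt σ g := by
  induction hs with
  | refl => exact ⟨1, one_mem _, by simp⟩
  | tail _ h1 ih =>
    obtain ⟨u, hu, h2⟩ := ih
    obtain ⟨u', hu', h3⟩ := dt_step σ S hm hS h1
    exact ⟨u' * u, mul_mem hu' hu, by rw [h3, h2, Units.val_mul, mul_assoc]⟩

end det

/-! ### the rank -/

theorem rank_le {G K : Type} [Group G] [Field K] {N m : ℕ} (σ : G →* Aff K (Fin N → K))
    (x : Fin N → G) (hx : ∀ i, (σ (x i)).v = Pi.single i 1) (g : Fin m → G) (hg : Generates g) :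
    N ≤ m := by
  let W : Submodule K (Fin N → K) := Submodule.span K (Set.range fun i => (σ (g i)).v)
  let H : Subgroup G :=
    { carrier := {y | (σ y).v ∈ W}
      mul_mem' := by
        intro a b ha hb
        show (σ (a * b)).v ∈ W
        rw [map_mul, Aff.mul_v]
        exact W.add_mem ha (W.smul_mem _ hb)
      one_mem' := by
        show (σ 1).v ∈ W
        rw [map_one]; exact W.zero_mem
      inv_mem' := by
        intro a ha
        show (σ a⁻¹).v ∈ W
        rw [map_inv, Aff.inv_v]
        exact W.smul_mem _ ha }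
  have hH : H = ⊤ := by
    rw [← top_le_iff, ← hg, Subgroup.closure_le]
    rintro _ ⟨i, rfl⟩
    exact Submodule.subset_span ⟨i, rfl⟩
  have hW : W = ⊤ := by
    rw [← top_le_iff]
    intro v _
    have hv : v = ∑ i, v i • Pi.single i (1 : K) := by
      funext j
      rw [Finset.sum_apply, Finset.sum_eq_single j]
      · simp
      · intro i _ hi; simp [Pi.single_eq_of_ne hi.symm]
      · intro h; exact absurd (Finset.mem_univ j) h
    rw [hv]
    refine W.sum_mem fun i _ => W.smul_mem _ ?_
    have : x i ∈ H := by rw [hH]; trivial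
    have h2 : (σ (x i)).v ∈ W := this
    rwa [hx] at h2
  have h1 : Module.finrank K W ≤ m := by
    have := finrank_range_le_card (R := K) (fun i => (σ (g i)).v)
    rwa [Fintype.card_fin] at this
  rw [hW, finrank_top, Module.finrank_fin_fun] at h1
  exact h1

theorem aff_pow {B M : Type} [CommRing B] [AddCommGroup M] [Module B M] (a : Bˣ) (v : M) (k : ℕ) :
    (⟨a, v⟩ : Aff B M) ^ k = ⟨a ^ k, (∑ i ∈ range k, (a : B) ^ i) • v⟩ := by
  induction k with
  | zero => rw [pow_zero]; refine Aff.ext (pow_zero a).symm ?_; simp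
  | succ k ih =>
    rw [pow_succ, ih]
    refine Aff.ext (pow_succ a k).symm ?_
    simp only [Aff.mul_v, Units.val_pow_eq_pow_val]
    rw [Finset.sum_range_succ, add_smul]

theorem root_exists (K : Type) [Field K] [IsAlgClosed K] (q : ℕ) (hq : 2 ≤ q) :
    ∃ β : Kˣ, ∑ i ∈ range q, (β : K) ^ i = 0 := by
  let P : Polynomial K := ∑ i ∈ range q, Polynomial.X ^ i
  have hdeg : P.degree ≠ 0 := by
    have h1 : P.coeff 1 = 1 := by
      simp only [P, Polynomial.finsetSum_coeff, Polynomial.coeff_X_pow]
      rw [Finset.sum_eq_single 1]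
      · simp
      · intro b _ hb; simp [Ne.symm hb]
      · intro h; exact absurd (Finset.mem_range.2 (by omega)) h
    intro h0
    rw [Polynomial.eq_C_of_degree_eq_zero h0, Polynomial.coeff_C] at h1
    simp at h1
  obtain ⟨x, hx⟩ := IsAlgClosed.exists_root P hdeg
  have hx' : ∑ i ∈ range q, x ^ i = 0 := by
    have : P.eval x = 0 := hx
    simpa [P, Polynomial.eval_finsetSum] using this
  have hx0 : x ≠ 0 := by
    rintro rfl
    rw [Finset.sum_eq_single 0] at hx'
    · simp at hx'
    · intro b _ hb; simp [hb]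
    · intro h; exact absurd (Finset.mem_range.2 (by omega)) h
  exact ⟨Units.mk0 x hx0, hx'⟩

/-- the rank of the group -/
theorem root_rank (w : FreeGroup (Fin (n + 1))) (q : ℕ) (hq : 2 ≤ q) (hw : FoxZero (killLast w))
    (m : ℕ) (g : Fin m → RootGroup w q) (hg : Generates g) : n + 1 ≤ m := by
  obtain ⟨B, _, _, ρ, hρ⟩ := hw
  obtain ⟨I, hI⟩ := Ideal.exists_maximal B
  let _ : Field (B ⧸ I) := Ideal.Quotient.field I
  let K := AlgebraicClosure (B ⧸ I)
  let f : B →+* K := (algebraMap (B ⧸ I) K).comp (Ideal.Quotient.mk I)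
  obtain ⟨β, hβ⟩ := root_exists K q hq
  have hβq : β ^ q = 1 := by
    have := geom_sum_mul (β : K) q
    rw [hβ, zero_mul] at this
    exact Units.ext (by rw [Units.val_pow_eq_pow_val]; exact (sub_eq_zero.1 this.symm))
  let t : Aff K (Fin (n + 1) → K) := ⟨β, Pi.single (Fin.last n) 1⟩
  have ht : t ^ q = 1 := by
    rw [aff_pow, hβ, hβq]
    exact Aff.ext rfl (by simp)
  have hf : fox (fun j => Units.map f.toMonoidHom (ρ j)) (killLast w) = 0 := by
    funext i
    rw [fox_map, hρ]
    simp
  refine rank_le (repr _ t w q ht hf) (fun i => PresentedGroup.of i) ?_ g hg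
  intro i
  refine Fin.lastCases ?_ (fun i => ?_) i
  · rw [repr_last]
  · rw [repr_castSucc]

/-! ### the classes of the tuples `(x_1, …, x_n, b^s)` -/

section cls

variable (B : Type) [CommRing B] (q : ℕ)

open AddMonoidAlgebra in
/-- the units `c β^j` of the group ring of the cyclic group of order `q` -/
noncomputable def mon : Bˣ × Multiplicative (ZMod q) →* (AddMonoidAlgebra B (ZMod q))ˣ :=
  MonoidHom.coprod (Units.map (algebraMap B (AddMonoidAlgebra B (ZMod q))).toMonoidHom)
    (AddMonoidAlgebra.of B (ZMod q)).toHomUnits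

theorem mon_val (c : Bˣ) (j : ZMod q) :
    ((mon B q (c, Multiplicative.ofAdd j) : (AddMonoidAlgebra B (ZMod q))ˣ) :
      AddMonoidAlgebra B (ZMod q)) = AddMonoidAlgebra.single j (c : B) := by
  simp [mon, AddMonoidAlgebra.single_mul_single]

end cls

end Pool.Agent.NE
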