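import Pool.Agent.helper43.NE.RootMain

/-!
# MP_5c1f29_al: one-relator groups with relators `w(x_1, …, x_n, b^q)` and property (N)

If the Fox derivatives of `w(x_1, …, x_n, 1)` have a common zero in a nonzero commutative ring, then
the tuples `(x_1, …, x_n, b^s)` are distinguished, up to Nielsen equivalence, by the residue class
`± s` modulo `q`, and `d(G) = n + 1`.
-/

set_option autoImplicit false

namespace Pool.Agent.Results.MP_5c1f29_al.RootFox

open Pool.Agent.NE

theorem killLast_powWord {n : ℕ} (v : FreeGroup (Fin (n + 1))) (s : ℤ) :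
    killLast (powWord v s) = killLast v := by
  unfold killLast powWord
  rw [map_mul, map_inv, FreeGroup.lift_apply_of, Fin.snoc_last, inv_one, mul_one, lift_comp_lift]
  congr 1
  apply congrArg
  funext i
  refine Fin.lastCases ?_ (fun i => ?_) i
  · simp
  · simp

theorem gen_one {n : ℕ} (w : FreeGroup (Fin (n + 1))) (q : ℕ) : Generates (tup w q 1) := by
  refine gen_of w q 1 isCoprime_one_left ?_
  have h : (PresentedGroup.of (Fin.last n) : RootGroup w q) ∈
      Subgroup.closure (Set.range (tup w q 1)) :=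
    Subgroup.subset_closure ⟨Fin.last n, by rw [tup_last, zpow_one]⟩
  exact Subgroup.pow_mem _ h q

theorem not_propertyN {n : ℕ} (w : FreeGroup (Fin (n + 1))) (q : ℕ) (hq : 2 ≤ q)
    (hw : FoxZero (killLast w)) (s : ℤ) (hg : Generates (tup w q s))
    (hs : ¬ (s ≡ 1 [ZMOD q] ∨ s ≡ -1 [ZMOD q])) : ¬ PropertyN (RootGroup w q) := by
  intro hN
  have h := hN (n + 1) (tup w q 1) (tup w q s) ⟨gen_one w q, root_rank w q hq hw⟩
    ⟨hg, root_rank w q hq hw⟩
  exact hs (cls_ne w q hw 1 s h)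

theorem result :
    (∀ (n : ℕ) (u : FreeGroup (Fin n)) (k : ℕ), k ≠ 1 → (∀ i, (k : ℤ) ∣ expSum i u) →
      FoxZero u) ∧
    ∀ (n q : ℕ), 2 ≤ q →
      (∀ w : FreeGroup (Fin (n + 1)), FoxZero (killLast w) →
        IsMinGen (tup w q 1) ∧
        ∀ s t : ℤ, NielsenEquiv (tup w q s) (tup w q t) →
          t ≡ s [ZMOD q] ∨ t ≡ -s [ZMOD q]) ∧
      (∀ (v : FreeGroup (Fin (n + 1))) (s : ℤ), FoxZero (killLast v) → IsCoprime s (q : ℤ) →
        IsMinGen (tup (powWord v s) q s) ∧
        (¬ (s ≡ 1 [ZMOD q] ∨ s ≡ -1 [ZMOD q]) → ¬ PropertyN (RootGroup (powWord v s) q))) ∧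
      (∀ u : FreeGroup (Fin n), FoxZero u →
        (∀ s : ℤ, IsCoprime s (q : ℤ) → IsMinGen (tup (rootWord u) q s)) ∧
        (∀ s t : ℤ, NielsenEquiv (tup (rootWord u) q s) (tup (rootWord u) q t) ↔
          (t ≡ s [ZMOD q] ∨ t ≡ -s [ZMOD q])) ∧
        (q = 5 ∨ 7 ≤ q → ¬ PropertyN (RootGroup (rootWord u) q))) := by
  refine ⟨fun n u k hk h => foxZero_of_dvd u k hk h, fun n q hq => ⟨?_, ?_, ?_⟩⟩
  · intro w hw
    exact ⟨⟨gen_one w q, root_rank w q hq hw⟩, fun s t h => cls_ne w q hw s t h⟩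
  · intro v s hv hs
    rw [← killLast_powWord v s] at hv
    exact ⟨⟨gen_powWord v q s hs, root_rank _ q hq hv⟩,
      fun h => not_propertyN _ q hq hv s (gen_powWord v q s hs) h⟩
  · intro u hu
    rw [← killLast_rootWord u] at hu
    have hg : ∀ s : ℤ, IsCoprime s (q : ℤ) → Generates (tup (rootWord u) q s) := by
      intro s hs
      rw [rootWord_eq u s]
      exact gen_powWord _ q s hs
    refine ⟨fun s hs => ⟨hg s hs, root_rank _ q hq hu⟩, fun s t => ⟨cls_ne _ q hu s t,
      equiv_of_modEq u q s t⟩, fun h => ?_⟩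
    obtain ⟨s, hs, hs2⟩ := exists_unit q h
    exact not_propertyN _ q hq hu s (hg s hs) hs2

end Pool.Agent.Results.MP_5c1f29_al.RootFox
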