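import Pool.Agent.helper43.NE.RootMain

/-!
# MP_5c1f29_al: one-relator groups `⟨x_1, …, x_n, b | b = v(x_1, …, x_n, u(x_1, …, x_n, b))⟩`
-/

set_option autoImplicit false

open Finset

namespace Pool.Agent.NE

variable {n : ℕ}

/-- The relator `v(x_1, …, x_n, u) b⁻¹`, where `u`, `v` are words in `n + 1` letters and `b` is the
last letter. -/
def subWord (v u : FreeGroup (Fin (n + 1))) : FreeGroup (Fin (n + 1)) :=
  FreeGroup.lift (Fin.snoc (α := fun _ => FreeGroup (Fin (n + 1)))
    (fun i => FreeGroup.of (Fin.castSucc i)) u) v * (FreeGroup.of (Fin.last n))⁻¹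

/-- The one-relator group `⟨x_1, …, x_n, b | b = v(x_1, …, x_n, u(x_1, …, x_n, b))⟩`. -/
abbrev SubGroup (v u : FreeGroup (Fin (n + 1))) : Type :=
  PresentedGroup ({subWord v u} : Set (FreeGroup (Fin (n + 1))))

/-- The tuple `(x_1, …, x_n, s)`, `s` a word in `x_1, …, x_n, b`. -/
def stup (v u s : FreeGroup (Fin (n + 1))) : Fin (n + 1) → SubGroup v u :=
  Fin.snoc (α := fun _ => SubGroup v u) (fun i => PresentedGroup.of (Fin.castSucc i))
    (PresentedGroup.mk _ s)

theorem stup_last (v u s : FreeGroup (Fin (n + 1))) :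
    stup v u s (Fin.last n) = PresentedGroup.mk _ s := by
  unfold stup; rw [Fin.snoc_last]

theorem stup_castSucc (v u s : FreeGroup (Fin (n + 1))) (i : Fin n) :
    stup v u s (Fin.castSucc i) = PresentedGroup.of (Fin.castSucc i) := by
  unfold stup; rw [Fin.snoc_castSucc]

/-! ### generation -/

theorem sub_rel (v u : FreeGroup (Fin (n + 1))) :
    (PresentedGroup.of (Fin.last n) : SubGroup v u) = FreeGroup.lift (stup v u u) v := by
  have h : PresentedGroup.mk ({subWord v u} : Set (FreeGroup (Fin (n + 1))))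
      (FreeGroup.lift (Fin.snoc (α := fun _ => FreeGroup (Fin (n + 1)))
        (fun i => FreeGroup.of (Fin.castSucc i)) u) v * (FreeGroup.of (Fin.last n))⁻¹) = 1 :=
    PresentedGroup.one_of_mem rfl
  have h2 : PresentedGroup.mk ({subWord v u} : Set (FreeGroup (Fin (n + 1))))
      (FreeGroup.lift (Fin.snoc (α := fun _ => FreeGroup (Fin (n + 1)))
        (fun i => FreeGroup.of (Fin.castSucc i)) u) v) = FreeGroup.lift (stup v u u) v := by
    rw [map_lift]
    congr 1
    apply congrArg
    funext i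
    refine Fin.lastCases ?_ (fun i => ?_) i
    · rw [Fin.snoc_last, stup_last]
    · rw [Fin.snoc_castSucc, stup_castSucc]; rfl
  rw [map_mul, map_inv, mul_inv_eq_one, h2] at h
  exact h.symm

theorem sub_gen (v u s : FreeGroup (Fin (n + 1)))
    (hs : (PresentedGroup.of (Fin.last n) : SubGroup v u) ∈
      Subgroup.closure (Set.range (stup v u s))) : Generates (stup v u s) := by
  unfold Generates
  rw [← top_le_iff, ← PresentedGroup.closure_range_of, Subgroup.closure_le]
  rintro _ ⟨i, rfl⟩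
  refine Fin.lastCases ?_ (fun i => ?_) i
  · exact hs
  · exact Subgroup.subset_closure ⟨Fin.castSucc i, stup_castSucc v u s i⟩

theorem sub_gen_b (v u : FreeGroup (Fin (n + 1))) :
    Generates (stup v u (FreeGroup.of (Fin.last n))) :=
  sub_gen v u _ (Subgroup.subset_closure ⟨Fin.last n, stup_last v u _⟩)

theorem sub_gen_u (v u : FreeGroup (Fin (n + 1))) : Generates (stup v u u) := by
  apply sub_gen
  rw [sub_rel]
  have h : ∀ i, stup v u u i ∈ Subgroup.closure (Set.range (stup v u u)) :=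
    fun i => Subgroup.subset_closure ⟨i, rfl⟩
  exact lift_mem _ _ h v

/-! ### the representation -/

section rep

variable {B : Type} [CommRing B]

/-- The units `(ρ_1, …, ρ_n, 1)`. -/
def ext1 (ρ : Fin n → Bˣ) : Fin (n + 1) → Bˣ := Fin.snoc (α := fun _ => Bˣ) ρ 1

/-- restriction of a vector -/
def Aff.res : Aff B (Fin (n + 1) → B) →* Aff B (Fin n → B) where
  toFun x := ⟨x.a, fun i => x.v (Fin.castSucc i)⟩
  map_one' := Aff.ext rfl rfl
  map_mul' _ _ := Aff.ext rfl rfl

/-- functoriality -/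
def Aff.mapL {M N : Type} [AddCommGroup M] [Module B M] [AddCommGroup N] [Module B N]
    (L : M →ₗ[B] N) : Aff B M →* Aff B N where
  toFun x := ⟨x.a, L x.v⟩
  map_one' := Aff.ext rfl (by simp)
  map_mul' x y := Aff.ext rfl (by simp)

theorem fox_kill (ρ : Fin n → Bˣ) (v : FreeGroup (Fin (n + 1))) (hv : killLast v = 1) :
    FreeGroup.lift (ext1 ρ) v = 1 ∧ ∀ i, fox (ext1 ρ) v (Fin.castSucc i) = 0 := by
  have h1 : Aff.res (foxHom (ext1 ρ) v) = foxHom ρ (killLast v) := by
    unfold killLast
    have h2 : (Aff.res).comp (foxHom (ext1 ρ)) = (foxHom ρ).comp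
        (FreeGroup.lift (Fin.snoc (α := fun _ => FreeGroup (Fin n)) FreeGroup.of 1)) := by
      ext i : 1
      refine Fin.lastCases ?_ (fun i => ?_) i
      · rw [MonoidHom.comp_apply, MonoidHom.comp_apply, FreeGroup.lift_apply_of, Fin.snoc_last,
          map_one]
        unfold foxHom ext1
        rw [FreeGroup.lift_apply_of, Fin.snoc_last]
        refine Aff.ext rfl ?_
        funext j
        show (Pi.single (Fin.last n) (1 : B) : Fin (n + 1) → B) (Fin.castSucc j) = 0
        rw [Pi.single_eq_of_ne (Fin.castSucc_lt_last j).ne]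
      · rw [MonoidHom.comp_apply, MonoidHom.comp_apply, FreeGroup.lift_apply_of, Fin.snoc_castSucc]
        unfold foxHom ext1
        rw [FreeGroup.lift_apply_of, FreeGroup.lift_apply_of, Fin.snoc_castSucc]
        refine Aff.ext rfl ?_
        funext j
        show (Pi.single (Fin.castSucc i) (1 : B) : Fin (n + 1) → B) (Fin.castSucc j) =
          (Pi.single i (1 : B) : Fin n → B) j
        by_cases h : j = i
        · subst h; simp
        · rw [Pi.single_eq_of_ne h, Pi.single_eq_of_ne]
          intro h2; exact h (Fin.castSucc_injective n h2)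
    exact DFunLike.congr_fun h2 v
  rw [hv, map_one] at h1
  constructor
  · have := congrArg Aff.a h1
    rw [← foxHom_a]
    exact this
  · intro i
    have := congrFun (congrArg Aff.v h1) i
    exact this

theorem vec_eq (w : Fin (n + 1) → B) (hw : ∀ i, w (Fin.castSucc i) = 0) :
    w = w (Fin.last n) • Pi.single (Fin.last n) (1 : B) := by
  funext j
  refine Fin.lastCases ?_ (fun j => ?_) j
  · simp
  · rw [hw, Pi.smul_apply, Pi.single_eq_of_ne (Fin.castSucc_lt_last j).ne, smul_zero]

theorem foxHom_kill (ρ : Fin n → Bˣ) (v : FreeGroup (Fin (n + 1))) (hv : killLast v = 1) :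
    foxHom (ext1 ρ) v = ⟨1, fox (ext1 ρ) v (Fin.last n) • Pi.single (Fin.last n) (1 : B)⟩ := by
  obtain ⟨h1, h2⟩ := fox_kill ρ v hv
  refine Aff.ext ?_ ?_
  · rw [foxHom_a]; exact h1
  · exact vec_eq _ h2

/-- the chain rule -/
theorem chain (ρ : Fin n → Bˣ) (v : FreeGroup (Fin (n + 1))) (hv : killLast v = 1)
    (y : Fin (n + 1) → B) :
    FreeGroup.lift (Fin.snoc (α := fun _ => Aff B (Fin (n + 1) → B))
      (fun i => ⟨ρ i, Pi.single (Fin.castSucc i) 1⟩) ⟨1, y⟩) v =
      ⟨1, fox (ext1 ρ) v (Fin.last n) • y⟩ := by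
  let L : (Fin (n + 1) → B) →ₗ[B] (Fin (n + 1) → B) :=
    { toFun := fun w => Fin.snoc (α := fun _ => B) (fun i => w (Fin.castSucc i)) 0 +
        w (Fin.last n) • y
      map_add' := by
        intro a b
        funext j
        refine Fin.lastCases ?_ (fun j => ?_) j
        · simp [add_mul]
        · simp [add_mul]; ring
      map_smul' := by
        intro a b
        funext j
        refine Fin.lastCases ?_ (fun j => ?_) j
        · simp [mul_assoc]
        · simp [mul_assoc, mul_add] }
  have h1 : (Aff.mapL L).comp (foxHom (ext1 ρ)) =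
      FreeGroup.lift (Fin.snoc (α := fun _ => Aff B (Fin (n + 1) → B))
        (fun i => ⟨ρ i, Pi.single (Fin.castSucc i) 1⟩) ⟨1, y⟩) := by
    ext i : 1
    refine Fin.lastCases ?_ (fun i => ?_) i
    · rw [MonoidHom.comp_apply, FreeGroup.lift_apply_of, Fin.snoc_last]
      unfold foxHom ext1
      rw [FreeGroup.lift_apply_of, Fin.snoc_last]
      refine Aff.ext rfl ?_
      show L (Pi.single (Fin.last n) 1) = y
      funext j
      refine Fin.lastCases ?_ (fun j => ?_) j
      · simp [L]
      · simp only [L, LinearMap.coe_mk, AddHom.coe_mk, Pi.add_apply, Fin.snoc_castSucc,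
          Pi.smul_apply, smul_eq_mul, Pi.single_eq_same, one_mul]
        rw [Pi.single_eq_of_ne (Fin.castSucc_lt_last j).ne, zero_add]
    · rw [MonoidHom.comp_apply, FreeGroup.lift_apply_of, Fin.snoc_castSucc]
      unfold foxHom ext1
      rw [FreeGroup.lift_apply_of, Fin.snoc_castSucc]
      refine Aff.ext rfl ?_
      show L (Pi.single (Fin.castSucc i) 1) = Pi.single (Fin.castSucc i) 1
      funext j
      refine Fin.lastCases ?_ (fun j => ?_) j
      · simp only [L, LinearMap.coe_mk, AddHom.coe_mk, Pi.add_apply, Fin.snoc_last,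
          Pi.smul_apply, smul_eq_mul]
        rw [Pi.single_eq_of_ne (Fin.castSucc_lt_last i).ne']; simp
      · simp only [L, LinearMap.coe_mk, AddHom.coe_mk, Pi.add_apply, Fin.snoc_castSucc,
          Pi.smul_apply, smul_eq_mul]
        rw [Pi.single_eq_of_ne (Fin.castSucc_lt_last i).ne']; simp
  rw [← h1, MonoidHom.comp_apply, foxHom_kill ρ v hv]
  refine Aff.ext rfl ?_
  show L (fox (ext1 ρ) v (Fin.last n) • Pi.single (Fin.last n) 1) = _
  rw [map_smul]
  congr 1
  funext j
  refine Fin.lastCases ?_ (fun j => ?_) j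
  · simp [L]
  · simp only [L, LinearMap.coe_mk, AddHom.coe_mk, Pi.add_apply, Fin.snoc_castSucc,
      Pi.smul_apply, smul_eq_mul, Pi.single_eq_same, one_mul]
    rw [Pi.single_eq_of_ne (Fin.castSucc_lt_last j).ne, zero_add]

theorem foxHom_subWord (ρ : Fin n → Bˣ) (v u : FreeGroup (Fin (n + 1))) (hv : killLast v = 1)
    (hu : killLast u = 1)
    (h : fox (ext1 ρ) v (Fin.last n) * fox (ext1 ρ) u (Fin.last n) = 1) :
    foxHom (ext1 ρ) (subWord v u) = 1 := by
  unfold subWord
  rw [map_mul, map_inv, map_lift]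
  have h1 : (fun a => foxHom (ext1 ρ) (Fin.snoc (α := fun _ => FreeGroup (Fin (n + 1)))
      (fun i => FreeGroup.of (Fin.castSucc i)) u a)) =
      Fin.snoc (α := fun _ => Aff B (Fin (n + 1) → B))
        (fun i => ⟨ρ i, Pi.single (Fin.castSucc i) 1⟩)
        ⟨1, fox (ext1 ρ) u (Fin.last n) • Pi.single (Fin.last n) (1 : B)⟩ := by
    funext i
    refine Fin.lastCases ?_ (fun i => ?_) i
    · rw [Fin.snoc_last, Fin.snoc_last, foxHom_kill ρ u hu]
    · rw [Fin.snoc_castSucc, Fin.snoc_castSucc]
      unfold foxHom ext1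
      rw [FreeGroup.lift_apply_of, Fin.snoc_castSucc]
  rw [h1, chain ρ v hv, smul_smul, h, one_smul]
  have h2 : foxHom (ext1 ρ) (FreeGroup.of (Fin.last n)) = ⟨1, Pi.single (Fin.last n) (1 : B)⟩ := by
    unfold foxHom ext1
    rw [FreeGroup.lift_apply_of, Fin.snoc_last]
  rw [h2, mul_inv_cancel]

/-- the affine representation of the group -/
def srep (ρ : Fin n → Bˣ) (v u : FreeGroup (Fin (n + 1))) (hv : killLast v = 1)
    (hu : killLast u = 1)
    (h : fox (ext1 ρ) v (Fin.last n) * fox (ext1 ρ) u (Fin.last n) = 1) :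
    SubGroup v u →* Aff B (Fin (n + 1) → B) :=
  PresentedGroup.toGroup (f := fun i => ⟨ext1 ρ i, Pi.single i 1⟩) (by
    intro r hr
    rw [Set.mem_singleton_iff] at hr
    subst hr
    exact foxHom_subWord ρ v u hv hu h)

theorem srep_of (ρ : Fin n → Bˣ) (v u : FreeGroup (Fin (n + 1))) (hv : killLast v = 1)
    (hu : killLast u = 1)
    (h : fox (ext1 ρ) v (Fin.last n) * fox (ext1 ρ) u (Fin.last n) = 1) (i : Fin (n + 1)) :
    srep ρ v u hv hu h (PresentedGroup.of i) = ⟨ext1 ρ i, Pi.single i 1⟩ := by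
  unfold srep
  rw [PresentedGroup.toGroup.of]

theorem srep_mk (ρ : Fin n → Bˣ) (v u : FreeGroup (Fin (n + 1))) (hv : killLast v = 1)
    (hu : killLast u = 1)
    (h : fox (ext1 ρ) v (Fin.last n) * fox (ext1 ρ) u (Fin.last n) = 1)
    (s : FreeGroup (Fin (n + 1))) :
    srep ρ v u hv hu h (PresentedGroup.mk _ s) = foxHom (ext1 ρ) s := by
  have h1 : (srep ρ v u hv hu h).comp (PresentedGroup.mk _) = foxHom (ext1 ρ) := by
    ext i : 1
    rw [MonoidHom.comp_apply]
    have : PresentedGroup.mk ({subWord v u} : Set (FreeGroup (Fin (n + 1)))) (FreeGroup.of i) =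
      PresentedGroup.of i := rfl
    rw [this, srep_of]
    unfold foxHom
    rw [FreeGroup.lift_apply_of]
  exact DFunLike.congr_fun h1 s

theorem fox_ext1_map {C : Type} [CommRing C] (f : B →+* C) (ρ : Fin n → Bˣ)
    (u : FreeGroup (Fin (n + 1))) (i : Fin (n + 1)) :
    fox (ext1 fun j => Units.map f.toMonoidHom (ρ j)) u i = f (fox (ext1 ρ) u i) := by
  rw [← fox_map]
  have : ext1 (fun j => Units.map f.toMonoidHom (ρ j)) =
      fun j => Units.map f.toMonoidHom (ext1 ρ j) := by
    funext j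
    unfold ext1
    refine Fin.lastCases ?_ (fun j => ?_) j
    · rw [Fin.snoc_last, Fin.snoc_last, map_one]
    · rw [Fin.snoc_castSucc, Fin.snoc_castSucc]
  rw [this]

/-- the rank -/
theorem sub_rank [Nontrivial B] (ρ : Fin n → Bˣ) (v u : FreeGroup (Fin (n + 1)))
    (hv : killLast v = 1) (hu : killLast u = 1)
    (h : fox (ext1 ρ) v (Fin.last n) * fox (ext1 ρ) u (Fin.last n) = 1)
    (m : ℕ) (g : Fin m → SubGroup v u) (hg : Generates g) : n + 1 ≤ m := by
  obtain ⟨I, hI⟩ := Ideal.exists_maximal B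
  let _ : Field (B ⧸ I) := Ideal.Quotient.field I
  let f : B →+* B ⧸ I := Ideal.Quotient.mk I
  have h' : fox (ext1 fun j => Units.map f.toMonoidHom (ρ j)) v (Fin.last n) *
      fox (ext1 fun j => Units.map f.toMonoidHom (ρ j)) u (Fin.last n) = 1 := by
    rw [fox_ext1_map, fox_ext1_map, ← map_mul, h, map_one]
  refine rank_le (srep _ v u hv hu h') (fun i => PresentedGroup.of i) ?_ g hg
  intro i
  rw [srep_of]

/-- the determinant -/
theorem dt_stup (ρ : Fin n → Bˣ) (v u : FreeGroup (Fin (n + 1)))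
    (hv : killLast v = 1) (hu : killLast u = 1)
    (h : fox (ext1 ρ) v (Fin.last n) * fox (ext1 ρ) u (Fin.last n) = 1)
    (s : FreeGroup (Fin (n + 1))) (hs : killLast s = 1) :
    dt (srep ρ v u hv hu h) (stup v u s) = fox (ext1 ρ) s (Fin.last n) := by
  have h1 : (Matrix.of fun i => (srep ρ v u hv hu h (stup v u s i)).v) =
      (1 : Matrix (Fin (n + 1)) (Fin (n + 1)) B).updateRow (Fin.last n)
        (fox (ext1 ρ) s (Fin.last n) • (1 : Matrix (Fin (n + 1)) (Fin (n + 1)) B) (Fin.last n)) := by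
    ext i j
    rw [Matrix.of_apply]
    refine Fin.lastCases ?_ (fun i => ?_) i
    · rw [Matrix.updateRow_self, stup_last, srep_mk, foxHom_kill ρ s hs]
      simp only [Pi.smul_apply]
      congr 1
      rw [Matrix.one_apply, Pi.single_apply]
      simp only [eq_comm]
    · rw [Matrix.updateRow_ne (Fin.castSucc_lt_last i).ne, stup_castSucc, srep_of,
        Matrix.one_apply]
      show (Pi.single (Fin.castSucc i) (1 : B) : Fin (n + 1) → B) j = _
      rw [Pi.single_apply]
      simp only [eq_comm]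
  unfold dt
  rw [h1, Matrix.det_updateRow_smul, Matrix.updateRow_eq_self, Matrix.det_one, mul_one]

/-- **The criterion.** -/
theorem sub_criterion (ρ : Fin n → Bˣ) (v u : FreeGroup (Fin (n + 1)))
    (hv : killLast v = 1) (hu : killLast u = 1)
    (h : fox (ext1 ρ) v (Fin.last n) * fox (ext1 ρ) u (Fin.last n) = 1)
    (he : NielsenEquiv (stup v u (FreeGroup.of (Fin.last n))) (stup v u u)) :
    ∃ x ∈ Subgroup.closure (insert (-1) (Set.range ρ)), fox (ext1 ρ) u (Fin.last n) = (x : B) := by
  set S := Subgroup.closure (insert (-1) (Set.range ρ)) with hS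
  have hb : killLast (FreeGroup.of (Fin.last n) : FreeGroup (Fin (n + 1))) = 1 := by
    unfold killLast; rw [FreeGroup.lift_apply_of, Fin.snoc_last]
  have hall : ∀ x, (srep ρ v u hv hu h x).a ∈ S := by
    have hH : S.comap ((Aff.lin).comp (srep ρ v u hv hu h)) = ⊤ := by
      rw [← top_le_iff, ← PresentedGroup.closure_range_of, Subgroup.closure_le]
      rintro _ ⟨i, rfl⟩
      show (srep ρ v u hv hu h (PresentedGroup.of i)).a ∈ S
      rw [srep_of]
      unfold ext1
      refine Fin.lastCases ?_ (fun i => ?_) i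
      · rw [Fin.snoc_last]; exact one_mem S
      · rw [Fin.snoc_castSucc]
        exact Subgroup.subset_closure (Set.mem_insert_of_mem _ ⟨i, rfl⟩)
    intro x
    have : x ∈ S.comap ((Aff.lin).comp (srep ρ v u hv hu h)) := by rw [hH]; trivial
    exact this
  obtain ⟨x, hx, h1⟩ := dt_equiv (srep ρ v u hv hu h) S
    (Subgroup.subset_closure (Set.mem_insert _ _)) hall he
  rw [dt_stup ρ v u hv hu h u hu, dt_stup ρ v u hv hu h _ hb, fox_of] at h1
  refine ⟨x, hx, ?_⟩
  rw [h1]; simp

end rep

end Pool.Agent.NE
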